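import Mathlib
import Pool.Agent.H98.FJ.Closed

/-!
# Polynomial automorphisms of the plane: definitions
-/

set_option autoImplicit false

namespace Pool.Agent.H54.PA

open MvPolynomial

/-- polynomials in two variables -/
abbrev P (K : Type) [Field K] : Type := MvPolynomial (Fin 2) K

/-- the group of the polynomial automorphisms, `(φ * ψ) G = φ (ψ G)` -/
abbrev Au (K : Type) [Field K] : Type := P K ≃ₐ[K] P K

section

variable {K : Type} [Field K]

/-- the Jacobian determinant -/
noncomputable def Jac (u v : P K) : P K := pderiv 0 u * pderiv 1 v - pderiv 1 u * pderiv 0 v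

/-- the leading homogeneous form -/
noncomputable def lf (u : P K) : P K := homogeneousComponent u.totalDegree u

/-- the automorphism admits no reduction of its degree: `deg (f - c g ^ k) = deg f`, `deg (g - c f ^ k) = deg g` for
`f = φ x`, `g = φ y` (negated conclusion of Jung's theorem) -/
def NR (φ : Au K) : Prop :=
  ∀ (c : K) (k : ℕ), (φ (X 0)).totalDegree ≤ (φ (X 0) - C c * φ (X 1) ^ k).totalDegree ∧
    (φ (X 1)).totalDegree ≤ (φ (X 1) - C c * φ (X 0) ^ k).totalDegree

variable (K)

/-- polynomials of degree at most one -/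
noncomputable def L1 : Submodule K (P K) := restrictTotalDegree (Fin 2) K 1

/-- the polynomials in `y` -/
noncomputable def Ky : Subalgebra K (P K) := Algebra.adjoin K {X 1}

/-- the affine automorphisms: they preserve the polynomials of degree at most one -/
noncomputable def A : Subgroup (Au K) where
  carrier := {φ | ∀ p, p ∈ L1 K ↔ φ p ∈ L1 K}
  mul_mem' := by
    intro φ ψ hφ hψ p
    exact (hψ p).trans (hφ (ψ p))
  one_mem' := fun p => Iff.rfl
  inv_mem' := by
    intro φ hφ p
    have h := hφ (φ⁻¹ p)
    have h2 : φ (φ⁻¹ p) = p := φ.apply_symm_apply p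
    rw [h2] at h
    exact h.symm

/-- the triangular automorphisms: they preserve the polynomials in `y` -/
noncomputable def E : Subgroup (Au K) where
  carrier := {φ | ∀ p, p ∈ Ky K ↔ φ p ∈ Ky K}
  mul_mem' := by
    intro φ ψ hφ hψ p
    exact (hψ p).trans (hφ (ψ p))
  one_mem' := fun p => Iff.rfl
  inv_mem' := by
    intro φ hφ p
    have h := hφ (φ⁻¹ p)
    have h2 : φ (φ⁻¹ p) = p := φ.apply_symm_apply p
    rw [h2] at h
    exact h.symm

/-- the vertices of the tree (the group acts by left multiplication) -/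
abbrev Vt : Type := (Au K ⧸ A K) ⊕ (Au K ⧸ E K)

variable {K}

theorem smul_inl (g h : Au K) : g • (Sum.inl (h : Au K ⧸ A K) : Vt K) = Sum.inl ((g * h : Au K) : Au K ⧸ A K) := rfl

theorem smul_inr (g h : Au K) : g • (Sum.inr (h : Au K ⧸ E K) : Vt K) = Sum.inr ((g * h : Au K) : Au K ⧸ E K) := rfl

variable (K)

/-- the tree of Jung and van der Kulk: `g A` and `g E` are adjacent -/
noncomputable def Tr : SimpleGraph (Vt K) where
  Adj x y := ∃ g : Au K,
    (x = Sum.inl (g : Au K ⧸ A K) ∧ y = Sum.inr (g : Au K ⧸ E K)) ∨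
    (y = Sum.inl (g : Au K ⧸ A K) ∧ x = Sum.inr (g : Au K ⧸ E K))
  symm := ⟨by
    rintro x y ⟨g, h | h⟩
    · exact ⟨g, Or.inr h⟩
    · exact ⟨g, Or.inl h⟩⟩
  loopless := ⟨by
    rintro x ⟨g, ⟨h1, h2⟩ | ⟨h1, h2⟩⟩
    · rw [h1] at h2
      cases h2
    · rw [h1] at h2
      cases h2⟩

end

/-- The class is closed under acylindrical actions on trees: if a countable group acts on a tree without inversions, if for
some `k` and `N` at most `N` elements fix two given vertices at distance at least `k`, and if all vertex stabilisers are in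
the class, then the group is in the class. -/
def AcylTrees (C : (G : Type) → [Group G] → Prop) : Prop :=
  ∀ (G V : Type) [Group G] [Countable G] [MulAction G V] (X : SimpleGraph V), X.IsTree →
    (∀ (g : G) (v w : V), X.Adj v w → X.Adj (g • v) (g • w)) →
    (∀ (g : G) (v w : V), X.Adj v w → g • v = w → g • w ≠ v) →
    (∃ k N : ℕ, ∀ v w : V, k ≤ X.dist v w →
      {g : G | g • v = v ∧ g • w = w}.Finite ∧ {g : G | g • v = v ∧ g • w = w}.ncard ≤ N) →
    (∀ v : V, C (MulAction.stabilizer G v)) → C G

end Pool.Agent.H54.PA
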