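import Mathlib
import Pool.Agent.H54.PA.Defs

/-!
# The action on the tree

* `smul_adj`: `smul_inl`, `smul_inr` (`Defs`). `no_inv`: the action preserves the two types of vertices.
* `fix_inl`: `u • (g A) = g A` iff `g⁻¹ * u * g ∈ A` (`QuotientGroup.eq`). `fix_inr`: the same for `E`.
* `stab_mem`: the stabiliser of `g A` is isomorphic to `A` (`u ↦ g⁻¹ * u * g` is an injective homomorphism into `A`; `Inherits.of_injective`);
  the same for `E`.
-/

set_option autoImplicit false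

namespace Pool.Agent.H54.PA

open MvPolynomial Pool.Agent.H98.FJ

variable {K : Type} [Field K]

theorem smul_adj (g : Au K) {x y : Vt K} (h : (Tr K).Adj x y) : (Tr K).Adj (g • x) (g • y) := by
  obtain ⟨k, ⟨rfl, rfl⟩ | ⟨rfl, rfl⟩⟩ := h
  · exact ⟨g * k, Or.inl ⟨rfl, rfl⟩⟩
  · exact ⟨g * k, Or.inr ⟨rfl, rfl⟩⟩

theorem no_inv (g : Au K) {x y : Vt K} (h : (Tr K).Adj x y) (h1 : g • x = y) : g • y ≠ x := by
  obtain ⟨k, ⟨rfl, rfl⟩ | ⟨rfl, rfl⟩⟩ := h
  · rw [smul_inl] at h1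
    cases h1
  · rw [smul_inr] at h1
    cases h1

theorem fix_inl {u g : Au K} : u • (Sum.inl (g : Au K ⧸ A K) : Vt K) = Sum.inl (g : Au K ⧸ A K) ↔ g⁻¹ * u * g ∈ A K := by
  rw [smul_inl, Sum.inl.injEq, QuotientGroup.eq, ← Subgroup.inv_mem_iff]
  have h : ((u * g)⁻¹ * g)⁻¹ = g⁻¹ * u * g := by group
  rw [h]

theorem fix_inr {u g : Au K} : u • (Sum.inr (g : Au K ⧸ E K) : Vt K) = Sum.inr (g : Au K ⧸ E K) ↔ g⁻¹ * u * g ∈ E K := by
  rw [smul_inr, Sum.inr.injEq, QuotientGroup.eq, ← Subgroup.inv_mem_iff]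
  have h : ((u * g)⁻¹ * g)⁻¹ = g⁻¹ * u * g := by group
  rw [h]

/-- conjugation as a homomorphism from a stabiliser -/
theorem conj_mem {C : (G : Type) → [Group G] → Prop} (hC : Inherits C) {B S : Subgroup (Au K)} (g : Au K)
    (h : ∀ u ∈ S, g⁻¹ * u * g ∈ B) (hB : C B) : C S := by
  refine hC.of_injective (G := S) (H := B) (
    { toFun := fun u => ⟨g⁻¹ * u * g, h u u.2⟩
      map_one' := Subtype.ext (by simp)
      map_mul' := fun u v => Subtype.ext (by
        show g⁻¹ * ((u : Au K) * (v : Au K)) * g = g⁻¹ * u * g * (g⁻¹ * v * g)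
        group) } : S →* B) (fun u v huv => ?_) hB
  have h1 : g⁻¹ * (u : Au K) * g = g⁻¹ * v * g := congrArg Subtype.val huv
  exact Subtype.ext (mul_left_cancel (mul_right_cancel h1))

theorem stab_mem {C : (G : Type) → [Group G] → Prop} (hC : Inherits C) (hA : C (A K)) (hE : C (E K)) (x : Vt K) :
    C (MulAction.stabilizer (Au K) x) := by
  rcases x with x | x
  · obtain ⟨g, rfl⟩ := QuotientGroup.mk_surjective x
    exact conj_mem hC g (fun u hu => fix_inl.1 hu) hA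
  · obtain ⟨g, rfl⟩ := QuotientGroup.mk_surjective x
    exact conj_mem hC g (fun u hu => fix_inr.1 hu) hE

end Pool.Agent.H54.PA
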