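import Mathlib
import Pool.Agent.H54.PA.Defs

/-!
# The affine automorphisms

* `mem_L1'`: `restrictTotalDegree` (`mem_restrictTotalDegree`).
* `mem_L1`: an exponent `e : Fin 2 →₀ ℕ` with `e 0 + e 1 ≤ 1` is `0`, `single 0 1` or `single 1 1`; compare coefficients.
* `lin_inj`: compare the coefficients of `0`, `single 0 1`, `single 1 1`.
* `mem_A`: if `φ (X 0)` and `φ (X 1)` are in `L1` then `φ` maps `L1` into itself (`mem_L1`), `L1` has finite dimension (spanned by `X 0`, `X 1`, `1`) and `φ` is
  injective, so `φ (L1) = L1` (`LinearMap.injective_iff_surjective` for the restriction to `L1`), so `φ p ∈ L1` implies `p ∈ L1`.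
* `au_ext`: `AlgEquiv` are equal if they agree on the variables (`MvPolynomial.algHom_ext`; `Fin 2`).
* `exists_swap`: exchanges `X 0` and `X 1` (`MvPolynomial.renameEquiv K (Equiv.swap 0 1)`). It is in `A` by `mem_A`.
-/

set_option autoImplicit false

namespace Pool.Agent.H54.PA

open MvPolynomial

variable {K : Type} [Field K]

private theorem totalDegree_lin (a b c : K) : (C a * X 0 + C b * X 1 + C c : P K).totalDegree ≤ 1 := by
  refine (totalDegree_add _ _).trans (max_le ((totalDegree_add _ _).trans (max_le ?_ ?_)) ?_)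
  · refine (totalDegree_mul _ _).trans ?_
    rw [totalDegree_C, totalDegree_X]
  · refine (totalDegree_mul _ _).trans ?_
    rw [totalDegree_C, totalDegree_X]
  · rw [totalDegree_C]
    exact Nat.zero_le _

private theorem coeff_lin (a b c : K) (m : Fin 2 →₀ ℕ) : coeff m (C a * X 0 + C b * X 1 + C c : P K) =
    (a * if Finsupp.single 0 1 = m then 1 else 0) + (b * if Finsupp.single 1 1 = m then 1 else 0) +
      if 0 = m then c else 0 := by
  classical
  rw [coeff_add, coeff_add, coeff_C_mul, coeff_C_mul, coeff_X, coeff_X, coeff_C]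

private theorem cases_e (m : Fin 2 →₀ ℕ) (h : m 0 + m 1 ≤ 1) :
    m = 0 ∨ m = Finsupp.single 0 1 ∨ m = Finsupp.single 1 1 := by
  rcases Nat.eq_zero_or_pos (m 0) with h0 | h0
  · rcases Nat.eq_zero_or_pos (m 1) with h1 | h1
    · left
      ext i
      fin_cases i
      · exact h0
      · exact h1
    · right
      right
      ext i
      fin_cases i
      · simpa using h0
      · have : m 1 = 1 := by omega
        simpa using this
  · right
    left
    ext i
    fin_cases i
    · have : m 0 = 1 := by omega
      simpa using this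
    · have : m 1 = 0 := by omega
      simpa using this

theorem mem_L1' {p : P K} : p ∈ L1 K ↔ p.totalDegree ≤ 1 := by
  rw [L1, mem_restrictTotalDegree]

theorem mem_L1 {p : P K} : p ∈ L1 K ↔ ∃ a b c : K, p = C a * X 0 + C b * X 1 + C c := by
  classical
  rw [mem_L1']
  constructor
  · intro hp
    refine ⟨coeff (Finsupp.single 0 1) p, coeff (Finsupp.single 1 1) p, coeff 0 p, ?_⟩
    ext m
    rw [coeff_lin]
    by_cases hm : m 0 + m 1 ≤ 1
    · have n1 : (Finsupp.single 0 1 : Fin 2 →₀ ℕ) ≠ 0 := by
        intro h
        have := DFunLike.congr_fun h 0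
        simp at this
      have n2 : (Finsupp.single 1 1 : Fin 2 →₀ ℕ) ≠ 0 := by
        intro h
        have := DFunLike.congr_fun h 1
        simp at this
      have n3 : (Finsupp.single 0 1 : Fin 2 →₀ ℕ) ≠ Finsupp.single 1 1 := by
        intro h
        have := DFunLike.congr_fun h 0
        simp at this
      rcases cases_e m hm with h | h | h
      · subst h
        rw [if_neg n1, if_neg n2, if_pos rfl]
        ring
      · subst h
        rw [if_pos rfl, if_neg n3.symm, if_neg n1.symm]
        ring
      · subst h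
        rw [if_neg n3, if_pos rfl, if_neg n2.symm]
        ring
    · have h1 : coeff m p = 0 := by
        by_contra hc
        apply hm
        have h2 : m ∈ p.support := mem_support_iff.2 hc
        have h3 := le_totalDegree h2
        have h4 : (m.sum fun _ e => e) = m 0 + m 1 := by
          rw [Finsupp.sum_fintype _ _ (fun _ => rfl), Fin.sum_univ_two]
        omega
      rw [h1]
      have m1 : (Finsupp.single 0 1 : Fin 2 →₀ ℕ) ≠ m := by
        rintro rfl
        apply hm
        simp
      have m2 : (Finsupp.single 1 1 : Fin 2 →₀ ℕ) ≠ m := by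
        rintro rfl
        apply hm
        simp
      have m3 : (0 : Fin 2 →₀ ℕ) ≠ m := by
        rintro rfl
        apply hm
        simp
      rw [if_neg m1, if_neg m2, if_neg m3]
      ring
  · rintro ⟨a, b, c, rfl⟩
    exact totalDegree_lin a b c

theorem lin_inj {a b c a' b' c' : K} (h : (C a * X 0 + C b * X 1 + C c : P K) = C a' * X 0 + C b' * X 1 + C c') :
    a = a' ∧ b = b' ∧ c = c' := by
  classical
  have n1 : (Finsupp.single 0 1 : Fin 2 →₀ ℕ) ≠ 0 := by
    intro h
    have := DFunLike.congr_fun h 0
    simp at this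
  have n2 : (Finsupp.single 1 1 : Fin 2 →₀ ℕ) ≠ 0 := by
    intro h
    have := DFunLike.congr_fun h 1
    simp at this
  have n3 : (Finsupp.single 0 1 : Fin 2 →₀ ℕ) ≠ Finsupp.single 1 1 := by
    intro h
    have := DFunLike.congr_fun h 0
    simp at this
  have h0 := congrArg (coeff 0) h
  have h1 := congrArg (coeff (Finsupp.single 0 1)) h
  have h2 := congrArg (coeff (Finsupp.single 1 1)) h
  rw [coeff_lin, coeff_lin, if_neg n1, if_neg n2, if_pos rfl] at h0
  rw [coeff_lin, coeff_lin, if_pos rfl, if_neg n3.symm, if_neg n1.symm, if_neg n1.symm] at h1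
  rw [coeff_lin, coeff_lin, if_neg n3, if_pos rfl, if_neg n2.symm, if_neg n2.symm] at h2
  refine ⟨by simpa using h1, by simpa using h2, by simpa using h0⟩

theorem mem_A {φ : Au K} : φ ∈ A K ↔ φ (X 0) ∈ L1 K ∧ φ (X 1) ∈ L1 K := by
  constructor
  · intro h
    exact ⟨(h _).1 (mem_L1'.2 (totalDegree_X _).le), (h _).1 (mem_L1'.2 (totalDegree_X _).le)⟩
  · rintro ⟨h0, h1⟩
    have hmap : ∀ p ∈ L1 K, φ p ∈ L1 K := by
      intro p hp
      obtain ⟨a, b, c, rfl⟩ := mem_L1.1 hp
      have e1 : φ (C a * X 0 + C b * X 1 + C c) = a • φ (X 0) + b • φ (X 1) + C c := by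
        rw [map_add, map_add, map_mul, map_mul]
        have hC : ∀ t : K, φ (C t) = C t := fun t => by
          have := φ.commutes t
          rwa [algebraMap_eq] at this
        rw [hC, hC, hC, smul_eq_C_mul, smul_eq_C_mul]
      rw [e1]
      refine Submodule.add_mem _ (Submodule.add_mem _ (Submodule.smul_mem _ _ h0) (Submodule.smul_mem _ _ h1)) ?_
      exact mem_L1'.2 (by rw [totalDegree_C]; exact Nat.zero_le _)
    have hfin : FiniteDimensional K (L1 K) := by
      have hs : L1 K ≤ Submodule.span K {X 0, X 1, C 1} := by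
        intro p hp
        obtain ⟨a, b, c, rfl⟩ := mem_L1.1 hp
        have e1 : (C a * X 0 + C b * X 1 + C c : P K) = a • X 0 + b • X 1 + c • C 1 := by
          rw [smul_eq_C_mul, smul_eq_C_mul, smul_eq_C_mul, C_1, mul_one]
        rw [e1]
        refine Submodule.add_mem _ (Submodule.add_mem _ (Submodule.smul_mem _ _ (Submodule.subset_span (by simp)))
          (Submodule.smul_mem _ _ (Submodule.subset_span (by simp)))) (Submodule.smul_mem _ _ (Submodule.subset_span (by simp)))
      have hf : FiniteDimensional K (Submodule.span K ({X 0, X 1, C 1} : Set (P K))) :=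
        FiniteDimensional.span_of_finite K (by simp)
      exact Submodule.finiteDimensional_of_le hs
    intro p
    refine ⟨hmap p, fun hp => ?_⟩
    have hr := LinearMap.injective_iff_surjective (f := (φ.toLinearMap.restrict hmap : L1 K →ₗ[K] L1 K))
    have hi : Function.Injective (φ.toLinearMap.restrict hmap : L1 K →ₗ[K] L1 K) := by
      intro u v huv
      apply Subtype.ext
      apply φ.injective
      have := congrArg Subtype.val huv
      exact this
    obtain ⟨u, hu⟩ := hr.1 hi ⟨φ p, hp⟩
    have h3 : φ (u : P K) = φ p := by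
      have := congrArg Subtype.val hu
      exact this
    rw [← φ.injective h3]
    exact u.2

theorem exists_swap : ∃ φ : Au K, φ (X 0) = X 1 ∧ φ (X 1) = X 0 := by
  refine ⟨renameEquiv K (Equiv.swap 0 1), ?_, ?_⟩
  · rw [renameEquiv_apply, rename_X, Equiv.swap_apply_left]
  · rw [renameEquiv_apply, rename_X, Equiv.swap_apply_right]

/-- two automorphisms which agree on the variables are equal -/
theorem au_ext {φ ψ : Au K} (h0 : φ (X 0) = ψ (X 0)) (h1 : φ (X 1) = ψ (X 1)) : φ = ψ := by
  have h : (φ : P K →ₐ[K] P K) = (ψ : P K →ₐ[K] P K) := by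
    apply algHom_ext
    intro i
    fin_cases i
    · exact h0
    · exact h1
  apply AlgEquiv.ext
  intro p
  exact DFunLike.congr_fun h p

end Pool.Agent.H54.PA
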