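import Mathlib
import Pool.Agent.H54.PA.Defs
import Pool.Agent.H13.PA.Jac

/-!
# The Jacobian of an automorphism is a constant

From `H13/PA/Jac.lean`.
-/

set_option autoImplicit false

namespace Pool.Agent.H54.PA

open MvPolynomial

variable {K : Type} [Field K]

theorem jac_const (φ : Au K) : ∃ c : K, c ≠ 0 ∧ Jac (φ (X 0)) (φ (X 1)) = C c :=
  Pool.Agent.H13.PA.jac_const φ

end Pool.Agent.H54.PA
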