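import Mathlib
import Pool.Agent.H54.PA.Chain
import Pool.Agent.H54.PA.El1

/-!
# The triangular automorphisms

* `mem_Ky`: `Algebra.adjoin_singleton_eq_range_aeval`.
* `aeval_X1_inj`: `X 1` is transcendental over `K` (`MvPolynomial.transcendental_X`, or apply `MvPolynomial.aeval ![0, Polynomial.X]`).
* `mem_E`: if `φ ∈ E` then `φ (X 1) = q (X 1)`, `φ⁻¹ (X 1) = r (X 1)` for polynomials `q`, `r` in one variable (the definition of `E` with `p = X 1` and
  `p = φ⁻¹ (X 1)`), so `X 1 = φ (r (X 1)) = r (q (X 1))`, `r.comp q = X`, `natDegree r * natDegree q = 1` (`Polynomial.natDegree_comp`), so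
  `natDegree q = 1`, `q = C b * X + C c`, `b ≠ 0`.
  Conversely, if `φ (X 1) = C b * X 1 + C c`, `b ≠ 0`, then `φ (q (X 1)) = q (b X 1 + c) ∈ Ky`, and if `φ p ∈ Ky`, `φ p = q (X 1)`, then with
  `X 1 = φ (C b⁻¹ * (X 1 - C c))` we get `φ p = φ (q (C b⁻¹ * (X 1 - C c)))`, so `p ∈ Ky` by injectivity.
* `E_X0`: `jac_const` (`Chain`): `C c' = Jac (φ (X 0)) (C b * X 1 + C c) = pderiv 0 (φ (X 0)) * C b`, so `pderiv 0 (φ (X 0)) = C a`, `a ≠ 0`;
  `u = φ (X 0) - C a * X 0` has `pderiv 0 u = 0`, so it is in `Ky` (`ky_of_pderiv`: all `e` in its support have `e 0 = 0`, `coeff_pderiv`,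
  characteristic zero).
* `exists_shear`: `AlgEquiv.ofAlgHom (aeval ![X 0 + q (X 1), X 1]) (aeval ![X 0 - q (X 1), X 1])`.
* `sub_deg`: `deg q (u) = natDegree q * deg u` (`u` not constant): the powers of `u` have different degrees (`totalDegree_pow` / `totalDegree_mul_of_isDomain`); induction on
  `natDegree q` (split off the leading term), or `homogeneousComponent`.
-/

set_option autoImplicit false

namespace Pool.Agent.H54.PA

open MvPolynomial

variable {K : Type} [Field K]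

theorem mem_Ky {p : P K} : p ∈ Ky K ↔ ∃ q : Polynomial K, p = Polynomial.aeval (X 1 : P K) q := by
  unfold Ky
  rw [Algebra.adjoin_singleton_eq_range_aeval, AlgHom.mem_range]
  exact ⟨fun ⟨q, hq⟩ => ⟨q, hq.symm⟩, fun ⟨q, hq⟩ => ⟨q, hq.symm⟩⟩

theorem aeval_X1_inj {q r : Polynomial K} (h : Polynomial.aeval (X 1 : P K) q = Polynomial.aeval (X 1 : P K) r) : q = r := by
  have key : ∀ q : Polynomial K, MvPolynomial.aeval (![0, Polynomial.X] : Fin 2 → Polynomial K)
      (Polynomial.aeval (X 1 : P K) q) = q := by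
    intro q
    rw [← Polynomial.aeval_algHom_apply, MvPolynomial.aeval_X]
    simp
  rw [← key q, h, key r]

private theorem phi_aeval (φ : Au K) (x : P K) (q : Polynomial K) : φ (Polynomial.aeval x q) = Polynomial.aeval (φ x) q :=
  (Polynomial.aeval_algHom_apply (φ : P K →ₐ[K] P K) x q).symm

private theorem lin_aeval (b c : K) : (C b * X 1 + C c : P K) =
    Polynomial.aeval (X 1 : P K) (Polynomial.C b * Polynomial.X + Polynomial.C c) := by
  simp [Polynomial.aeval_C, MvPolynomial.algebraMap_eq]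

theorem mem_E {φ : Au K} : φ ∈ E K ↔ ∃ b c : K, b ≠ 0 ∧ φ (X 1) = C b * X 1 + C c := by
  constructor
  · intro h
    have h' : ∀ p, p ∈ Ky K ↔ φ p ∈ Ky K := h
    have h1 : (X 1 : P K) ∈ Ky K := mem_Ky.2 ⟨Polynomial.X, by simp⟩
    obtain ⟨q, hq⟩ := mem_Ky.1 ((h' _).1 h1)
    have h2 : φ.symm (X 1) ∈ Ky K := (h' _).2 (by rwa [φ.apply_symm_apply])
    obtain ⟨r, hr⟩ := mem_Ky.1 h2
    have h3 : Polynomial.aeval (X 1 : P K) (r.comp q) = Polynomial.aeval (X 1 : P K) (Polynomial.X : Polynomial K) := by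
      rw [Polynomial.aeval_comp, ← hq, ← phi_aeval, ← hr, φ.apply_symm_apply, Polynomial.aeval_X]
    have h4 := aeval_X1_inj h3
    have h5 : r.natDegree * q.natDegree = 1 := by
      rw [← Polynomial.natDegree_comp, h4, Polynomial.natDegree_X]
    have h6 : q.natDegree = 1 := Nat.eq_one_of_mul_eq_one_left h5
    obtain ⟨b, c, hbc⟩ := Polynomial.exists_eq_X_add_C_of_natDegree_le_one h6.le
    refine ⟨b, c, ?_, ?_⟩
    · rintro rfl
      rw [hbc, map_zero, zero_mul, zero_add, Polynomial.natDegree_C] at h6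
      exact zero_ne_one h6
    · rw [hq, hbc, ← lin_aeval]
  · rintro ⟨b, c, hb, h⟩
    show ∀ p, p ∈ Ky K ↔ φ p ∈ Ky K
    intro p
    rw [mem_Ky, mem_Ky]
    constructor
    · rintro ⟨q, rfl⟩
      refine ⟨q.comp (Polynomial.C b * Polynomial.X + Polynomial.C c), ?_⟩
      rw [phi_aeval, h, lin_aeval, Polynomial.aeval_comp]
    · rintro ⟨q, hq⟩
      refine ⟨q.comp (Polynomial.C b⁻¹ * Polynomial.X + Polynomial.C (-(b⁻¹ * c))), ?_⟩
      apply φ.injective
      have h7 : (C b⁻¹ : P K) * C b = 1 := by rw [← C_mul, inv_mul_cancel₀ hb, C_1]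
      have h8 : (C (-(b⁻¹ * c)) : P K) = - (C b⁻¹ * C c) := by rw [C_neg, C_mul]
      have h9 : Polynomial.aeval (C b * X 1 + C c : P K) (Polynomial.C b⁻¹ * Polynomial.X + Polynomial.C (-(b⁻¹ * c))) =
          (X 1 : P K) := by
        simp only [map_add, map_mul, Polynomial.aeval_C, Polynomial.aeval_X, MvPolynomial.algebraMap_eq]
        rw [h8]
        linear_combination (X 1 : P K) * h7
      rw [hq, phi_aeval, h, Polynomial.aeval_comp, h9]

theorem ky_of_pderiv [CharZero K] {u : P K} (h : pderiv 0 u = 0) : u ∈ Ky K := by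
  rw [u.as_sum]
  refine Subalgebra.sum_mem _ fun e he => ?_
  have h0 : e 0 = 0 := by
    by_contra hne
    have h1 := MvPolynomial.coeff_pderiv (i := (0 : Fin 2)) u (e - Finsupp.single 0 1)
    rw [h, coeff_zero] at h1
    have h2 : e - Finsupp.single 0 1 + Finsupp.single 0 1 = e := by
      refine tsub_add_cancel_of_le ?_
      rw [Finsupp.single_le_iff]
      omega
    rw [h2] at h1
    rcases mul_eq_zero.1 h1.symm with h3 | h3
    · exact (mem_support_iff.1 he) h3
    · norm_cast at h3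
  have h1 : e = Finsupp.single 1 (e 1) := by
    ext i
    fin_cases i
    · simpa using h0
    · simp
  refine mem_Ky.2 ⟨Polynomial.C (coeff e u) * Polynomial.X ^ (e 1), ?_⟩
  rw [map_mul, map_pow, Polynomial.aeval_C, Polynomial.aeval_X, MvPolynomial.algebraMap_eq,
    MvPolynomial.C_mul_X_pow_eq_monomial, ← h1]

theorem E_X0 [CharZero K] {φ : Au K} (h : φ ∈ E K) :
    ∃ (a : K) (q : Polynomial K), a ≠ 0 ∧ φ (X 0) = C a * X 0 + Polynomial.aeval (X 1 : P K) q := by
  obtain ⟨b, c, hb, hφ⟩ := mem_E.1 h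
  obtain ⟨c', hc', hJ⟩ := jac_const φ
  rw [hφ] at hJ
  have h1 : pderiv 0 (φ (X 0)) * C b = (C c' : P K) := by
    rw [← hJ]
    unfold Jac
    simp [pderiv_X]
  have h2 : pderiv 0 (φ (X 0)) = (C (c' * b⁻¹) : P K) := by
    have h7 : (C b : P K) * C b⁻¹ = 1 := by rw [← C_mul, mul_inv_cancel₀ hb, C_1]
    rw [C_mul, ← h1, mul_assoc, h7, mul_one]
  have h3 : pderiv 0 (φ (X 0) - C (c' * b⁻¹) * X 0) = 0 := by
    rw [map_sub, h2, pderiv_C_mul, pderiv_X_self, mul_one, sub_self]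
  obtain ⟨q, hq⟩ := mem_Ky.1 (ky_of_pderiv h3)
  refine ⟨c' * b⁻¹, q, mul_ne_zero hc' (inv_ne_zero hb), ?_⟩
  rw [← hq]
  ring

theorem exists_shear (q : Polynomial K) : ∃ φ : Au K, φ (X 0) = X 0 + Polynomial.aeval (X 1 : P K) q ∧ φ (X 1) = X 1 := by
  have key : ∀ q : Polynomial K,
      (MvPolynomial.aeval (![X 0 + Polynomial.aeval (X 1 : P K) q, X 1] : Fin 2 → P K)).comp
        (MvPolynomial.aeval (![X 0 + Polynomial.aeval (X 1 : P K) (-q), X 1] : Fin 2 → P K)) = AlgHom.id K (P K) := by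
    intro q
    refine MvPolynomial.algHom_ext fun i => ?_
    fin_cases i
    · simp [← Polynomial.aeval_algHom_apply]
    · simp
  refine ⟨AlgEquiv.ofAlgHom (MvPolynomial.aeval (![X 0 + Polynomial.aeval (X 1 : P K) q, X 1] : Fin 2 → P K))
    (MvPolynomial.aeval (![X 0 + Polynomial.aeval (X 1 : P K) (-q), X 1] : Fin 2 → P K)) (key q) ?_, ?_, ?_⟩
  · have := key (-q)
    rwa [neg_neg] at this
  · simp
  · simp

end Pool.Agent.H54.PA
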