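import Mathlib
import Pool.Agent.H54.PA.Defs

/-!
# The degree of a polynomial in a polynomial

* `deg_pow`: `deg (u ^ k) = k deg u` in a domain (`totalDegree_mul_of_isDomain`).
* `deg_add_eq`: if `deg v < deg u` then `deg (u + v) = deg u` (`totalDegree_add_eq_left_of_totalDegree_lt`).
* `sub_deg`: `deg q (u) = natDegree q * deg u` (`u` not constant): the powers of `u` have different degrees; induction on
  `natDegree q` (split off the leading term: `Polynomial.eraseLead`), `deg_add_eq`.
-/

set_option autoImplicit false

namespace Pool.Agent.H54.PA

open MvPolynomial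

variable {K : Type} [Field K]

theorem deg_pow (u : P K) (k : ℕ) : (u ^ k).totalDegree = k * u.totalDegree := by
  by_cases hu : u = 0
  · subst hu
    rcases Nat.eq_zero_or_pos k with h | h
    · subst h
      rw [pow_zero, totalDegree_one, zero_mul]
    · rw [zero_pow (by omega), totalDegree_zero, mul_zero]
  · induction k with
    | zero => rw [pow_zero, totalDegree_one, zero_mul]
    | succ k ih => rw [pow_succ, totalDegree_mul_of_isDomain (pow_ne_zero _ hu) hu, ih, Nat.succ_mul]

theorem deg_add_eq {u v : P K} (h : v.totalDegree < u.totalDegree) : (u + v).totalDegree = u.totalDegree :=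
  totalDegree_add_eq_left_of_totalDegree_lt h

theorem deg_C_mul {c : K} (hc : c ≠ 0) (u : P K) : (C c * u).totalDegree = u.totalDegree := by
  by_cases hu : u = 0
  · subst hu
    rw [mul_zero]
  · rw [totalDegree_mul_of_isDomain (by rw [Ne, C_eq_zero]; exact hc) hu, totalDegree_C, zero_add]

theorem sub_deg {u : P K} (hu : 1 ≤ u.totalDegree) (q : Polynomial K) :
    (Polynomial.aeval u q).totalDegree = q.natDegree * u.totalDegree := by
  induction h : q.natDegree using Nat.strong_induction_on generalizing q with
  | _ n ih =>
    rcases Nat.eq_zero_or_pos n with h0 | h0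
    · subst h0
      rw [Polynomial.eq_C_of_natDegree_eq_zero h, Polynomial.aeval_C, zero_mul]
      exact totalDegree_C _
    · have hlc : q.leadingCoeff ≠ 0 := by
        rw [Ne, Polynomial.leadingCoeff_eq_zero]
        rintro rfl
        rw [Polynomial.natDegree_zero] at h
        omega
      have h1 : (Polynomial.aeval u (Polynomial.C q.leadingCoeff * Polynomial.X ^ n)).totalDegree =
          n * u.totalDegree := by
        rw [map_mul, Polynomial.aeval_C, map_pow, Polynomial.aeval_X]
        have h2 := deg_C_mul hlc (u ^ n)
        rw [deg_pow] at h2
        exact h2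
      have h3 : (Polynomial.aeval u q.eraseLead).totalDegree < n * u.totalDegree := by
        have h4 := Polynomial.eraseLead_natDegree_le q
        have h5 : q.eraseLead.natDegree < n := by omega
        rw [ih _ h5 q.eraseLead rfl]
        exact Nat.mul_lt_mul_of_pos_right h5 (by omega)
      have h6 : Polynomial.aeval u q = Polynomial.aeval u (Polynomial.C q.leadingCoeff * Polynomial.X ^ n) +
          Polynomial.aeval u q.eraseLead := by
        rw [← map_add, add_comm, ← h, Polynomial.eraseLead_add_C_mul_X_pow]
      rw [h6, deg_add_eq, h1]
      rw [h1]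
      exact h3

end Pool.Agent.H54.PA
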