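import Mathlib
import Pool.Agent.H54.PA.Ele

/-!
# The affine group

Let `L / F` be an extension of fields. For `φ ∈ Au F` let `π φ : (Fin 2 → L) → (Fin 2 → L)`, `π φ v i = aeval v (φ (X i))`. Then
`aeval (π φ v) G = aeval v (φ G)` for all `G : P F`, so `π (φ * ψ) = π ψ ∘ π φ`, and `φ ↦ π φ⁻¹` is multiplicative.

* `aff_inj`: for `φ ∈ A F` the map `π φ` is affine: `φ (X i) = C a * X 0 + C b * X 1 + C c` (`mem_A`, `mem_L1`), so `π φ v i = a v 0 + b v 1 + c`; it is bijective with inverse
  `π φ⁻¹`. Injective: the values of `π φ` at `0`, `Pi.single 0 1`, `Pi.single 1 1` determine `a, b, c`.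
* `aff_sub`: conversely an affine automorphism `T` of `K ^ 2` gives the automorphism `X i ↦ i`th coordinate of `T⁻¹` (or `T`, with the inverse) as a polynomial of degree at
  most one; an injective homomorphism. (Write `T v = M v + t` with a matrix `M`: `X i ↦ M i 0 X 0 + M i 1 X 1 + t i`; `K` may be finite, so do not argue with values of
  polynomials; `AlgEquiv.ofAlgHom` and the matrix identities, or `MonoidHom.toHomUnits`-like: first a homomorphism to the monoid of the algebra endomorphisms, then units.)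
-/

set_option autoImplicit false

namespace Pool.Agent.H54.PA

open MvPolynomial

section

variable {F L : Type} [Field F] [Field L] [Algebra F L]

/-- the action of an automorphism on the points -/
private noncomputable def pim (φ : Au F) (v : Fin 2 → L) : Fin 2 → L := fun i => aeval v (φ (X i))

private theorem aeval_pim (φ : Au F) (v : Fin 2 → L) (G : P F) : aeval (pim φ v) G = aeval v (φ G) := by
  have h : (aeval (pim φ v) : P F →ₐ[F] L) = (aeval v : P F →ₐ[F] L).comp (φ : P F →ₐ[F] P F) := by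
    apply algHom_ext
    intro i
    rw [aeval_X]
    rfl
  rw [h]
  rfl

private theorem pim_mul (φ ψ : Au F) (v : Fin 2 → L) : pim (φ * ψ) v = pim ψ (pim φ v) := by
  funext i
  exact (aeval_pim φ v (ψ (X i))).symm

private theorem pim_one (v : Fin 2 → L) : pim (1 : Au F) v = v := by
  funext i
  exact aeval_X v i

private theorem lin_form (φ : A F) : ∃ a b c : Fin 2 → F, ∀ i, (φ : Au F) (X i) = C (a i) * X 0 + C (b i) * X 1 + C (c i) := by
  have h := mem_A.1 φ.2
  have h2 : ∀ i : Fin 2, ∃ a b c : F, (φ : Au F) (X i) = C a * X 0 + C b * X 1 + C c := by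
    intro i
    fin_cases i
    · exact mem_L1.1 h.1
    · exact mem_L1.1 h.2
  choose a b c h3 using h2
  exact ⟨a, b, c, h3⟩

private theorem pim_val {φ : Au F} {a b c : Fin 2 → F} (h : ∀ i, φ (X i) = C (a i) * X 0 + C (b i) * X 1 + C (c i)) (v : Fin 2 → L) (i : Fin 2) :
    pim φ v i = algebraMap F L (a i) * v 0 + algebraMap F L (b i) * v 1 + algebraMap F L (c i) := by
  show aeval v (φ (X i)) = _
  rw [h i, map_add, map_add, map_mul, map_mul, aeval_X, aeval_X, aeval_C, aeval_C, aeval_C]

/-- the affine map -/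
private noncomputable def am (φ : A F) : (Fin 2 → L) →ᵃ[L] (Fin 2 → L) where
  toFun := pim (φ : Au F)
  linear :=
    { toFun := fun v => pim (φ : Au F) v - pim (φ : Au F) 0
      map_add' := by
        intro v w
        obtain ⟨a, b, c, h⟩ := lin_form φ
        funext i
        simp only [Pi.sub_apply, Pi.add_apply, pim_val h, Pi.zero_apply]
        ring
      map_smul' := by
        intro r v
        obtain ⟨a, b, c, h⟩ := lin_form φ
        funext i
        simp only [Pi.sub_apply, Pi.smul_apply, pim_val h, Pi.zero_apply, smul_eq_mul, RingHom.id_apply]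
        ring }
  map_vadd' := by
    intro p v
    obtain ⟨a, b, c, h⟩ := lin_form φ
    funext i
    simp only [vadd_eq_add, LinearMap.coe_mk, AddHom.coe_mk, Pi.sub_apply, Pi.add_apply, pim_val h, Pi.zero_apply]
    ring

private theorem am_apply (φ : A F) (v : Fin 2 → L) : (am φ : (Fin 2 → L) →ᵃ[L] (Fin 2 → L)) v = pim (φ : Au F) v := rfl

private theorem am_bij (φ : A F) : Function.Bijective (am φ : (Fin 2 → L) →ᵃ[L] (Fin 2 → L)) := by
  have h1 : ∀ ψ : A F, ∀ v : Fin 2 → L,
      (am ψ⁻¹ : (Fin 2 → L) →ᵃ[L] (Fin 2 → L)) ((am ψ : (Fin 2 → L) →ᵃ[L] (Fin 2 → L)) v) = v := by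
    intro ψ v
    rw [am_apply, am_apply, ← pim_mul]
    have : (ψ : Au F) * ((ψ⁻¹ : A F) : Au F) = 1 := by
      rw [← Subgroup.coe_mul, mul_inv_cancel, Subgroup.coe_one]
    rw [this, pim_one]
  constructor
  · intro v w hvw
    rw [← h1 φ v, hvw, h1]
  · intro v
    refine ⟨(am φ⁻¹ : (Fin 2 → L) →ᵃ[L] (Fin 2 → L)) v, ?_⟩
    have := h1 φ⁻¹ v
    rwa [inv_inv] at this

end

theorem aff_inj (F L : Type) [Field F] [Field L] [Algebra F L] :
    ∃ Φ : A F →* ((Fin 2 → L) ≃ᵃ[L] (Fin 2 → L)), Function.Injective Φ := by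
  have hv : ∀ (φ : A F) (v : Fin 2 → L),
      (AffineEquiv.ofBijective (am_bij φ⁻¹) : (Fin 2 → L) ≃ᵃ[L] (Fin 2 → L)) v = pim ((φ⁻¹ : A F) : Au F) v := fun φ v => rfl
  refine ⟨MonoidHom.mk' (fun φ : A F => (AffineEquiv.ofBijective (am_bij φ⁻¹) : (Fin 2 → L) ≃ᵃ[L] (Fin 2 → L))) ?_, ?_⟩
  · intro φ ψ
    apply AffineEquiv.ext
    intro v
    rw [AffineEquiv.mul_def, AffineEquiv.trans_apply, hv, hv, hv, ← pim_mul, mul_inv_rev, Subgroup.coe_mul]
  · intro φ ψ h
    have h1 : ∀ v : Fin 2 → L, pim ((φ⁻¹ : A F) : Au F) v = pim ((ψ⁻¹ : A F) : Au F) v := by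
      intro v
      rw [← hv, ← hv]
      exact DFunLike.congr_fun h v
    obtain ⟨a, b, c, hφ⟩ := lin_form φ⁻¹
    obtain ⟨a', b', c', hψ⟩ := lin_form ψ⁻¹
    have hinj := (algebraMap F L).injective
    have h2 : ∀ (v : Fin 2 → L) (i : Fin 2), algebraMap F L (a i) * v 0 + algebraMap F L (b i) * v 1 + algebraMap F L (c i) =
        algebraMap F L (a' i) * v 0 + algebraMap F L (b' i) * v 1 + algebraMap F L (c' i) := by
      intro v i
      rw [← pim_val hφ, ← pim_val hψ, h1]
    have hc : ∀ i, c i = c' i := by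
      intro i
      have := h2 0 i
      simp only [Pi.zero_apply, mul_zero, zero_add] at this
      exact hinj this
    have ha : ∀ i, a i = a' i := by
      intro i
      have := h2 (Pi.single 0 1) i
      rw [hc i, Pi.single_eq_same, Pi.single_eq_of_ne (by decide)] at this
      simp only [mul_zero, add_zero, mul_one, add_left_inj] at this
      exact hinj this
    have hb : ∀ i, b i = b' i := by
      intro i
      have := h2 (Pi.single 1 1) i
      rw [hc i, Pi.single_eq_same, Pi.single_eq_of_ne (by decide)] at this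
      simp only [mul_zero, zero_add, mul_one, add_left_inj] at this
      exact hinj this
    have he : ∀ i, ((φ⁻¹ : A F) : Au F) (X i) = ((ψ⁻¹ : A F) : Au F) (X i) := by
      intro i
      rw [hφ, hψ, ha, hb, hc]
    have h3 : φ⁻¹ = ψ⁻¹ := Subtype.ext (au_ext (he 0) (he 1))
    exact inv_injective h3

end Pool.Agent.H54.PA
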