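import Mathlib
import Pool.Agent.H54.PA.Defs

/-!
# The affine group as a subgroup

* `aff_sub`: an affine automorphism `T` of `K ^ 2`, `T v = M v + t`, gives the algebra endomorphism `ρ T : X i ↦ C (M i 0) * X 0 + C (M i 1) * X 1 + C (t i)`; `ρ (T * S) = ρ S ∘ ρ T`,
  `ρ 1 = id`. So `T ↦ ρ (T⁻¹)` is an injective homomorphism to the group of the automorphisms. (`K` may be finite, so do not argue with values of
  polynomials; compare coefficients. Convenient: a homomorphism to the monoid of the algebra endomorphisms lifts to the units, `MonoidHom.toHomUnits`, and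
  `AlgEquiv.algHomUnitsEquiv`.)
-/

set_option autoImplicit false

namespace Pool.Agent.H54.PA

open MvPolynomial

private noncomputable def af {K : Type} [Field K] (T : (Fin 2 → K) →ᵃ[K] (Fin 2 → K)) (i : Fin 2) : P K :=
  C (T.linear (Pi.single 0 1) i) * X 0 + C (T.linear (Pi.single 1 1) i) * X 1 + C (T 0 i)

private noncomputable def rho {K : Type} [Field K] (T : (Fin 2 → K) →ᵃ[K] (Fin 2 → K)) : P K →ₐ[K] P K :=
  aeval (af T)

private theorem app_two {K : Type} [Field K] (L : (Fin 2 → K) →ₗ[K] (Fin 2 → K)) (w : Fin 2 → K) (i : Fin 2) :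
    L w i = L (Pi.single 0 1) i * w 0 + L (Pi.single 1 1) i * w 1 := by
  have h1 : w = w 0 • Pi.single 0 (1 : K) + w 1 • Pi.single 1 (1 : K) := by
    ext j
    fin_cases j <;> simp
  conv_lhs => rw [h1]
  rw [map_add, map_smul, map_smul, Pi.add_apply, Pi.smul_apply, Pi.smul_apply, smul_eq_mul, smul_eq_mul]
  ring

private theorem aff_two {K : Type} [Field K] (T : (Fin 2 → K) →ᵃ[K] (Fin 2 → K)) (w : Fin 2 → K) (i : Fin 2) :
    T w i = T.linear (Pi.single 0 1) i * w 0 + T.linear (Pi.single 1 1) i * w 1 + T 0 i := by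
  have h1 : T w = T.linear w + T 0 := by
    have h2 := T.map_vadd 0 w
    rw [vadd_eq_add, add_zero, vadd_eq_add] at h2
    exact h2
  rw [h1, Pi.add_apply, app_two]

private theorem rho_af {K : Type} [Field K] (T S : (Fin 2 → K) →ᵃ[K] (Fin 2 → K)) (i : Fin 2) :
    rho S (af T i) = af (T.comp S) i := by
  have e0 : (T.comp S).linear (Pi.single 0 1) i =
      T.linear (Pi.single 0 1) i * S.linear (Pi.single 0 1) 0 + T.linear (Pi.single 1 1) i * S.linear (Pi.single 0 1) 1 :=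
    app_two T.linear (S.linear (Pi.single 0 1)) i
  have e1 : (T.comp S).linear (Pi.single 1 1) i =
      T.linear (Pi.single 0 1) i * S.linear (Pi.single 1 1) 0 + T.linear (Pi.single 1 1) i * S.linear (Pi.single 1 1) 1 :=
    app_two T.linear (S.linear (Pi.single 1 1)) i
  have e2 : (T.comp S) 0 i = T.linear (Pi.single 0 1) i * S 0 0 + T.linear (Pi.single 1 1) i * S 0 1 + T 0 i :=
    aff_two T (S 0) i
  have e3 : rho S (af T i) =
      C (T.linear (Pi.single 0 1) i) * af S 0 + C (T.linear (Pi.single 1 1) i) * af S 1 + C (T 0 i) := by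
    unfold rho
    rw [show af T i = C (T.linear (Pi.single 0 1) i) * X 0 + C (T.linear (Pi.single 1 1) i) * X 1 + C (T 0 i) from rfl]
    simp only [map_add, map_mul, aeval_X, algHom_C, algebraMap_eq]
  rw [e3]
  unfold af
  rw [e0, e1, e2]
  simp only [map_add, map_mul]
  ring

private theorem rho_comp {K : Type} [Field K] (T S : (Fin 2 → K) →ᵃ[K] (Fin 2 → K)) :
    (rho S).comp (rho T) = rho (T.comp S) := by
  refine MvPolynomial.algHom_ext fun i => ?_
  rw [AlgHom.comp_apply]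
  have h1 : rho T (X i) = af T i := aeval_X _ _
  have h2 : rho (T.comp S) (X i) = af (T.comp S) i := aeval_X _ _
  rw [h1, h2, rho_af]

private theorem rho_id {K : Type} [Field K] : rho (AffineMap.id K (Fin 2 → K)) = AlgHom.id K (P K) := by
  refine MvPolynomial.algHom_ext fun i => ?_
  have h1 : rho (AffineMap.id K (Fin 2 → K)) (X i) = af (AffineMap.id K (Fin 2 → K)) i := aeval_X _ _
  rw [h1, AlgHom.id_apply]
  unfold af
  fin_cases i <;> simp

private theorem af_inj {K : Type} [Field K] {T S : (Fin 2 → K) →ᵃ[K] (Fin 2 → K)} (h : ∀ i, af T i = af S i) : T = S := by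
  have hc : ∀ i, T.linear (Pi.single 0 1) i = S.linear (Pi.single 0 1) i ∧
      T.linear (Pi.single 1 1) i = S.linear (Pi.single 1 1) i ∧ T 0 i = S 0 i := by
    intro i
    have h0 := congrArg (coeff (Finsupp.single 0 1)) (h i)
    have h1 := congrArg (coeff (Finsupp.single 1 1)) (h i)
    have h2 := congrArg (coeff 0) (h i)
    unfold af at h0 h1 h2
    have s0 : (Finsupp.single (1 : Fin 2) 1 : Fin 2 →₀ ℕ) ≠ Finsupp.single 0 1 := by
      intro hh
      have := DFunLike.congr_fun hh 0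
      simp at this
    have s2 : (0 : Fin 2 →₀ ℕ) ≠ Finsupp.single 0 1 := by
      intro hh
      have := DFunLike.congr_fun hh 0
      simp at this
    have s3 : (0 : Fin 2 →₀ ℕ) ≠ Finsupp.single 1 1 := by
      intro hh
      have := DFunLike.congr_fun hh 1
      simp at this
    simp only [coeff_add, coeff_C_mul, coeff_X', coeff_C, s0, s0.symm, s2, s2.symm, s3, s3.symm, if_true, if_false, mul_one,
      mul_zero, add_zero, zero_add] at h0 h1 h2
    exact ⟨h0, h1, h2⟩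
  refine AffineMap.ext fun w => funext fun i => ?_
  rw [aff_two T w i, aff_two S w i, (hc i).1, (hc i).2.1, (hc i).2.2]

theorem aff_sub (K : Type) [Field K] :
    ∃ Ψ : ((Fin 2 → K) ≃ᵃ[K] (Fin 2 → K)) →* Au K, Function.Injective Ψ := by
  have hc : ∀ T : (Fin 2 → K) ≃ᵃ[K] (Fin 2 → K), (rho ((T⁻¹ : (Fin 2 → K) ≃ᵃ[K] (Fin 2 → K)) : (Fin 2 → K) →ᵃ[K] (Fin 2 → K))).comp
      (rho (T : (Fin 2 → K) →ᵃ[K] (Fin 2 → K))) = AlgHom.id K (P K) := by
    intro T
    rw [rho_comp]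
    have h1 : (T : (Fin 2 → K) →ᵃ[K] (Fin 2 → K)).comp
        ((T⁻¹ : (Fin 2 → K) ≃ᵃ[K] (Fin 2 → K)) : (Fin 2 → K) →ᵃ[K] (Fin 2 → K)) = AffineMap.id K (Fin 2 → K) := by
      refine AffineMap.ext fun w => ?_
      exact T.apply_symm_apply w
    rw [h1, rho_id]
  have hc' : ∀ T : (Fin 2 → K) ≃ᵃ[K] (Fin 2 → K), (rho (T : (Fin 2 → K) →ᵃ[K] (Fin 2 → K))).comp
      (rho ((T⁻¹ : (Fin 2 → K) ≃ᵃ[K] (Fin 2 → K)) : (Fin 2 → K) →ᵃ[K] (Fin 2 → K))) = AlgHom.id K (P K) := by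
    intro T
    have := hc T⁻¹
    rw [inv_inv] at this
    exact this
  refine ⟨MonoidHom.mk' (fun T => AlgEquiv.ofAlgHom
      (rho ((T⁻¹ : (Fin 2 → K) ≃ᵃ[K] (Fin 2 → K)) : (Fin 2 → K) →ᵃ[K] (Fin 2 → K)))
      (rho (T : (Fin 2 → K) →ᵃ[K] (Fin 2 → K))) (hc T) (hc' T)) ?_, ?_⟩
  · intro T S
    refine AlgEquiv.ext fun p => ?_
    have h1 : rho (((T * S)⁻¹ : (Fin 2 → K) ≃ᵃ[K] (Fin 2 → K)) : (Fin 2 → K) →ᵃ[K] (Fin 2 → K)) =
        (rho ((T⁻¹ : (Fin 2 → K) ≃ᵃ[K] (Fin 2 → K)) : (Fin 2 → K) →ᵃ[K] (Fin 2 → K))).comp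
          (rho ((S⁻¹ : (Fin 2 → K) ≃ᵃ[K] (Fin 2 → K)) : (Fin 2 → K) →ᵃ[K] (Fin 2 → K))) := by
      rw [rho_comp, mul_inv_rev]
      rfl
    exact DFunLike.congr_fun h1 p
  · intro T S hTS
    have h1 : ∀ i, af ((T⁻¹ : (Fin 2 → K) ≃ᵃ[K] (Fin 2 → K)) : (Fin 2 → K) →ᵃ[K] (Fin 2 → K)) i =
        af ((S⁻¹ : (Fin 2 → K) ≃ᵃ[K] (Fin 2 → K)) : (Fin 2 → K) →ᵃ[K] (Fin 2 → K)) i := by
      intro i
      have h2 := DFunLike.congr_fun hTS (X i)
      have h3 : rho ((T⁻¹ : (Fin 2 → K) ≃ᵃ[K] (Fin 2 → K)) : (Fin 2 → K) →ᵃ[K] (Fin 2 → K)) (X i) =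
          rho ((S⁻¹ : (Fin 2 → K) ≃ᵃ[K] (Fin 2 → K)) : (Fin 2 → K) →ᵃ[K] (Fin 2 → K)) (X i) := h2
      have h4 : ∀ R : (Fin 2 → K) →ᵃ[K] (Fin 2 → K), rho R (X i) = af R i := fun R => aeval_X _ _
      rwa [h4, h4] at h3
    have h5 := af_inj h1
    have h6 : T⁻¹ = S⁻¹ := AffineEquiv.toAffineMap_injective h5
    exact inv_injective h6

end Pool.Agent.H54.PA
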