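import Mathlib
import Pool.Agent.H54.PA.Act

/-!
# The middle of a long path

`cj G c` = `c G c⁻¹`. A segment is a path `w0 v0 w1 v1 w2 v2 w3` of seven vertices,
`w0 = a e' a'' E`, `v0 = a e' A`, `w1 = a E`, `v1 = A`, `w2 = E`, `v2 = e A`, `w3 = e a' E`,
with `a, a', a'' ∈ A \ E`, `e, e' ∈ E \ A`. `Fs s` is its pointwise stabiliser.
-/

set_option autoImplicit false

namespace Pool.Agent.H54.PA

open MvPolynomial

variable {K : Type} [Field K]

/-- the conjugate subgroup `c G c⁻¹` -/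
noncomputable def cj (G : Subgroup (Au K)) (c : Au K) : Subgroup (Au K) where
  carrier := {u | c⁻¹ * u * c ∈ G}
  mul_mem' := by
    intro u v hu hv
    have h : c⁻¹ * (u * v) * c = (c⁻¹ * u * c) * (c⁻¹ * v * c) := by group
    show c⁻¹ * (u * v) * c ∈ G
    rw [h]
    exact G.mul_mem hu hv
  one_mem' := by
    show c⁻¹ * 1 * c ∈ G
    rw [mul_one, inv_mul_cancel]
    exact G.one_mem
  inv_mem' := by
    intro u hu
    have h : c⁻¹ * u⁻¹ * c = (c⁻¹ * u * c)⁻¹ := by group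
    show c⁻¹ * u⁻¹ * c ∈ G
    rw [h]
    exact G.inv_mem hu

theorem mem_cj {G : Subgroup (Au K)} {c u : Au K} : u ∈ cj G c ↔ c⁻¹ * u * c ∈ G := Iff.rfl

variable (K)

/-- the data of a segment -/
structure Sg where
  /-- element of `A`, not of `E` -/
  a : Au K
  /-- element of `A`, not of `E` -/
  a' : Au K
  /-- element of `A`, not of `E` -/
  a'' : Au K
  /-- element of `E`, not of `A` -/
  e : Au K
  /-- element of `E`, not of `A` -/
  e' : Au K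
  ha : a ∈ A K
  hna : a ∉ E K
  ha' : a' ∈ A K
  hna' : a' ∉ E K
  ha'' : a'' ∈ A K
  hna'' : a'' ∉ E K
  he : e ∈ E K
  hne : e ∉ A K
  he' : e' ∈ E K
  hne' : e' ∉ A K

variable {K}

/-- the pointwise stabiliser of the segment -/
noncomputable def Fs (s : Sg K) : Subgroup (Au K) :=
  A K ⊓ E K ⊓ cj (E K) s.a ⊓ cj (A K) s.e ⊓ cj (E K) (s.e * s.a') ⊓ cj (A K) (s.a * s.e') ⊓
    cj (E K) (s.a * s.e' * s.a'')

theorem mem_Fs {s : Sg K} {u : Au K} : u ∈ Fs s ↔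
    u ∈ A K ∧ u ∈ E K ∧ s.a⁻¹ * u * s.a ∈ E K ∧ s.e⁻¹ * u * s.e ∈ A K ∧
      (s.e * s.a')⁻¹ * u * (s.e * s.a') ∈ E K ∧ (s.a * s.e')⁻¹ * u * (s.a * s.e') ∈ A K ∧
      (s.a * s.e' * s.a'')⁻¹ * u * (s.a * s.e' * s.a'') ∈ E K := by
  simp only [Fs, Subgroup.mem_inf, mem_cj]
  tauto

end Pool.Agent.H54.PA
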