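import Mathlib
import Pool.Agent.H54.PA.Act
import Pool.Agent.H54.PA.Sg

/-!
# Coefficients in a subring

`K` is a field and an algebra over a commutative ring `R`. `PR R K`: the polynomials with coefficients in the image of `R`; `GR R K`: the automorphisms `φ` of `K[x, y]` with
`p ∈ PR ↔ φ p ∈ PR`; `AR R K = A K ⊓ GR R K`: the affine automorphisms over `R`.

* `mem_PR`: `MvPolynomial.mem_range_map_iff_coeffs_subset` (compare `mem_RF_of_coeff` in `Un.lean`).
* `mem_GR`: it is enough that `φ (X i)` and `φ⁻¹ (X i)` are in `PR`: `φ (map G) = aeval (φ (X i)) G`, `PR` is a subring which contains the constants of `R`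
  (`MvPolynomial.induction_on` on `G`; the same proof as `mem_GF` in `Un1.lean`).
* `mem_AR`: for `φ ∈ A K` the same with the coefficients.
-/

set_option autoImplicit false

namespace Pool.Agent.H54.PA

open MvPolynomial

/-- the polynomials with coefficients in the image of `R` -/
noncomputable def PR (R K : Type) [CommRing R] [Field K] [Algebra R K] : Subring (P K) :=
  (MvPolynomial.map (σ := Fin 2) (algebraMap R K)).range

/-- the automorphisms over `R` -/
noncomputable def GR (R K : Type) [CommRing R] [Field K] [Algebra R K] : Subgroup (Au K) where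
  carrier := {φ | ∀ p, p ∈ PR R K ↔ φ p ∈ PR R K}
  mul_mem' := by
    intro φ ψ hφ hψ p
    exact (hψ p).trans (hφ (ψ p))
  one_mem' := fun p => Iff.rfl
  inv_mem' := by
    intro φ hφ p
    have h := hφ (φ⁻¹ p)
    have h2 : φ (φ⁻¹ p) = p := φ.apply_symm_apply p
    rw [h2] at h
    exact h.symm

/-- the affine automorphisms over `R` -/
noncomputable def AR (R K : Type) [CommRing R] [Field K] [Algebra R K] : Subgroup (Au K) := A K ⊓ GR R K

section

variable {R K : Type} [CommRing R] [Field K] [Algebra R K]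

theorem mem_PR {p : P K} : p ∈ PR R K ↔ ∀ e, coeff e p ∈ (algebraMap R K).range := by
  have h0 : p ∈ PR R K ↔ p ∈ Set.range (MvPolynomial.map (σ := Fin 2) (algebraMap R K)) := Iff.rfl
  rw [h0, MvPolynomial.mem_range_map_iff_coeffs_subset]
  constructor
  · intro h e
    by_cases he : coeff e p = 0
    · rw [he]
      exact zero_mem _
    · exact h (MvPolynomial.mem_coeffs_iff.2 ⟨e, mem_support_iff.2 he, rfl⟩)
  · intro h c hc
    obtain ⟨e, he, rfl⟩ := MvPolynomial.mem_coeffs_iff.1 hc
    exact h e

theorem C_mem_PR (c : R) : (C (algebraMap R K c) : P K) ∈ PR R K := ⟨C c, MvPolynomial.map_C _ _⟩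

theorem X_mem_PR (R : Type) {K : Type} [CommRing R] [Field K] [Algebra R K] (i : Fin 2) :
    (X i : P K) ∈ PR R K := ⟨X i, MvPolynomial.map_X _ _⟩

/-- an endomorphism which sends the variables to `PR` preserves `PR` -/
theorem hom_mem_PR {φ : P K →ₐ[K] P K} (h : ∀ i, φ (X i) ∈ PR R K) (q : MvPolynomial (Fin 2) R) :
    φ (MvPolynomial.map (algebraMap R K) q) ∈ PR R K := by
  induction q using MvPolynomial.induction_on with
  | C a =>
    rw [MvPolynomial.map_C, show (C ((algebraMap R K) a) : P K) = algebraMap K (P K) ((algebraMap R K) a) from rfl,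
      AlgHom.commutes]
    exact C_mem_PR a
  | add p q hp hq =>
    rw [map_add, map_add]
    exact (PR R K).add_mem hp hq
  | mul_X p i hp =>
    rw [map_mul, map_mul, MvPolynomial.map_X]
    exact (PR R K).mul_mem hp (h i)

theorem aut_mem_PR {φ : Au K} (h : ∀ i, φ (X i) ∈ PR R K) {p : P K} (hp : p ∈ PR R K) : φ p ∈ PR R K := by
  obtain ⟨q, rfl⟩ := hp
  exact hom_mem_PR (φ := (φ : P K →ₐ[K] P K)) h q

theorem mem_GR {φ : Au K} (h : ∀ i, φ (X i) ∈ PR R K) (h' : ∀ i, φ⁻¹ (X i) ∈ PR R K) : φ ∈ GR R K := by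
  intro p
  refine ⟨fun hp => aut_mem_PR h hp, fun hp => ?_⟩
  have h2 := aut_mem_PR h' hp
  have h3 : φ⁻¹ (φ p) = p := φ.symm_apply_apply p
  rwa [h3] at h2

end

end Pool.Agent.H54.PA
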