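import Mathlib
import Pool.Agent.H54.PA.Rg
import Pool.Agent.H54.PA.El1

/-!
# Base change of automorphisms

`R` a commutative ring, `L` a field and an `R`-algebra, `m = MvPolynomial.map (algebraMap R L)`.

* `exists_bc`: for an automorphism `ψ` of `R[x, y]` let `β ψ` be the automorphism of `L[x, y]` with `X i ↦ m (ψ (X i))` and the inverse `X i ↦ m (ψ⁻¹ (X i))`
  (`AlgEquiv.ofAlgHom (aeval ..) (aeval ..)`). `m (ψ p) = β ψ (m p)`: both sides are ring homomorphisms in `p` which agree on constants and on the variables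
  (`MvPolynomial.ringHom_ext`). Multiplicative: compare on the variables.
* `bc_inj`: if `algebraMap R L` is injective then `m` is injective (`MvPolynomial.map_injective`), so `β` is injective; `β ψ ∈ GR R L` by `mem_GR`.
* `bc_A`: for a field `F` in place of `R`: `ψ ∈ A F` implies `β ψ ∈ A L` (the degrees do not increase under `m`: `mem_A`, `mem_L1'`, `MvPolynomial.totalDegree_map_le`).
* `bc_res`: if `φ ∈ GF F` restricts to `ψ` (`m (ψ p) = φ (m p)` for all `p`) then `β ψ = φ` (they agree on the variables: `m (X i) = X i`).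
-/

set_option autoImplicit false

namespace Pool.Agent.H54.PA

open MvPolynomial

section

variable {R L : Type} [CommRing R] [Field L] [Algebra R L]

/-- the endomorphism of `L[x, y]` given by an endomorphism of `R[x, y]` -/
noncomputable def bch (ψ : MvPolynomial (Fin 2) R →ₐ[R] MvPolynomial (Fin 2) R) : P L →ₐ[L] P L :=
  aeval fun i => MvPolynomial.map (algebraMap R L) (ψ (X i))

theorem bch_X (ψ : MvPolynomial (Fin 2) R →ₐ[R] MvPolynomial (Fin 2) R) (i : Fin 2) :
    bch (L := L) ψ (X i) = MvPolynomial.map (algebraMap R L) (ψ (X i)) := aeval_X _ _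

theorem bch_map (ψ : MvPolynomial (Fin 2) R →ₐ[R] MvPolynomial (Fin 2) R) (p : MvPolynomial (Fin 2) R) :
    bch (L := L) ψ (MvPolynomial.map (algebraMap R L) p) = MvPolynomial.map (algebraMap R L) (ψ p) := by
  induction p using MvPolynomial.induction_on with
  | C a =>
    have h1 : ψ (C a) = C a := ψ.commutes a
    rw [h1, MvPolynomial.map_C]
    exact (bch (L := L) ψ).commutes _
  | add p q hp hq =>
    rw [map_add, map_add, hp, hq, map_add, map_add]
  | mul_X p i hp =>
    rw [map_mul, map_mul, hp, MvPolynomial.map_X, bch_X, map_mul, map_mul]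

theorem bch_comp (ψ ψ' : MvPolynomial (Fin 2) R →ₐ[R] MvPolynomial (Fin 2) R) :
    bch (L := L) (ψ.comp ψ') = (bch ψ).comp (bch ψ') := by
  apply MvPolynomial.algHom_ext
  intro i
  rw [AlgHom.comp_apply, bch_X, bch_X, bch_map]
  rfl

theorem bch_id : bch (L := L) (AlgHom.id R (MvPolynomial (Fin 2) R)) = AlgHom.id L (P L) := by
  apply MvPolynomial.algHom_ext
  intro i
  rw [bch_X]
  exact MvPolynomial.map_X _ _

/-- base change of an automorphism -/
noncomputable def bca (ψ : MvPolynomial (Fin 2) R ≃ₐ[R] MvPolynomial (Fin 2) R) : Au L :=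
  AlgEquiv.ofAlgHom (bch (ψ : MvPolynomial (Fin 2) R →ₐ[R] MvPolynomial (Fin 2) R))
    (bch (ψ.symm : MvPolynomial (Fin 2) R →ₐ[R] MvPolynomial (Fin 2) R))
    (by rw [← bch_comp, AlgEquiv.comp_symm, bch_id])
    (by rw [← bch_comp, AlgEquiv.symm_comp, bch_id])

theorem bca_map (ψ : MvPolynomial (Fin 2) R ≃ₐ[R] MvPolynomial (Fin 2) R) (p : MvPolynomial (Fin 2) R) :
    MvPolynomial.map (algebraMap R L) (ψ p) = bca (L := L) ψ (MvPolynomial.map (algebraMap R L) p) :=
  (bch_map (L := L) (ψ : MvPolynomial (Fin 2) R →ₐ[R] MvPolynomial (Fin 2) R) p).symm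

theorem au_ext' {φ φ' : Au L} (h : ∀ i, φ (X i) = φ' (X i)) : φ = φ' := by
  have h4 : (φ : P L →ₐ[L] P L) = (φ' : P L →ₐ[L] P L) := MvPolynomial.algHom_ext h
  apply AlgEquiv.ext
  intro p
  exact DFunLike.congr_fun h4 p

theorem bca_X (ψ : MvPolynomial (Fin 2) R ≃ₐ[R] MvPolynomial (Fin 2) R) (i : Fin 2) :
    bca (L := L) ψ (X i) = MvPolynomial.map (algebraMap R L) (ψ (X i)) := by
  rw [bca_map, MvPolynomial.map_X]

/-- base change as a homomorphism -/
noncomputable def bcm (R L : Type) [CommRing R] [Field L] [Algebra R L] :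
    (MvPolynomial (Fin 2) R ≃ₐ[R] MvPolynomial (Fin 2) R) →* Au L where
  toFun := bca
  map_one' := au_ext' fun i => by
    rw [bca_X]
    exact MvPolynomial.map_X _ _
  map_mul' := fun ψ ψ' => au_ext' fun i => by
    rw [bca_X]
    show MvPolynomial.map (algebraMap R L) (ψ (ψ' (X i))) = bca ψ (bca ψ' (X i))
    rw [bca_map, bca_X]

end

theorem exists_bc (R L : Type) [CommRing R] [Field L] [Algebra R L] :
    ∃ β : (MvPolynomial (Fin 2) R ≃ₐ[R] MvPolynomial (Fin 2) R) →* Au L,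
      ∀ (ψ : MvPolynomial (Fin 2) R ≃ₐ[R] MvPolynomial (Fin 2) R) (p : MvPolynomial (Fin 2) R),
        MvPolynomial.map (algebraMap R L) (ψ p) = β ψ (MvPolynomial.map (algebraMap R L) p) :=
  ⟨bcm R L, fun ψ p => bca_map ψ p⟩

theorem bc_inj (R L : Type) [CommRing R] [Field L] [Algebra R L] (h : Function.Injective (algebraMap R L)) :
    ∃ β : (MvPolynomial (Fin 2) R ≃ₐ[R] MvPolynomial (Fin 2) R) →* GR R L, Function.Injective β := by
  have hm : ∀ ψ : MvPolynomial (Fin 2) R ≃ₐ[R] MvPolynomial (Fin 2) R, bcm R L ψ ∈ GR R L := by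
    intro ψ
    refine mem_GR (fun i => ⟨ψ (X i), (bca_X ψ i).symm⟩) (fun i => ⟨ψ⁻¹ (X i), ?_⟩)
    rw [← map_inv]
    exact (bca_X ψ⁻¹ i).symm
  refine ⟨(bcm R L).codRestrict (GR R L) hm, ?_⟩
  intro ψ ψ' hψ
  have h1 : bcm R L ψ = bcm R L ψ' := congrArg Subtype.val hψ
  have h2 : ∀ i, ψ (X i) = ψ' (X i) := by
    intro i
    apply MvPolynomial.map_injective (algebraMap R L) h
    rw [← bca_X (L := L), ← bca_X (L := L)]
    exact congrArg (fun φ : Au L => φ (X i)) h1
  have h4 : (ψ : MvPolynomial (Fin 2) R →ₐ[R] MvPolynomial (Fin 2) R) =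
      (ψ' : MvPolynomial (Fin 2) R →ₐ[R] MvPolynomial (Fin 2) R) := MvPolynomial.algHom_ext h2
  apply AlgEquiv.ext
  intro p
  exact DFunLike.congr_fun h4 p

theorem bc_A {F L : Type} [Field F] [Field L] [Algebra F L] {ψ : Au F} {φ : Au L}
    (h : ∀ p, MvPolynomial.map (algebraMap F L) (ψ p) = φ (MvPolynomial.map (algebraMap F L) p)) (hψ : ψ ∈ A F) :
    φ ∈ A L := by
  have key : ∀ i, ψ (X i) ∈ L1 F → φ (X i) ∈ L1 L := by
    intro i hi
    have h1 := h (X i)
    rw [MvPolynomial.map_X] at h1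
    rw [← h1]
    obtain ⟨a, b, c, h2⟩ := mem_L1.1 hi
    refine mem_L1.2 ⟨algebraMap F L a, algebraMap F L b, algebraMap F L c, ?_⟩
    rw [h2]
    simp
  exact mem_A.2 ⟨key 0 (mem_A.1 hψ).1, key 1 (mem_A.1 hψ).2⟩

theorem bc_eq {F L : Type} [Field F] [Field L] [Algebra F L] {ψ : Au F} {φ φ' : Au L}
    (h : ∀ p, MvPolynomial.map (algebraMap F L) (ψ p) = φ (MvPolynomial.map (algebraMap F L) p))
    (h' : ∀ p, MvPolynomial.map (algebraMap F L) (ψ p) = φ' (MvPolynomial.map (algebraMap F L) p)) : φ = φ' := by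
  refine au_ext' fun i => ?_
  have h1 := h (X i)
  have h2 := h' (X i)
  rw [MvPolynomial.map_X] at h1 h2
  rw [← h1, ← h2]

end Pool.Agent.H54.PA
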