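import Mathlib
import Pool.Agent.H13.PA.Br2
import Pool.Agent.H54.PA.Ele
import Pool.Agent.H54.PA.Sg

/-!
# Coordinates of elements of `A` and `E`

All elements are written in coordinates; `(φ * ψ) G = φ (ψ G)`, so `(e⁻¹ * u * e) (X i) = e⁻¹ (u (e (X i)))`, and `e⁻¹ (e p) = p`.

* `A_coef`: `mem_A`, `mem_L1`, `mem_E`: `κ ≠ 0` as otherwise `a ∈ E` (`ν ≠ 0` by injectivity).
* `E_coef`: `mem_E`, `E_X0`; `natDegree q ≥ 2` as otherwise `e (X 0) ∈ L1`, `e ∈ A`.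
* `AE_coef`: both. (`α ≠ 0`, `β ≠ 0` by injectivity.)
* `lin_poly`: apply `pderiv 0` for `x = y`, `aeval_X1_inj` for the rest.
* `eig`: `a (X 1) = C κ * X 0 + C ν * X 1 + C ρ`, `κ ≠ 0`; `u' = a⁻¹ * u * a ∈ A ⊓ E`, so `u' (X 1) = C β' * X 1 + C γ'`, and applying `a`:
  `u (a (X 1)) = C β' * a (X 1) + C γ'`; the coefficient of `X 0` is `κ α = β' κ`: `β' = α`. For `u' (X 0) = C α' * X 0 + ..`: `a⁻¹ ∈ A \ E`, `u = a u' a⁻¹`; the same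
  argument with `a⁻¹` and `u'` gives `β = α'`.
* `unip`: `u (X 0) = X 0 + C l * X 1 + C m`, `u (X 1) = X 1 + C γ`, `a⁻¹ u a ∈ E`: `u (a (X 1)) = C β' * a (X 1) + C γ'` with `β' = 1` (`eig`), so the coefficient of `X 1`:
  `κ l + ν = ν`: `l = 0`.
-/

set_option autoImplicit false

namespace Pool.Agent.H54.PA

open MvPolynomial

variable {K : Type} [Field K]

theorem A_coef {a : Au K} (ha : a ∈ A K) (ha' : a ∉ E K) :
    ∃ κ ν ρ : K, κ ≠ 0 ∧ a (X 1) = C κ * X 0 + C ν * X 1 + C ρ := by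
  exact H13.PA.A_line (H13.PA.mem_A.1 ha) (fun h => ha' (H13.PA.mem_E.2 h))

theorem E_coef [CharZero K] {e : Au K} (he : e ∈ E K) (he' : e ∉ A K) :
    ∃ (r t τ : K) (q : Polynomial K), r ≠ 0 ∧ t ≠ 0 ∧ 2 ≤ q.natDegree ∧
      e (X 0) = C r * X 0 + Polynomial.aeval (X 1 : P K) q ∧ e (X 1) = C t * X 1 + C τ := by
  obtain ⟨r, t, s, P, hr, ht, h0, h1⟩ := H13.PA.el_form (H13.PA.mem_E.1 he)
  exact ⟨r, t, s, P, hr, ht, H13.PA.el_deg (fun h => he' (H13.PA.mem_A.2 h)) h0 h1, h0, h1⟩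

theorem AE_coef {u : Au K} (h : u ∈ A K) (h' : u ∈ E K) :
    ∃ α β l m γ : K, α ≠ 0 ∧ β ≠ 0 ∧ u (X 0) = C α * X 0 + C l * X 1 + C m ∧ u (X 1) = C β * X 1 + C γ := by
  have h0 := H13.PA.form_A (H13.PA.mem_A.1 h)
  have h1 := (H13.PA.form_E (H13.PA.mem_E.1 h')).1
  have h2 := H13.PA.al_be_ne h0 h1
  exact ⟨_, _, _, _, _, h2.1, h2.2, h0, h1⟩

/-- comparison of coefficients -/
theorem lin_poly {x y : K} {q r : Polynomial K}
    (h : (C x * X 0 + Polynomial.aeval (X 1 : P K) q : P K) = C y * X 0 + Polynomial.aeval (X 1 : P K) r) :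
    x = y ∧ q = r := by
  exact H13.PA.lin_poly h

theorem eig {a : Au K} (ha : a ∈ A K) (ha' : a ∉ E K) {u : Au K} {α β l m γ : K}
    (h0 : u (X 0) = C α * X 0 + C l * X 1 + C m) (h1 : u (X 1) = C β * X 1 + C γ) (h : a⁻¹ * u * a ∈ E K) :
    ∃ l' m' γ' : K, (a⁻¹ * u * a) (X 0) = C β * X 0 + C l' * X 1 + C m' ∧ (a⁻¹ * u * a) (X 1) = C α * X 1 + C γ' := by
  exact H13.PA.eig (H13.PA.mem_A.1 ha) (fun h => ha' (H13.PA.mem_E.2 h)) h0 h1 (H13.PA.mem_E.1 h)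

theorem unip {a : Au K} (ha : a ∈ A K) (ha' : a ∉ E K) {u : Au K} {l m γ : K}
    (h0 : u (X 0) = X 0 + C l * X 1 + C m) (h1 : u (X 1) = X 1 + C γ) (h : a⁻¹ * u * a ∈ E K) : l = 0 := by
  exact H13.PA.unip (H13.PA.mem_A.1 ha) (fun h => ha' (H13.PA.mem_E.2 h)) h0 h1 (H13.PA.mem_E.1 h)

end Pool.Agent.H54.PA
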