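import Mathlib
import Pool.Agent.H54.PA.Le1

/-!
# The power relation

All elements are written in coordinates; `(φ * ψ) G = φ (ψ G)`, so `(e⁻¹ * u * e) (X i) = e⁻¹ (u (e (X i)))`, and `e⁻¹ (e p) = p`.

* `conj_coef`: the polynomial identity. `e⁻¹ u e ∈ A` gives `x y z` with `(e⁻¹ * u * e) (X 0) = C x * X 0 + C y * X 1 + C z` (`mem_A`, `mem_L1`); apply `e`:
  `u (e (X 0)) = C x * e (X 0) + C y * e (X 1) + C z`, that is
  `C r * (C α * X 0 + C l * X 1 + C m) + q (C β * X 1 + C γ) = C x * (C r * X 0 + q (X 1)) + C y * (C t * X 1 + C τ) + C z`. `lin_poly` (`Le1`): `r α = x r`, so `x = α`, and the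
  identity of polynomials in one variable.
* `pow_rel`: `e` as in `E_coef`, `n = natDegree q ≥ 2`. Compare the coefficients of `X ^ n` in `conj_coef`: `lead q * β ^ n = α * lead q` (`Polynomial.natDegree_comp`,
  `leadingCoeff_comp`, or `coeff_comp_degree_mul_degree`; `β ≠ 0` may be assumed: if `β = 0` then `u (X 1)` is a constant, impossible by injectivity).
-/

set_option autoImplicit false

namespace Pool.Agent.H54.PA

open MvPolynomial

variable {K : Type} [Field K]

theorem conj_coef [CharZero K] {e u : Au K} {r t τ α β l m γ : K} {q : Polynomial K} (hr : r ≠ 0)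
    (he0 : e (X 0) = C r * X 0 + Polynomial.aeval (X 1 : P K) q) (he1 : e (X 1) = C t * X 1 + C τ)
    (h0 : u (X 0) = C α * X 0 + C l * X 1 + C m) (h1 : u (X 1) = C β * X 1 + C γ) (h : e⁻¹ * u * e ∈ A K) :
    ∃ y z : K, (e⁻¹ * u * e) (X 0) = C α * X 0 + C y * X 1 + C z ∧
      q.comp (Polynomial.C β * Polynomial.X + Polynomial.C γ) + Polynomial.C (r * l) * Polynomial.X +
        Polynomial.C (r * m) = Polynomial.C α * q + Polynomial.C (y * t) * Polynomial.X + Polynomial.C (y * τ + z) := by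
  exact H13.PA.conj_coef hr he0 he1 h0 h1 (H13.PA.mem_A.1 h)

theorem pow_rel [CharZero K] {e : Au K} (he : e ∈ E K) (he' : e ∉ A K) : ∃ n : ℕ, 2 ≤ n ∧
    ∀ (u : Au K) (α β l m γ : K), u (X 0) = C α * X 0 + C l * X 1 + C m → u (X 1) = C β * X 1 + C γ →
      e⁻¹ * u * e ∈ A K → α = β ^ n := by
  obtain ⟨n, hn, h⟩ := H13.PA.pow_rel (H13.PA.mem_E.1 he) (fun h => he' (H13.PA.mem_A.2 h))
  exact ⟨n, hn, fun u α β l m γ h0 h1 h2 => h u α β l m γ h0 h1 (H13.PA.mem_A.1 h2)⟩

end Pool.Agent.H54.PA
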