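import Mathlib
import Pool.Agent.H54.PA.Le2

/-!
# Translations

* `gam_zero`: `u (X 0) = X 0 + C m`, `u (X 1) = X 1 + C γ`, `u' = e⁻¹ u e ∈ A`, `a'⁻¹ u' a' ∈ E`. The polynomial identity `conj_coef` (`Le2`) with `α = β = 1`, `l = 0`:
  `q.comp (X + C γ) - q = C (y t) * X + const`. Coefficient of `X ^ (n - 1)`: `n * lead q * γ` on the left; if `n ≥ 3` it is zero, `γ = 0` (characteristic
  zero). If `n = 2`: `u' (X 0) = X 0 + C y * X 1 + C z` with `y t = 2 lead q γ`, `u' (X 1) = e⁻¹ (u (C t * X 1 + C τ)) = X 1 + C (t γ)`; `unip` for `u'`, `a'`: `y = 0`, so `γ = 0`.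
  (The coefficient of `X ^ (n-1)` of `q.comp (X + C γ)`: `Polynomial.taylor`, `Polynomial.taylor_coeff` and `hasseDeriv`, or `natDegree` of `q.comp (X + C γ) - q`.)
* `shift_coef`: pure one variable algebra.
-/

set_option autoImplicit false

namespace Pool.Agent.H54.PA

open MvPolynomial

variable {K : Type} [Field K]

theorem shift_coef (q : Polynomial K) (hq : 2 ≤ q.natDegree) (γ : K) :
    (q.comp (Polynomial.X + Polynomial.C γ) - q).coeff (q.natDegree - 1) = q.natDegree * q.leadingCoeff * γ := by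
  exact H13.PA.shift_coef q hq γ

theorem gam_zero [CharZero K] {e a' : Au K} (he : e ∈ E K) (he' : e ∉ A K) (ha : a' ∈ A K) (ha' : a' ∉ E K)
    {u : Au K} {m γ : K} (h0 : u (X 0) = X 0 + C m) (h1 : u (X 1) = X 1 + C γ) (h : e⁻¹ * u * e ∈ A K)
    (h' : (e * a')⁻¹ * u * (e * a') ∈ E K) : γ = 0 := by
  exact H13.PA.gam_zero (H13.PA.mem_E.1 he) (fun h => he' (H13.PA.mem_A.2 h)) (H13.PA.mem_A.1 ha)
    (fun h => ha' (H13.PA.mem_E.2 h)) h0 h1 (H13.PA.mem_A.1 h) (H13.PA.mem_E.1 h')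

end Pool.Agent.H54.PA
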