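import Mathlib

/-!
# Fixed paths

* `fix_path`: an element which fixes the two ends of a shortest path (here: of a path, the graph is a tree) fixes all its vertices
  (uniqueness of paths in a tree: `SimpleGraph.IsTree.existsUnique_path` or `IsAcyclic.path_unique`; apply it to the image of the path). A
  version with `dist`: if `z` is on a shortest path from `x` to `y` then `z` is determined by `dist x z` and `dist z y`. Choose the most
  convenient one; existing tools: `Pool/Agent/H93/TR`, `Pool/Agent/H65/TR`, `Pool/Agent/H76/VC/Path.lean`.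
-/

set_option autoImplicit false

namespace Pool.Agent.H54.PA

theorem fix_path {V G : Type} [Group G] [MulAction G V] (X : SimpleGraph V) (hX : X.IsTree)
    (hadj : ∀ (g : G) (v w : V), X.Adj v w → X.Adj (g • v) (g • w)) {x y : V} (p : X.Walk x y) (hp : p.IsPath)
    {g : G} (hx : g • x = x) (hy : g • y = y) (i : ℕ) : g • p.getVert i = p.getVert i := by
  have key : ∀ {a b : V} (q : X.Walk a b), q.IsPath → a = x → b = y → ∀ i, q.getVert i = p.getVert i := by
    rintro a b q hq rfl rfl i
    have h := (hX.isAcyclic.subsingleton_path a b).elim ⟨q, hq⟩ ⟨p, hp⟩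
    have h1 : q = p := congrArg Subtype.val h
    rw [h1]
  obtain ⟨φ, hφ⟩ : ∃ φ : X →g X, ∀ v, φ v = g • v := ⟨⟨fun v => g • v, fun {v w} h => hadj g v w h⟩, fun v => rfl⟩
  have hinj : Function.Injective φ := fun v w h => by
    rw [hφ, hφ] at h
    exact MulAction.injective g h
  have h1 := key (p.map φ) (SimpleGraph.Walk.IsPath.map hinj hp) (by rw [hφ, hx]) (by rw [hφ, hy]) i
  rw [SimpleGraph.Walk.getVert_map, hφ] at h1
  exact h1

end Pool.Agent.H54.PA
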