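import Mathlib
import Pool.Agent.H54.PA.Sg
import Pool.Agent.H54.PA.Fxp

/-!
# A path of length at least seven contains a segment

* `exists_seg`: let `x = x_0, x_1, ..., x_k = y` be the path, `k ≥ 7`, no two steps backtrack. The types of the vertices alternate; let `w0` be `x_0`
  or `x_1`, the one of type `Au K ⧸ E K`, and `w0 v0 w1 v1 w2 v2 w3` the next six. Adjacent vertices `v1`, `w2` have the form `h A`, `h E`. A neighbour of
  `h A` other than `h E` is `h a E` with `a ∈ A`, `a ∉ E` (`nb_inl`); a neighbour of `h E` other than `h A` is `h e A` with `e ∈ E`, `e ∉ A` (`nb_inr`). So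
  `w1 = h a E`, `v2 = h e A`. Then `v2 = h e A`, `w2 = h e E` and `w3 = h e a' E`; `w1 = h a E`, `v1 = h a A`, `v0 = h a e' A`; `w0 = h a e' a'' E`
  (because `v0 = h a e' A`, `w1 = h a e' E`). An element `g` which fixes the seven vertices: `h⁻¹ * g * h ∈ Fs s` by `fix_inl`, `fix_inr` (`Act`), `mem_Fs`,
  `group`.
-/

set_option autoImplicit false

namespace Pool.Agent.H54.PA

open MvPolynomial

variable {K : Type} [Field K]

theorem nb_inl {h : Au K} {y : Vt K} (hy : (Tr K).Adj (Sum.inl (h : Au K ⧸ A K)) y)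
    (hne : y ≠ Sum.inr (h : Au K ⧸ E K)) :
    ∃ a : Au K, a ∈ A K ∧ a ∉ E K ∧ y = Sum.inr ((h * a : Au K) : Au K ⧸ E K) := by
  obtain ⟨g, ⟨h1, rfl⟩ | ⟨-, h2⟩⟩ := hy
  · rw [Sum.inl.injEq, QuotientGroup.eq] at h1
    refine ⟨h⁻¹ * g, h1, fun h3 => hne ?_, by rw [mul_inv_cancel_left]⟩
    rw [Sum.inr.injEq]
    exact (QuotientGroup.eq.2 h3).symm
  · cases h2

theorem nb_inr {h : Au K} {y : Vt K} (hy : (Tr K).Adj (Sum.inr (h : Au K ⧸ E K)) y)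
    (hne : y ≠ Sum.inl (h : Au K ⧸ A K)) :
    ∃ e : Au K, e ∈ E K ∧ e ∉ A K ∧ y = Sum.inl ((h * e : Au K) : Au K ⧸ A K) := by
  obtain ⟨g, ⟨h1, -⟩ | ⟨rfl, h1⟩⟩ := hy
  · cases h1
  · rw [Sum.inr.injEq, QuotientGroup.eq] at h1
    refine ⟨h⁻¹ * g, h1, fun h3 => hne ?_, by rw [mul_inv_cancel_left]⟩
    rw [Sum.inl.injEq]
    exact (QuotientGroup.eq.2 h3).symm

/-- multiplication by an element of the subgroup does not change the vertex -/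
theorem inl_mul {h a : Au K} (ha : a ∈ A K) :
    (Sum.inl ((h * a : Au K) : Au K ⧸ A K) : Vt K) = Sum.inl (h : Au K ⧸ A K) := by
  rw [Sum.inl.injEq, QuotientGroup.eq, ← Subgroup.inv_mem_iff]
  have h1 : ((h * a)⁻¹ * h)⁻¹ = a := by group
  rw [h1]
  exact ha

theorem inr_mul {h a : Au K} (ha : a ∈ E K) :
    (Sum.inr ((h * a : Au K) : Au K ⧸ E K) : Vt K) = Sum.inr (h : Au K ⧸ E K) := by
  rw [Sum.inr.injEq, QuotientGroup.eq, ← Subgroup.inv_mem_iff]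
  have h1 : ((h * a)⁻¹ * h)⁻¹ = a := by group
  rw [h1]
  exact ha

/-- the types alternate -/
theorem alt_inr {q : Au K ⧸ E K} {y : Vt K} (hy : (Tr K).Adj (Sum.inr q) y) : ∃ q' : Au K ⧸ A K, y = Sum.inl q' := by
  obtain ⟨g, ⟨h1, -⟩ | ⟨rfl, -⟩⟩ := hy
  · cases h1
  · exact ⟨_, rfl⟩

theorem alt_inl {q : Au K ⧸ A K} {y : Vt K} (hy : (Tr K).Adj (Sum.inl q) y) : ∃ q' : Au K ⧸ E K, y = Sum.inr q' := by
  obtain ⟨g, ⟨-, rfl⟩ | ⟨-, h1⟩⟩ := hy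
  · exact ⟨_, rfl⟩
  · cases h1

/-- the segment of seven vertices -/
theorem seg_of {w0 v0 w1 v1 w2 v2 w3 : Vt K} (h0 : ∃ q, w0 = Sum.inr q) (a1 : (Tr K).Adj w0 v0) (a2 : (Tr K).Adj v0 w1)
    (a3 : (Tr K).Adj w1 v1) (a4 : (Tr K).Adj v1 w2) (a5 : (Tr K).Adj w2 v2) (a6 : (Tr K).Adj v2 w3)
    (n1 : w0 ≠ w1) (n2 : v0 ≠ v1) (n3 : w1 ≠ w2) (n4 : v1 ≠ v2) (n5 : w2 ≠ w3) :
    ∃ (s : Sg K) (h : Au K), ∀ g : Au K, g • w0 = w0 → g • v0 = v0 → g • w1 = w1 → g • v1 = v1 → g • w2 = w2 →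
      g • v2 = v2 → g • w3 = w3 → h⁻¹ * g * h ∈ Fs s := by
  obtain ⟨q0, rfl⟩ := h0
  obtain ⟨q1, rfl⟩ := alt_inr a1
  obtain ⟨q2, rfl⟩ := alt_inl a2
  obtain ⟨q3, rfl⟩ := alt_inr a3
  obtain ⟨h, ⟨hv1, rfl⟩ | ⟨-, hh⟩⟩ := a4
  swap
  · cases hh
  rw [hv1] at a3 n2 n4 ⊢
  obtain ⟨a, ha, hna, hw1⟩ := nb_inl a3.symm n3
  obtain ⟨e, he, hne, rfl⟩ := nb_inr a5 (Ne.symm n4)
  obtain ⟨a', ha', hna', rfl⟩ := nb_inl a6 (by
    rw [inr_mul he]
    exact Ne.symm n5)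
  rw [hw1] at a2 n1 ⊢
  obtain ⟨e', he', hne', hv0⟩ := nb_inr a2.symm (by
    rw [inl_mul ha]
    exact n2)
  rw [hv0] at a1 ⊢
  obtain ⟨a'', ha'', hna'', hw0⟩ := nb_inl a1.symm (by
    rw [inr_mul he']
    exact n1)
  rw [hw0]
  refine ⟨⟨a, a', a'', e, e', ha, hna, ha', hna', ha'', hna'', he, hne, he', hne'⟩, h, fun g g0 g1 g2 g3 g4 g5 g6 => ?_⟩
  rw [fix_inr] at g0 g2 g4 g6
  rw [fix_inl] at g1 g3 g5
  rw [mem_Fs]
  refine ⟨g3, g4, ?_, ?_, ?_, ?_, ?_⟩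
  · have h1 : a⁻¹ * (h⁻¹ * g * h) * a = (h * a)⁻¹ * g * (h * a) := by group
    show a⁻¹ * (h⁻¹ * g * h) * a ∈ E K
    rw [h1]
    exact g2
  · have h1 : e⁻¹ * (h⁻¹ * g * h) * e = (h * e)⁻¹ * g * (h * e) := by group
    show e⁻¹ * (h⁻¹ * g * h) * e ∈ A K
    rw [h1]
    exact g5
  · have h1 : (e * a')⁻¹ * (h⁻¹ * g * h) * (e * a') = (h * e * a')⁻¹ * g * (h * e * a') := by group
    show (e * a')⁻¹ * (h⁻¹ * g * h) * (e * a') ∈ E K
    rw [h1]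
    exact g6
  · have h1 : (a * e')⁻¹ * (h⁻¹ * g * h) * (a * e') = (h * a * e')⁻¹ * g * (h * a * e') := by group
    show (a * e')⁻¹ * (h⁻¹ * g * h) * (a * e') ∈ A K
    rw [h1]
    exact g1
  · have h1 : (a * e' * a'')⁻¹ * (h⁻¹ * g * h) * (a * e' * a'') = (h * a * e' * a'')⁻¹ * g * (h * a * e' * a'') := by
      group
    show (a * e' * a'')⁻¹ * (h⁻¹ * g * h) * (a * e' * a'') ∈ E K
    rw [h1]
    exact g0

theorem exists_seg (hT : (Tr K).IsTree) {x y : Vt K} (h : 7 ≤ (Tr K).dist x y) :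
    ∃ (s : Sg K) (h : Au K), ∀ g : Au K, g • x = x → g • y = y → h⁻¹ * g * h ∈ Fs s := by
  obtain ⟨p, hp, hl⟩ := hT.connected.exists_path_of_dist x y
  have hl7 : 7 ≤ p.length := by omega
  have hfix : ∀ g : Au K, g • x = x → g • y = y → ∀ i, g • p.getVert i = p.getVert i := fun g hx hy i =>
    fix_path (Tr K) hT (fun g v w => smul_adj g) p hp hx hy i
  have hadj : ∀ i < 7, (Tr K).Adj (p.getVert i) (p.getVert (i + 1)) := fun i hi => p.adj_getVert_succ (by omega)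
  have hne : ∀ i < 6, p.getVert i ≠ p.getVert (i + 2) := by
    intro i hi h1
    have h2 := hp.getVert_injOn (show i ≤ p.length by omega) (show i + 2 ≤ p.length by omega) h1
    omega
  obtain ⟨j, hj, hjE⟩ : ∃ j ≤ 1, ∃ q : Au K ⧸ E K, p.getVert j = Sum.inr q := by
    rcases h0 : p.getVert 0 with q | q
    · have h1 := hadj 0 (by norm_num)
      rw [h0] at h1
      obtain ⟨q', hq'⟩ := alt_inl h1
      exact ⟨1, le_rfl, q', hq'⟩
    · exact ⟨0, zero_le_one, q, h0⟩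
  obtain ⟨s, k, hs⟩ := seg_of hjE (hadj j (by omega)) (hadj (j + 1) (by omega)) (hadj (j + 2) (by omega))
    (hadj (j + 3) (by omega)) (hadj (j + 4) (by omega)) (hadj (j + 5) (by omega)) (hne j (by omega))
    (hne (j + 1) (by omega)) (hne (j + 2) (by omega)) (hne (j + 3) (by omega)) (hne (j + 4) (by omega))
  exact ⟨s, k, fun g hx hy => hs g (hfix g hx hy _) (hfix g hx hy _) (hfix g hx hy _) (hfix g hx hy _)
    (hfix g hx hy _) (hfix g hx hy _) (hfix g hx hy _)⟩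

end Pool.Agent.H54.PA
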