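import Mathlib
import Pool.Agent.H54.PA.Lem
import Pool.Agent.H54.PA.Pth

/-!
# The action is acylindrical

Let `u ∈ Fs s` with the coefficients `α β l m γ` (`AE_coef`), `u' = a⁻¹ * u * a`: `u' (X 0) = C β * X 0 + ..`, `u' (X 1) = C α * X 1 + C γ'` (`eig`).

* `beta_root`: `pow_rel` for `e` and `u`: `α = β ^ n`; `pow_rel` for `e'` and `u'` (`e'⁻¹ * u' * e' = (a * e')⁻¹ * u * (a * e') ∈ A`): `β = α ^ n'`. So `β = β ^ (n n')`,
  `β ≠ 0`, `β ^ (n n' - 1) = 1`, `n n' - 1 ≥ 3`.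
* `eq_one`: `β = 1`: `α = 1`. `unip` for `a` and `u`: `l = 0`. `gam_zero` for `e`, `a'`, `u`: `γ = 0`: `u (X 1) = X 1`. For `u'`: `u' (X 0) = X 0 + C l' * X 1 + C m'`,
  `u' (X 1) = X 1 + C γ'`; `a * u' * a⁻¹ = u ∈ E` and `a⁻¹ ∈ A \ E`: `unip` gives `l' = 0`; `gam_zero` for `e'`, `a''`, `u'` gives `γ' = 0`. So `u' (X 1) = X 1`,
  `u (a (X 1)) = a (X 1)`, `a (X 1) = C κ * X 0 + C ν * X 1 + C ρ` with `κ ≠ 0` (`A_coef`), so `u (X 0) = X 0`: `u = 1` (`au_ext`).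
* `acyl`: `k = 7`, `N` = number of the roots of unity. For `7 ≤ dist v w` take `s`, `h` from `exists_seg` and for `g` fixing `v`, `w` the `β (g)` of
  `h⁻¹ * g * h` (choose `β`: `AE_coef`); it is a root of unity; it is injective: if `β (g1) = β (g2)` then
  `u = (h⁻¹ * g1 * h)⁻¹ * (h⁻¹ * g2 * h) ∈ Fs s` has `u (X 1) = X 1 + C γ` (direct computation), so `u = 1`. `Set.Finite.of_injOn`, `Set.ncard_le_ncard_of_injOn`.
-/

set_option autoImplicit false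

namespace Pool.Agent.H54.PA

open MvPolynomial

variable {K : Type} [Field K] [CharZero K]

theorem conj_conj {e a u : Au K} : e⁻¹ * (a⁻¹ * u * a) * e = (a * e)⁻¹ * u * (a * e) := by
  group

theorem inv_not_mem {a : Au K} (h : a ∉ E K) : a⁻¹ ∉ E K := fun h1 => h (by simpa using (E K).inv_mem h1)

theorem beta_root {s : Sg K} {u : Au K} (hu : u ∈ Fs s) {β γ : K} (h : u (X 1) = C β * X 1 + C γ) :
    ∃ n : ℕ, 0 < n ∧ β ^ n = 1 := by
  obtain ⟨h1, h2, h3, h4, h5, h6, h7⟩ := mem_Fs.1 hu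
  obtain ⟨α, β', l, m, γ', hα, hβ, hu0, hu1⟩ := AE_coef h1 h2
  have hb : β' = β := by
    rw [← (H13.PA.be_eq hu1).1, (H13.PA.be_eq h).1]
  rw [hb] at hu1 hβ
  obtain ⟨l', m', γ'', hv0, hv1⟩ := eig s.ha s.hna hu0 hu1 h3
  obtain ⟨n, hn, hp⟩ := pow_rel s.he s.hne
  obtain ⟨n', hn', hp'⟩ := pow_rel s.he' s.hne'
  have e1 := hp u α β l m γ' hu0 hu1 h4
  have e2 := hp' (s.a⁻¹ * u * s.a) β α l' m' γ'' hv0 hv1 (by
    rw [conj_conj]
    exact h6)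
  have h8 : 4 ≤ n * n' := Nat.mul_le_mul hn hn'
  refine ⟨n * n' - 1, by omega, ?_⟩
  apply mul_right_cancel₀ hβ
  rw [← pow_succ, one_mul]
  have h9 : n * n' - 1 + 1 = n * n' := by omega
  rw [h9, pow_mul, ← e1, ← e2]

theorem eq_one {s : Sg K} {u : Au K} (hu : u ∈ Fs s) {γ : K} (h : u (X 1) = X 1 + C γ) : u = 1 := by
  obtain ⟨h1, h2, h3, h4, h5, h6, h7⟩ := mem_Fs.1 hu
  obtain ⟨α, β', l, m, γ', hα, hβ, hu0, hu1⟩ := AE_coef h1 h2
  have hc : u (X 1) = C 1 * X 1 + C γ := by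
    rw [h, map_one, one_mul]
  have hb : β' = 1 := by
    rw [← (H13.PA.be_eq hu1).1, (H13.PA.be_eq hc).1]
  obtain ⟨n, hn, hp⟩ := pow_rel s.he s.hne
  have e1 := hp u α β' l m γ' hu0 hu1 h4
  rw [hb, one_pow] at e1
  rw [e1, map_one, one_mul] at hu0
  have hl : l = 0 := unip s.ha s.hna hu0 h h3
  have hu0' : u (X 0) = X 0 + C m := by
    rw [hu0, hl, map_zero, zero_mul, add_zero]
  have hg : γ = 0 := gam_zero s.he s.hne s.ha' s.hna' hu0' h h4 h5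
  have hu1' : u (X 1) = X 1 := by
    rw [h, hg, map_zero, add_zero]
  -- the conjugate
  have hc0 : u (X 0) = C 1 * X 0 + C 0 * X 1 + C m := by
    rw [hu0', map_one, map_zero]
    ring
  obtain ⟨l', m', γ'', hv0, hv1⟩ := eig s.ha s.hna hc0 hc h3
  rw [map_one, one_mul] at hv0 hv1
  have h8 : (s.a⁻¹)⁻¹ * (s.a⁻¹ * u * s.a) * s.a⁻¹ ∈ E K := by
    have h9 : (s.a⁻¹)⁻¹ * (s.a⁻¹ * u * s.a) * s.a⁻¹ = u := by group
    rw [h9]
    exact h2
  have hl' : l' = 0 := unip ((A K).inv_mem s.ha) (inv_not_mem s.hna) hv0 hv1 h8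
  have hv0' : (s.a⁻¹ * u * s.a) (X 0) = X 0 + C m' := by
    rw [hv0, hl', map_zero, zero_mul, add_zero]
  have hg' : γ'' = 0 := gam_zero s.he' s.hne' s.ha'' s.hna'' hv0' hv1 (by
    rw [conj_conj]
    exact h6) (by
    rw [conj_conj, ← mul_assoc]
    exact h7)
  have hv1' : (s.a⁻¹ * u * s.a) (X 1) = X 1 := by
    rw [hv1, hg', map_zero, add_zero]
  have hw : u (s.a (X 1)) = s.a (X 1) := by
    have h9 : s.a * (s.a⁻¹ * u * s.a) = u * s.a := by group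
    have h10 : s.a ((s.a⁻¹ * u * s.a) (X 1)) = u (s.a (X 1)) := congrArg (fun z : Au K => z (X 1)) h9
    rw [← h10, hv1']
  obtain ⟨κ, ν, ρ, hκ, hk⟩ := A_coef s.ha s.hna
  rw [hk, H13.PA.map_lin, hu1'] at hw
  have hκ' : (C κ : P K) ≠ 0 := by
    rw [Ne, C_eq_zero]
    exact hκ
  have hx : u (X 0) = X 0 := by
    apply mul_left_cancel₀ hκ'
    linear_combination hw
  apply AlgEquiv.coe_toAlgHom_injective
  apply MvPolynomial.algHom_ext
  intro i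
  fin_cases i
  · exact hx
  · exact hu1'

theorem acyl (hT : (Tr K).IsTree) (hμ : {z : K | ∃ n : ℕ, 0 < n ∧ z ^ n = 1}.Finite) :
    ∃ k N : ℕ, ∀ v w : Vt K, k ≤ (Tr K).dist v w →
      {g : Au K | g • v = v ∧ g • w = w}.Finite ∧ {g : Au K | g • v = v ∧ g • w = w}.ncard ≤ N := by
  refine ⟨7, {z : K | ∃ n : ℕ, 0 < n ∧ z ^ n = 1}.ncard, fun v w hvw => ?_⟩
  obtain ⟨s, h, hs⟩ := exists_seg hT hvw
  have hmaps : ∀ g ∈ {g : Au K | g • v = v ∧ g • w = w}, H13.PA.be (h⁻¹ * g * h) ∈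
      {z : K | ∃ n : ℕ, 0 < n ∧ z ^ n = 1} := by
    rintro g ⟨g1, g2⟩
    have h1 := hs g g1 g2
    exact beta_root h1 (H13.PA.form_E (H13.PA.mem_E.1 (mem_Fs.1 h1).2.1)).1
  have hinj : Set.InjOn (fun g : Au K => H13.PA.be (h⁻¹ * g * h)) {g : Au K | g • v = v ∧ g • w = w} := by
    rintro g ⟨g1, g2⟩ k ⟨k1, k2⟩ hgk
    have hgk' : H13.PA.be (h⁻¹ * g * h) = H13.PA.be (h⁻¹ * k * h) := hgk
    have hg := hs g g1 g2
    have hk := hs k k1 k2
    obtain ⟨u, hu⟩ : ∃ u, u = (h⁻¹ * g * h)⁻¹ * (h⁻¹ * k * h) := ⟨_, rfl⟩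
    have huF : u ∈ Fs s := by
      rw [hu]
      exact (Fs s).mul_mem ((Fs s).inv_mem hg) hk
    have hgE := H13.PA.mem_E.1 (mem_Fs.1 hg).2.1
    have huE := H13.PA.mem_E.1 (mem_Fs.1 huF).2.1
    have h1 : h⁻¹ * k * h = h⁻¹ * g * h * u := by
      rw [hu]
      group
    have h2 : H13.PA.be u = 1 := by
      have h3 := H13.PA.be_mul hgE huE
      rw [← h1, ← hgk'] at h3
      apply mul_left_cancel₀ (H13.PA.form_E hgE).2
      rw [← h3, mul_one]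
    have h3 : u (X 1) = X 1 + C (H13.PA.ga u) := by
      rw [(H13.PA.form_E huE).1, h2, map_one, one_mul]
    have h4 : u = 1 := eq_one huF h3
    rw [h4, mul_one] at h1
    exact (mul_left_cancel (mul_right_cancel h1)).symm
  constructor
  · exact Set.Finite.of_injOn hmaps hinj hμ
  · exact Set.ncard_le_ncard_of_injOn _ hmaps hinj hμ

end Pool.Agent.H54.PA
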