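import Mathlib
import Pool.Agent.H54.PA.El1

/-!
# Groups which act faithfully on a finite-dimensional rational space

* `mem_of_faithful`: `M ≃ₗ[ℚ] M` is isomorphic to `GL (Fin n) ℚ` (choose a basis; `LinearMap.GeneralLinearGroup`, `LinearMap.toMatrixAlgEquiv` and
  `Units.mapEquiv`; `LinearMap.GeneralLinearGroup.generalLinearEquiv : GeneralLinearGroup R M ≃* (M ≃ₗ[R] M)`), `Inherits.of_injective`.
* `mem_of_preserves`: `H` acts on `S` by restriction; `S` has finite dimension over `K`, so over `ℚ` (`FiniteDimensional.trans`); faithful because `X 0, X 1 ∈ S`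
  (`au_ext`).
* `A_mem`: `S = L1 K` (finite dimension: spanned by `X 0`, `X 1`, `1`: `mem_L1`).
-/

set_option autoImplicit false

namespace Pool.Agent.H54.PA

open MvPolynomial Pool.Agent.H98.FJ

theorem mem_of_faithful {C : (G : Type) → [Group G] → Prop} (hC : Inherits C)
    (hGL : ∀ n : ℕ, C (Matrix.GeneralLinearGroup (Fin n) ℚ)) (G M : Type) [Group G] [AddCommGroup M] [Module ℚ M]
    [FiniteDimensional ℚ M] (ρ : G →* (M ≃ₗ[ℚ] M)) (hρ : Function.Injective ρ) : C G := by
  classical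
  let b := Module.finBasis ℚ M
  let e1 : (M ≃ₗ[ℚ] M) ≃* (Module.End ℚ M)ˣ := (LinearMap.GeneralLinearGroup.generalLinearEquiv ℚ M).symm
  let e2 : (Module.End ℚ M)ˣ ≃* (Matrix (Fin (Module.finrank ℚ M)) (Fin (Module.finrank ℚ M)) ℚ)ˣ :=
    Units.mapEquiv (LinearMap.toMatrixAlgEquiv b).toMulEquiv
  exact hC.of_injective ((e2.toMonoidHom.comp e1.toMonoidHom).comp ρ)
    ((e2.injective.comp e1.injective).comp hρ) (hGL (Module.finrank ℚ M))

theorem mem_of_preserves {C : (G : Type) → [Group G] → Prop} (hC : Inherits C)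
    (hGL : ∀ n : ℕ, C (Matrix.GeneralLinearGroup (Fin n) ℚ)) {K : Type} [Field K] [NumberField K]
    (S : Submodule K (P K)) (hS : FiniteDimensional K S) (h0 : X 0 ∈ S) (h1 : X 1 ∈ S) (H : Subgroup (Au K))
    (hH : ∀ φ ∈ H, ∀ p, p ∈ S ↔ φ p ∈ S) : C H := by
  have hfin : Module.Finite ℚ S := Module.Finite.trans K S
  let r : H → (S ≃ₗ[K] S) := fun φ =>
    { toFun := fun p => ⟨(φ : Au K) p.1, (hH φ φ.2 p.1).1 p.2⟩
      invFun := fun p => ⟨(φ : Au K).symm p.1, (hH φ φ.2 _).2 (by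
        rw [AlgEquiv.apply_symm_apply]; exact p.2)⟩
      left_inv := fun p => Subtype.ext ((φ : Au K).symm_apply_apply p.1)
      right_inv := fun p => Subtype.ext ((φ : Au K).apply_symm_apply p.1)
      map_add' := fun p q => Subtype.ext (map_add (φ : Au K) p.1 q.1)
      map_smul' := fun c p => Subtype.ext (map_smul (φ : Au K) c p.1) }
  let ρ : H →* (S ≃ₗ[ℚ] S) := MonoidHom.mk' (fun φ => (r φ).restrictScalars ℚ) (fun a b => by
    apply LinearEquiv.ext
    intro p
    rfl)
  refine mem_of_faithful hC hGL H S ρ ?_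
  intro φ ψ h
  have h2 : ∀ p : S, (φ : Au K) p.1 = (ψ : Au K) p.1 := fun p => by
    have h3 : ρ φ p = ρ ψ p := by rw [h]
    exact congrArg Subtype.val h3
  exact Subtype.ext (au_ext (h2 ⟨X 0, h0⟩) (h2 ⟨X 1, h1⟩))

theorem A_mem {C : (G : Type) → [Group G] → Prop} (hC : Inherits C)
    (hGL : ∀ n : ℕ, C (Matrix.GeneralLinearGroup (Fin n) ℚ)) (K : Type) [Field K] [NumberField K] : C (A K) := by
  have hle : L1 K ≤ Submodule.span K ({X 0, X 1, 1} : Set (P K)) := by
    intro p hp
    obtain ⟨a, b, c, rfl⟩ := mem_L1.1 hp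
    refine Submodule.add_mem _ (Submodule.add_mem _ ?_ ?_) ?_
    · rw [← smul_eq_C_mul]
      exact Submodule.smul_mem _ _ (Submodule.subset_span (by simp))
    · rw [← smul_eq_C_mul]
      exact Submodule.smul_mem _ _ (Submodule.subset_span (by simp))
    · rw [← mul_one (MvPolynomial.C c), ← smul_eq_C_mul]
      exact Submodule.smul_mem _ _ (Submodule.subset_span (by simp))
  have hf : FiniteDimensional K (Submodule.span K ({X 0, X 1, 1} : Set (P K))) :=
    FiniteDimensional.span_of_finite K (by simp)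
  have hfin : FiniteDimensional K (L1 K) := Submodule.finiteDimensional_of_le hle
  refine mem_of_preserves hC hGL (L1 K) hfin ?_ ?_ (A K) (fun φ hφ => hφ)
  · exact mem_L1.2 ⟨1, 0, 0, by simp⟩
  · exact mem_L1.2 ⟨0, 1, 0, by simp⟩

end Pool.Agent.H54.PA
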