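import Mathlib
import Pool.Agent.H54.PA.Ele
import Pool.Agent.H54.PA.Cl1

/-!
# The triangular group is in the class

* `E_mem`: `Mn n` = span of `X 0` and `X 1 ^ i`, `i ≤ n`. For `φ ∈ E`, `φ (X 1) = C b * X 1 + C c`, so `φ (X 1 ^ i) ∈ Mn n` for `i ≤ n`. If `φ (X 0) ∈ Mn n` (true for
  large `n` by `E_X0`), then `φ` maps `Mn n` into itself, so onto (finite dimension, injective), so `∀ p, p ∈ Mn n ↔ φ p ∈ Mn n` (`Mn_pres`). The subgroups
  `En n = {φ ∈ E | ∀ p, p ∈ Mn n ↔ φ p ∈ Mn n}` of `E` increase and exhaust `E`: `Inherits.union`, `mem_of_preserves` (`C (En n)` as subgroup of `E K`: map it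
  to a subgroup of `Au K` or use `Inherits.iso`/`of_injective`).
-/

set_option autoImplicit false

namespace Pool.Agent.H54.PA

open MvPolynomial Pool.Agent.H98.FJ

/-- the span of `X 0` and the first powers of `X 1` -/
noncomputable def Mn (K : Type) [Field K] (n : ℕ) : Submodule K (P K) :=
  Submodule.span K ({X 0} ∪ Set.range fun i : Fin (n + 1) => (X 1 : P K) ^ (i : ℕ))

theorem X0_mem (K : Type) [Field K] (n : ℕ) : (X 0 : P K) ∈ Mn K n :=
  Submodule.subset_span (Or.inl rfl)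

theorem Xpow_mem (K : Type) [Field K] (n : ℕ) {i : ℕ} (hi : i ≤ n) : (X 1 : P K) ^ i ∈ Mn K n :=
  Submodule.subset_span (Or.inr ⟨⟨i, by omega⟩, rfl⟩)

theorem Mn_mono (K : Type) [Field K] {n m : ℕ} (h : n ≤ m) : Mn K n ≤ Mn K m := by
  refine Submodule.span_le.2 ?_
  rintro _ (rfl | ⟨i, rfl⟩)
  · exact X0_mem K m
  · exact Xpow_mem K m (by omega)

theorem Mn_fin (K : Type) [Field K] (n : ℕ) : FiniteDimensional K (Mn K n) :=
  FiniteDimensional.span_of_finite K ((Set.finite_singleton _).union (Set.finite_range _))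

theorem aff_pow_mem (K : Type) [Field K] (b c : K) {n i : ℕ} (hi : i ≤ n) :
    (C b * X 1 + C c : P K) ^ i ∈ Mn K n := by
  rw [add_pow]
  refine Submodule.sum_mem _ fun k hk => ?_
  have hk' : k ≤ i := Nat.lt_succ_iff.1 (Finset.mem_range.1 hk)
  have h : (C b * X 1 : P K) ^ k * (C c) ^ (i - k) * ((i.choose k : ℕ) : P K) =
      (b ^ k * c ^ (i - k) * ((i.choose k : ℕ) : K)) • (X 1 : P K) ^ k := by
    rw [smul_eq_C_mul, map_mul, map_mul, map_pow, map_pow, map_natCast]
    ring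
  rw [h]
  exact Submodule.smul_mem _ _ (Xpow_mem K n (hk'.trans hi))

theorem Mn_pres {K : Type} [Field K] {φ : Au K} (hφ : φ ∈ E K) {n : ℕ} (h : φ (X 0) ∈ Mn K n) (p : P K) :
    p ∈ Mn K n ↔ φ p ∈ Mn K n := by
  obtain ⟨b, c, -, h1⟩ := mem_E.1 hφ
  have hfd := Mn_fin K n
  have hle : (Mn K n).map φ.toLinearMap ≤ Mn K n := by
    unfold Mn
    rw [Submodule.map_span, Submodule.span_le]
    rintro _ ⟨_, rfl | ⟨i, rfl⟩, rfl⟩
    · exact h
    · change φ ((X 1 : P K) ^ (i : ℕ)) ∈ Mn K n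
      rw [map_pow, h1]
      exact aff_pow_mem K b c (Nat.lt_succ_iff.1 i.2)
  have heq : (Mn K n).map φ.toLinearMap = Mn K n := by
    refine Submodule.eq_of_le_of_finrank_eq hle ?_
    exact LinearEquiv.finrank_map_eq φ.toLinearEquiv (Mn K n)
  constructor
  · intro hp
    exact hle ⟨p, hp, rfl⟩
  · intro hp
    rw [← heq] at hp
    obtain ⟨q, hq, hqp⟩ := hp
    have : q = p := φ.injective hqp
    rw [← this]
    exact hq

theorem aeval_mem {K : Type} [Field K] (q : Polynomial K) {n : ℕ} (h : q.natDegree ≤ n) :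
    Polynomial.aeval (X 1 : P K) q ∈ Mn K n := by
  rw [Polynomial.aeval_eq_sum_range]
  refine Submodule.sum_mem _ fun i hi => Submodule.smul_mem _ _ (Xpow_mem K n ?_)
  exact (Nat.lt_succ_iff.1 (Finset.mem_range.1 hi)).trans h

/-- the triangular automorphisms which preserve `Mn (n + 1)` -/
noncomputable def En (K : Type) [Field K] (n : ℕ) : Subgroup (E K) where
  carrier := {φ | ∀ p, p ∈ Mn K (n + 1) ↔ (φ : Au K) p ∈ Mn K (n + 1)}
  mul_mem' := by
    intro φ ψ hφ hψ p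
    exact (hψ p).trans (hφ ((ψ : Au K) p))
  one_mem' := fun p => Iff.rfl
  inv_mem' := by
    intro φ hφ p
    have h := hφ ((φ : Au K)⁻¹ p)
    have h2 : (φ : Au K) ((φ : Au K)⁻¹ p) = p := (φ : Au K).apply_symm_apply p
    rw [h2] at h
    exact h.symm

theorem E_mem {C : (G : Type) → [Group G] → Prop} (hC : Inherits C)
    (hGL : ∀ n : ℕ, C (Matrix.GeneralLinearGroup (Fin n) ℚ)) (K : Type) [Field K] [NumberField K] : C (E K) := by
  refine hC.union (En K) ?_ ?_ ?_
  · intro i j hij φ hφ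
    have h0 : (φ : Au K) (X 0) ∈ Mn K (i + 1) := (hφ (X 0)).1 (X0_mem K _)
    exact fun p => Mn_pres φ.2 (Mn_mono K (by omega) h0) p
  · intro φ
    obtain ⟨a, q, -, h⟩ := E_X0 φ.2
    refine ⟨q.natDegree, fun p => Mn_pres φ.2 ?_ p⟩
    rw [h]
    refine Submodule.add_mem _ ?_ (aeval_mem q (by omega))
    rw [← smul_eq_C_mul]
    exact Submodule.smul_mem _ _ (X0_mem K _)
  · intro i
    have h1 : C ((En K i).map (E K).subtype) := by
      refine mem_of_preserves hC hGL (Mn K (i + 1)) (Mn_fin K _) (X0_mem K _) ?_ _ ?_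
      · have h := Xpow_mem K (i + 1) (i := 1) (by omega)
        rwa [pow_one] at h
      · rintro _ ⟨φ, hφ, rfl⟩
        exact hφ
    exact hC.iso _ _ ((En K i).equivMapOfInjective _ (E K).subtype_injective).symm h1

end Pool.Agent.H54.PA
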