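import Mathlib
import Pool.Agent.H54.PA.Defs

/-!
# Countability

* `countable_au'`: `MvPolynomial (Fin 2) K` is countable for a countable field, and `φ ↦ (φ (X 0), φ (X 1))` is injective (`MvPolynomial.algHom_ext`).
* `countable_adj`: `IntermediateField.adjoin ℚ S` is countable for finite `S` (`IntermediateField.cardinalMk_adjoin_le` or quotients of polynomials with
  rational coefficients in the elements of `S`; search in Mathlib first).
-/

set_option autoImplicit false

namespace Pool.Agent.H54.PA

open MvPolynomial

theorem countable_au' (K : Type) [Field K] [Countable K] : Countable (Au K) := by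
  have h0 : Countable (P K) := by
    rw [← Cardinal.mk_le_aleph0_iff]
    refine (MvPolynomial.cardinalMk_le_max (σ := Fin 2) (R := K)).trans ?_
    refine max_le (max_le (Cardinal.mk_le_aleph0_iff.2 inferInstance) ?_) le_rfl
    exact Cardinal.mk_le_aleph0_iff.2 inferInstance
  let f : Au K → P K × P K := fun g => (g (X 0), g (X 1))
  have hf : Function.Injective f := by
    intro g h hgh
    have h1 : g (X 0) = h (X 0) := congrArg Prod.fst hgh
    have h2 : g (X 1) = h (X 1) := congrArg Prod.snd hgh
    have h3 : (g : P K →ₐ[K] P K) = (h : P K →ₐ[K] P K) := by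
      apply MvPolynomial.algHom_ext
      intro i
      fin_cases i
      · exact h1
      · exact h2
    apply AlgEquiv.ext
    intro x
    exact congrArg (fun k : P K →ₐ[K] P K => k x) h3
  exact hf.countable

theorem countable_adj (L : Type) [Field L] [CharZero L] (S : Finset L) :
    Countable (IntermediateField.adjoin ℚ (S : Set L)) := by
  rw [← Cardinal.mk_le_aleph0_iff]
  refine (IntermediateField.cardinalMk_adjoin_le ℚ (S : Set L)).trans ?_
  refine max_le (max_le (Cardinal.mk_le_aleph0_iff.2 inferInstance) ?_) le_rfl
  exact Cardinal.mk_le_aleph0_iff.2 (Finset.countable_toSet S).to_subtype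

end Pool.Agent.H54.PA
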