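import Pool.Agent.H54.PA.Main2

/-!
# Polynomial automorphisms of the plane and the Farrell-Jones conjecture

Let `C` be a class of groups with the inheritance properties `Inherits`, `Extension` and `AcylTrees` (groups which act
acylindrically on trees with vertex stabilisers in `C` are in `C`) which contains the solvable groups and the groups
`GL n ℚ`. The class of the groups satisfying the Farrell-Jones conjecture for A-theory with coefficients and finite wreath
products is such a class (Knopf; Bunke, Kasprowski, Winges; Enkelmann, Lück, Pieper, Ullmann, Winges; Kasprowski, Ullmann,
Wegner, Winges).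

(1) The group of all polynomial automorphisms of the affine plane over the algebraic closure of `ℚ` is in `C`.

(2) For every principal ideal domain `R` of characteristic zero, for instance every field of characteristic zero, the
automorphism group of the `R`-algebra `R[x, y]` is in `C` if and only if `GL₂(R)` is in `C`.

(3) If `C` has the property `Cat2`, `K` is a field of characteristic zero and `GL₂(K)` is in `C` (by (1) and (2) this is true for
the algebraic closure of `ℚ`), then the automorphism group of the `K[z]`-algebra `K[z][x, y]` is in `C`. These are the
automorphisms of the affine space of dimension three which fix the coordinate `z`, such as Nagata's automorphism.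

Proof. By the theorem of Jung (proved in Lean in characteristic zero, after Shestakov and Umirbaev) the group `G` of the
automorphisms of `F[x, y]`, `F` a field of characteristic zero, acts on a tree; its vertices are the cosets of the
group `A` of the affine automorphisms and of the group `E` of the triangular automorphisms. The new point is a uniform
bound: the pointwise stabiliser of a path of length seven injects into the group of the roots of unity of `F` (an element of
the stabiliser of `w₀ v₀ w₁ v₁ w₂ v₂ w₃`, conjugated to `A ∩ E`, has the form `x ↦ α x + .., y ↦ β y + γ`, and the polynomials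
of degrees `n, m ≥ 2` of the triangular automorphisms at `w₁` and `w₂` give `α = β ^ n`, `β = α ^ m`; it is determined by
`β`). This group is finite if `F` is finitely generated over `ℚ`; over `ℂ` there is no such bound. So `G` is in `C` if `A` is in
`C` (`E` is solvable). If `R` is a principal ideal domain with field of fractions `K` then the stabiliser of
a vertex `g A` in the automorphism group of `R[x, y]` preserves the lattice `g(K + Kx + Ky) ∩ R[x, y]`, which has a basis of the form
`1, u, v`, so that it is conjugate to a subgroup of the affine group of `R ^ 2`.
-/

set_option autoImplicit false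

namespace Pool.Agent.H54.PA.Draft

open Pool.Agent.H98.FJ Pool.Agent.H54.CX Pool.Agent.H54.PA

theorem result (C : (G : Type) → [Group G] → Prop) (hC : Inherits C) (hE : Extension C) (hT : AcylTrees C)
    (hS : ∀ (G : Type) [Group G], Group.IsSolvable G → C G)
    (hGL : ∀ n : ℕ, C (Matrix.GeneralLinearGroup (Fin n) ℚ)) :
    C (MvPolynomial (Fin 2) (AlgebraicClosure ℚ) ≃ₐ[AlgebraicClosure ℚ] MvPolynomial (Fin 2) (AlgebraicClosure ℚ)) ∧
    (∀ (R : Type) [CommRing R] [IsDomain R] [IsPrincipalIdealRing R] [CharZero R],
      C (MvPolynomial (Fin 2) R ≃ₐ[R] MvPolynomial (Fin 2) R) ↔ C (Matrix.GeneralLinearGroup (Fin 2) R)) ∧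
    (Cat2 C → ∀ (K : Type) [Field K] [CharZero K], C (Matrix.GeneralLinearGroup (Fin 2) K) →
      C (MvPolynomial (Fin 2) (Polynomial K) ≃ₐ[Polynomial K] MvPolynomial (Fin 2) (Polynomial K))) :=
  ⟨main_a hC hT hGL, fun R _ _ _ _ => pid hC hE hT hS R, fun h2 K _ _ hK => nagata hC hE hT hS h2 K hK⟩

end Pool.Agent.H54.PA.Draft
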