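import Mathlib
import Pool.Agent.H98.FJ.Closed

/-!
# The linear group in the automorphism group

* `gl_au`: a matrix `M` gives the endomorphism `ρ M : X i ↦ ∑ j, C (M j i) * X j` of `R[x, y]`; `ρ (M * N) = ρ M ∘ ρ N`, `ρ 1 = id`. So the invertible matrices give
  automorphisms (`AlgEquiv.ofAlgHom (ρ M) (ρ M⁻¹)`, or `MonoidHom.toHomUnits` and `AlgEquiv.algHomUnitsEquiv`). Injective: coefficients (`R` nontrivial or not).
-/

set_option autoImplicit false

namespace Pool.Agent.H54.PA

open MvPolynomial

private noncomputable def rho (R : Type) [CommRing R] :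
    Matrix (Fin 2) (Fin 2) R →* (MvPolynomial (Fin 2) R →ₐ[R] MvPolynomial (Fin 2) R) where
  toFun M := aeval fun i => ∑ j, C (M j i) * X j
  map_one' := by
    apply algHom_ext
    intro i
    rw [aeval_X, AlgHom.one_apply, Finset.sum_eq_single i]
    · rw [Matrix.one_apply_eq, C_1, one_mul]
    · intro j _ hj
      rw [Matrix.one_apply_ne hj, C_0, zero_mul]
    · intro hi
      exact absurd (Finset.mem_univ i) hi
  map_mul' M N := by
    apply algHom_ext
    intro i
    rw [aeval_X, AlgHom.mul_apply, aeval_X]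
    simp only [Fin.sum_univ_two, Matrix.mul_apply, map_add, map_mul, aeval_C, aeval_X, algebraMap_eq]
    ring

private theorem rho_inj (R : Type) [CommRing R] : Function.Injective (rho R) := by
  intro M N h
  ext j i
  have h1 := congrArg (fun f : MvPolynomial (Fin 2) R →ₐ[R] MvPolynomial (Fin 2) R => f (X i)) h
  have h2 : (∑ j, C (M j i) * X j : MvPolynomial (Fin 2) R) = ∑ j, C (N j i) * X j := by
    simpa [rho] using h1
  have h4 : ∀ (A : Matrix (Fin 2) (Fin 2) R), (∑ x, A x i * coeff (Finsupp.single j 1) (X x : MvPolynomial (Fin 2) R)) = A j i := by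
    intro A
    rw [Finset.sum_eq_single j]
    · rw [coeff_X, if_pos rfl, mul_one]
    · intro b _ hb
      rw [coeff_X, if_neg, mul_zero]
      intro h5
      exact hb (Finsupp.single_left_injective one_ne_zero h5)
    · intro hj
      exact absurd (Finset.mem_univ j) hj
  have h5 := congrArg (coeff (Finsupp.single j 1)) h2
  rw [coeff_sum, coeff_sum] at h5
  simp only [coeff_C_mul] at h5
  rwa [h4 M, h4 N] at h5

theorem gl_au (R : Type) [CommRing R] :
    ∃ Ψ : Matrix.GeneralLinearGroup (Fin 2) R →* (MvPolynomial (Fin 2) R ≃ₐ[R] MvPolynomial (Fin 2) R),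
      Function.Injective Ψ := by
  refine ⟨(AlgEquiv.algHomUnitsEquiv R (MvPolynomial (Fin 2) R)).toMonoidHom.comp (Units.map (rho R)), ?_⟩
  exact (AlgEquiv.algHomUnitsEquiv R (MvPolynomial (Fin 2) R)).injective.comp (Units.map_injective (rho_inj R))

end Pool.Agent.H54.PA
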