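import Mathlib
import Pool.Agent.H54.PA.Cl1
import Pool.Agent.H54.TT.Alg

/-!
# The group `GL₂` of algebraic numbers, and of polynomials

* `gl_nf`: `F` a number field: `GL₂ (F)` acts faithfully on `F ^ 2`, of finite dimension over `ℚ`: `mem_of_faithful` (`Cl1`).
* `gl_alg`: `GL₂ (L)` is the directed union of the images of `GL₂ (F)`, `F = IntermediateField.adjoin ℚ S`, `S` a finite set (`Inherits.union` over `Finset L`, subgroups = ranges of
  `Matrix.GeneralLinearGroup.map`; a matrix and its inverse have finitely many entries; `gl2map_injective` in `TT/Alg`).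
* `gl_poly`: `K` a field with infinitely many elements: `GL₂ (K)` in the class implies `GL₂ (K[T;T⁻¹])` in the class (`TT.gl_laurent`), `K[z] → K[T;T⁻¹]` is injective
  (`Polynomial.toLaurent`, `Polynomial.toLaurent_injective`), `TT.gl2_of_injective`.
-/

set_option autoImplicit false

namespace Pool.Agent.H54.PA

open Pool.Agent.H98.FJ Pool.Agent.H54.CX Pool.Agent.H54.TT

theorem gl_nf {C : (G : Type) → [Group G] → Prop} (hC : Inherits C)
    (hGL : ∀ n : ℕ, C (Matrix.GeneralLinearGroup (Fin n) ℚ)) (F : Type) [Field F] [NumberField F] :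
    C (Matrix.GeneralLinearGroup (Fin 2) F) := by
  classical
  have hfin : Module.Finite ℚ (Fin 2 → F) := inferInstance
  let e : Matrix.GeneralLinearGroup (Fin 2) F ≃* ((Fin 2 → F) ≃ₗ[F] (Fin 2 → F)) :=
    Matrix.GeneralLinearGroup.toLin.trans (LinearMap.GeneralLinearGroup.generalLinearEquiv F (Fin 2 → F))
  let ρ : Matrix.GeneralLinearGroup (Fin 2) F →* ((Fin 2 → F) ≃ₗ[ℚ] (Fin 2 → F)) :=
    MonoidHom.mk' (fun g => (e g).restrictScalars ℚ) (fun a b => by
      rw [map_mul]
      rfl)
  refine mem_of_faithful hC hGL _ (Fin 2 → F) ρ ?_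
  intro a b h
  apply e.injective
  exact LinearEquiv.restrictScalars_injective ℚ h

private theorem exincl {L : Type} [Field L] [CharZero L] {E F : IntermediateField ℚ L} (h : E ≤ F) :
    ∃ ι : E →+* F, (F.val.toRingHom).comp ι = E.val.toRingHom :=
  ⟨(IntermediateField.inclusion h).toRingHom, RingHom.ext fun _ => rfl⟩

theorem gl_alg {C : (G : Type) → [Group G] → Prop} (hC : Inherits C)
    (hGL : ∀ n : ℕ, C (Matrix.GeneralLinearGroup (Fin n) ℚ)) (L : Type) [Field L] [CharZero L]
    [Algebra.IsAlgebraic ℚ L] : C (Matrix.GeneralLinearGroup (Fin 2) L) := by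
  classical
  let B : Finset L → IntermediateField ℚ L := fun s => IntermediateField.adjoin ℚ (s : Set L)
  have hB : ∀ {s t : Finset L}, s ⊆ t → B s ≤ B t := fun h =>
    IntermediateField.adjoin.mono ℚ _ _ (by exact_mod_cast h)
  let φ : ∀ s : Finset L, B s →+* L := fun s => (B s).val.toRingHom
  have hφ : ∀ s, Function.Injective (φ s) := fun s => Subtype.val_injective
  let S : Finset L → Subgroup (Matrix.GeneralLinearGroup (Fin 2) L) := fun s =>
    (Matrix.GeneralLinearGroup.map (n := Fin 2) (φ s)).range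
  refine hC.union S ?_ ?_ ?_
  · rintro s t hst _ ⟨g, rfl⟩
    obtain ⟨ι, hι⟩ := exincl (hB hst)
    refine ⟨Matrix.GeneralLinearGroup.map (n := Fin 2) ι g, ?_⟩
    apply Units.ext
    ext1 i j
    exact RingHom.congr_fun hι (g.val i j)
  · intro g
    let t : Finset L := Finset.univ.biUnion fun i : Fin 2 => Finset.univ.biUnion fun j : Fin 2 =>
      {g.val i j, g⁻¹.val i j}
    have h1 : ∀ i j, g.val i j ∈ B t := fun i j => IntermediateField.subset_adjoin ℚ _ (by
      rw [Finset.mem_coe]
      exact Finset.mem_biUnion.2 ⟨i, Finset.mem_univ _, Finset.mem_biUnion.2 ⟨j, Finset.mem_univ _, by simp⟩⟩)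
    have h2 : ∀ i j, g⁻¹.val i j ∈ B t := fun i j => IntermediateField.subset_adjoin ℚ _ (by
      rw [Finset.mem_coe]
      exact Finset.mem_biUnion.2 ⟨i, Finset.mem_univ _, Finset.mem_biUnion.2 ⟨j, Finset.mem_univ _, by simp⟩⟩)
    have hAB : ∀ (P Q : Fin 2 → Fin 2 → B t) (g h : Matrix.GeneralLinearGroup (Fin 2) L),
        (∀ i j, φ t (P i j) = g.val i j) → (∀ i j, φ t (Q i j) = h.val i j) → g * h = 1 →
        Matrix.of P * Matrix.of Q = 1 := by
      intro P Q g h hP hQ hgh
      ext1 i j
      apply hφ t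
      have h3 := congrArg (fun m : Matrix.GeneralLinearGroup (Fin 2) L => m.val i j) hgh
      simp only [Units.val_mul, Matrix.mul_apply, Units.val_one] at h3
      rw [Matrix.mul_apply, map_sum]
      simp only [map_mul, Matrix.of_apply, hP, hQ]
      rw [h3, Matrix.one_apply, Matrix.one_apply]
      split
      · rw [map_one]
      · rw [map_zero]
    refine ⟨t, ⟨⟨Matrix.of fun i j => ⟨g.val i j, h1 i j⟩, Matrix.of fun i j => ⟨g⁻¹.val i j, h2 i j⟩,
      hAB _ _ g g⁻¹ (fun _ _ => rfl) (fun _ _ => rfl) (mul_inv_cancel g),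
      hAB _ _ g⁻¹ g (fun _ _ => rfl) (fun _ _ => rfl) (inv_mul_cancel g)⟩, ?_⟩⟩
    apply Units.ext
    ext1 i j
    rfl
  · intro s
    have hfin : FiniteDimensional ℚ (B s) :=
      IntermediateField.finiteDimensional_adjoin (fun x _ => (Algebra.IsAlgebraic.isAlgebraic x).isIntegral)
    have hnf : NumberField (B s) := { to_charZero := inferInstance, to_finiteDimensional := hfin }
    exact hC.iso _ _ (MonoidHom.ofInjective (gl2map_injective (φ s) (hφ s))) (gl_nf hC hGL (B s))

theorem gl_poly {C : (G : Type) → [Group G] → Prop} (hC : Inherits C) (hE : Extension C) (h2 : Cat2 C)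
    (K : Type) [Field K] [Infinite K] (h : C (Matrix.GeneralLinearGroup (Fin 2) K)) :
    C (Matrix.GeneralLinearGroup (Fin 2) (Polynomial K)) := by
  have hu : Infinite Kˣ := by
    have h1 : Infinite ({0}ᶜ : Set K) := ((Set.finite_singleton (0 : K)).infinite_compl).to_subtype
    refine Infinite.of_injective (fun x : ({0}ᶜ : Set K) => Units.mk0 x.1 x.2) ?_
    intro x y hxy
    exact Subtype.ext (congrArg Units.val hxy)
  exact gl2_of_injective hC (Polynomial.toLaurent : Polynomial K →+* LaurentPolynomial K) Polynomial.toLaurent_injective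
    (gl_laurent K hC hE h2 (Or.inr hu) h)

end Pool.Agent.H54.PA
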