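import Mathlib
import Pool.Agent.H54.PA.Rg
import Pool.Agent.H54.PA.El1
import Pool.Agent.H75.PA.Bas
import Pool.Agent.H75.PA.Aff

/-!
# Lattices

`R` is a principal ideal domain, `K` its field of fractions, `g ∈ Au K`.

* `exists_basis`: linear algebra. `N ⊂ K ^ 2` an `R`-submodule which spans `K ^ 2` over `K` and for which there is an injective `K`-linear `T : K ^ 2 → K ^ 2` with `T n ∈ R ^ 2` for
  `n ∈ N`: it has two elements `n 0`, `n 1` which generate it over `R` and are linearly independent over `K`. Proof: `N` is isomorphic to a submodule of the free module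
  `R ^ 2`, so free (`Submodule.nonempty_basis_of_pid`), finite; its basis is linearly independent over `K` (`LinearIndependent.iff_fractionRing`) and spans `K ^ 2`, so it has two elements.
* `lattice`: let `N = {v : K ^ 2 | ∃ γ : K, g (C (v 0) * X 0 + C (v 1) * X 1 + C γ) ∈ PR R K}`, an `R`-submodule.
  `N` spans `K ^ 2`: for each `v` a common denominator `r ≠ 0` of the coefficients of `g (C (v 0) * X 0 + C (v 1) * X 1)` gives `r • v ∈ N`.
  Bounded: `g (X 0)`, `g (X 1)` and `1` are linearly independent over `K` (`lin_inj` and injectivity of `g`), so there are two exponents `e, e' ≠ 0` such that the determinant of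
  `coeff e`, `coeff e'` at `g (X 0)`, `g (X 1)` is not zero (if all these `2 × 2` minors vanish, the two vectors of the coefficients at the exponents `≠ 0` are proportional, so
  `x g (X 0) + y g (X 1)` is a constant with `(x, y) ≠ 0`); `T v = (coeff e, coeff e') (g (C (v 0) * X 0 + C (v 1) * X 1))`, it is in `R ^ 2` for `v ∈ N` (`mem_PR`, the constant `γ` does not
  contribute to the exponents `≠ 0`).
  Let `n 0`, `n 1` be the basis of `N` and `γ i` as in the definition. Let `a ∈ A K` be the affine automorphism with `a (X i) = C (n i 0) * X 0 + C (n i 1) * X 1 + C (γ i)` (invertible, the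
  matrix is: `exists_aff`). So `u i := g (a (X i)) ∈ PR R K`, and every `p ∈ PR R K` with `g⁻¹ p ∈ L1 K` is `p = r0 u 0 + r1 u 1 + c` with `r0, r1 ∈ R` and `c ∈ K`,
  and `C c = p - r0 u 0 - r1 u 1 ∈ PR`, so `c ∈ R` (`gen`). Now let `φ ∈ GR R K`, `g⁻¹ * φ * g ∈ A K`. `p = φ (u i)` is in `PR`, and `g⁻¹ p = (g⁻¹ * φ * g) (a (X i)) ∈ L1 K`, so
  `(g * a)⁻¹ (φ (u i)) = C r0 * X 0 + C r1 * X 1 + C c ∈ PR`. The same for `φ⁻¹`. By `mem_GR` `(g * a)⁻¹ * φ * (g * a) ∈ GR R K`; it is in `A K` because `a ∈ A K`.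
-/

set_option autoImplicit false

namespace Pool.Agent.H54.PA

open MvPolynomial

theorem exists_basis (R K : Type) [CommRing R] [IsDomain R] [IsPrincipalIdealRing R] [Field K] [Algebra R K]
    [IsFractionRing R K] (N : Submodule R (Fin 2 → K)) (hN : ∀ v : Fin 2 → K, ∃ r : R, r ≠ 0 ∧ r • v ∈ N)
    (T : (Fin 2 → K) →ₗ[K] (Fin 2 → K)) (hT : Function.Injective T)
    (hTN : ∀ v ∈ N, ∀ i, T v i ∈ (algebraMap R K).range) :
    ∃ n : Fin 2 → (Fin 2 → K), (∀ i, n i ∈ N) ∧ LinearIndependent K n ∧
      ∀ v ∈ N, ∃ r : Fin 2 → R, v = r 0 • n 0 + r 1 • n 1 := by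
  exact Pool.Agent.H75.PA.exists_basis R K N hN T hT hTN

/-- affine automorphisms with prescribed linearly independent linear parts -/
theorem exists_aff {K : Type} [Field K] (n : Fin 2 → (Fin 2 → K)) (hn : LinearIndependent K n) (γ : Fin 2 → K) :
    ∃ a ∈ A K, ∀ i, a (X i) = C (n i 0) * X 0 + C (n i 1) * X 1 + C (γ i) := by
  exact Pool.Agent.H75.PA.exists_aff n hn γ

/-- two coefficients of the coordinates which are independent -/
theorem exists_minor {K : Type} [Field K] (g : Au K) : ∃ e e' : Fin 2 →₀ ℕ, e ≠ 0 ∧ e' ≠ 0 ∧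
    coeff e (g (X 0)) * coeff e' (g (X 1)) - coeff e' (g (X 0)) * coeff e (g (X 1)) ≠ 0 := by
  classical
  by_contra hcon
  push Not at hcon
  have hC : ∀ t : K, g (C t) = C t := fun t => by
    have := g.commutes t
    rwa [algebraMap_eq] at this
  by_cases h1 : ∃ e' : Fin 2 →₀ ℕ, e' ≠ 0 ∧ coeff e' (g (X 1)) ≠ 0
  · obtain ⟨e', he', hne⟩ := h1
    have key : g (X 0) = C (coeff e' (g (X 0)) / coeff e' (g (X 1))) * g (X 1) +
        C (coeff 0 (g (X 0)) - coeff e' (g (X 0)) / coeff e' (g (X 1)) * coeff 0 (g (X 1))) := by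
      ext m
      rw [coeff_add, coeff_C_mul, coeff_C]
      by_cases hm : m = 0
      · subst hm
        rw [if_pos rfl]
        ring
      · rw [if_neg (Ne.symm hm), add_zero]
        have := hcon m e' hm he'
        field_simp
        linear_combination this
    have h2 : g (C 1 * X 0 + C 0 * X 1 + C 0) = g (C 0 * X 0 + C (coeff e' (g (X 0)) / coeff e' (g (X 1))) * X 1 +
        C (coeff 0 (g (X 0)) - coeff e' (g (X 0)) / coeff e' (g (X 1)) * coeff 0 (g (X 1)))) := by
      rw [map_add, map_add, map_mul, map_mul, map_add, map_add, map_mul, map_mul, hC, hC, hC, hC]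
      rw [C_1, C_0]
      linear_combination key
    have h3 := (lin_inj (g.injective h2)).1
    exact one_ne_zero h3
  · push Not at h1
    have key : g (X 1) = C (coeff 0 (g (X 1))) := by
      ext m
      rw [coeff_C]
      by_cases hm : m = 0
      · subst hm
        rw [if_pos rfl]
      · rw [if_neg (Ne.symm hm)]
        exact h1 m hm
    have h2 : g (C 0 * X 0 + C 1 * X 1 + C 0) = g (C 0 * X 0 + C 0 * X 1 + C (coeff 0 (g (X 1)))) := by
      rw [map_add, map_add, map_mul, map_mul, map_add, map_add, map_mul, map_mul, hC, hC, hC]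
      rw [C_1, C_0]
      linear_combination key
    have h3 := (lin_inj (g.injective h2)).2.1
    exact one_ne_zero h3

section

variable {R K : Type} [CommRing R] [Field K] [Algebra R K]

theorem map_lin' (g : Au K) (a b c : K) : g (C a * X 0 + C b * X 1 + C c) = C a * g (X 0) + C b * g (X 1) + C c := by
  have hC : ∀ t : K, g (C t) = C t := fun t => by
    have := g.commutes t
    rwa [algebraMap_eq] at this
  rw [map_add, map_add, map_mul, map_mul, hC, hC, hC]

/-- the lattice of an automorphism -/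
noncomputable def Lt (R : Type) {K : Type} [CommRing R] [Field K] [Algebra R K] (g : Au K) : Submodule R (Fin 2 → K) where
  carrier := {v | ∃ γ : K, g (C (v 0) * X 0 + C (v 1) * X 1 + C γ) ∈ PR R K}
  add_mem' := by
    rintro v w ⟨γ, hv⟩ ⟨δ, hw⟩
    refine ⟨γ + δ, ?_⟩
    have h := (PR R K).add_mem hv hw
    rw [← map_add] at h
    have e : (C (v 0) * X 0 + C (v 1) * X 1 + C γ + (C (w 0) * X 0 + C (w 1) * X 1 + C δ) : P K) =
        C ((v + w) 0) * X 0 + C ((v + w) 1) * X 1 + C (γ + δ) := by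
      rw [Pi.add_apply, Pi.add_apply, C_add, C_add, C_add]
      ring
    rwa [e] at h
  zero_mem' := by
    refine ⟨0, ?_⟩
    have e : (C ((0 : Fin 2 → K) 0) * X 0 + C ((0 : Fin 2 → K) 1) * X 1 + C 0 : P K) = 0 := by
      rw [Pi.zero_apply, Pi.zero_apply, C_0]
      ring
    rw [e, map_zero]
    exact (PR R K).zero_mem
  smul_mem' := by
    rintro r v ⟨γ, hv⟩
    refine ⟨algebraMap R K r * γ, ?_⟩
    have h := (PR R K).mul_mem (C_mem_PR r) hv
    rw [map_lin'] at h
    rw [map_lin', Pi.smul_apply, Pi.smul_apply, Algebra.smul_def, Algebra.smul_def, C_mul, C_mul, C_mul]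
    have e : (C (algebraMap R K r) * (C (v 0) * g (X 0) + C (v 1) * g (X 1) + C γ) : P K) =
        C (algebraMap R K r) * C (v 0) * g (X 0) + C (algebraMap R K r) * C (v 1) * g (X 1) +
          C (algebraMap R K r) * C γ := by ring
    rwa [e] at h

theorem mem_Lt {g : Au K} {v : Fin 2 → K} :
    v ∈ Lt R g ↔ ∃ γ : K, g (C (v 0) * X 0 + C (v 1) * X 1 + C γ) ∈ PR R K := Iff.rfl

end

/-- the lattice spans -/
theorem Lt_span {R K : Type} [CommRing R] [IsDomain R] [Field K] [Algebra R K]
    [IsFractionRing R K] (g : Au K) (v : Fin 2 → K) : ∃ r : R, r ≠ 0 ∧ r • v ∈ Lt R g := by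
  classical
  let p : P K := g (C (v 0) * X 0 + C (v 1) * X 1 + C 0)
  obtain ⟨b, hb⟩ := IsLocalization.exist_integer_multiples_of_finset (nonZeroDivisors R)
    (p.support.image fun e => coeff e p)
  refine ⟨b, nonZeroDivisors.coe_ne_zero b, 0, ?_⟩
  have e : g (C (((b : R) • v) 0) * X 0 + C (((b : R) • v) 1) * X 1 + C 0) = C (algebraMap R K b) * p := by
    show _ = C (algebraMap R K b) * g (C (v 0) * X 0 + C (v 1) * X 1 + C 0)
    rw [map_lin', map_lin', Pi.smul_apply, Pi.smul_apply, Algebra.smul_def, Algebra.smul_def, C_mul, C_mul, C_0]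
    ring
  rw [e, mem_PR]
  intro m
  rw [coeff_C_mul]
  by_cases hm : coeff m p = 0
  · rw [hm, mul_zero]
    exact Subring.zero_mem _
  · obtain ⟨t, ht⟩ := hb (coeff m p) (Finset.mem_image_of_mem _ (mem_support_iff.2 hm))
    refine ⟨t, ?_⟩
    rw [ht, Algebra.smul_def]

/-- an automorphism sends linear polynomials in the lattice over the ring -/
theorem lattice {R K : Type} [CommRing R] [IsDomain R] [IsPrincipalIdealRing R] [Field K] [Algebra R K]
    [IsFractionRing R K] (g : Au K) : ∃ a ∈ A K, ∀ φ ∈ GR R K, g⁻¹ * φ * g ∈ A K →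
      (g * a)⁻¹ * φ * (g * a) ∈ AR R K := by
  classical
  obtain ⟨e, e', he, he', hdet⟩ := exists_minor g
  let T : (Fin 2 → K) →ₗ[K] (Fin 2 → K) :=
    { toFun := fun v => ![v 0 * coeff e (g (X 0)) + v 1 * coeff e (g (X 1)),
        v 0 * coeff e' (g (X 0)) + v 1 * coeff e' (g (X 1))]
      map_add' := by
        intro v w
        ext i
        fin_cases i
        · simp
          ring
        · simp
          ring
      map_smul' := by
        intro c v
        ext i
        fin_cases i
        · simp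
          ring
        · simp
          ring }
  have hT : Function.Injective T := by
    rw [injective_iff_map_eq_zero]
    intro v hv
    have h0 : v 0 * coeff e (g (X 0)) + v 1 * coeff e (g (X 1)) = 0 := congrFun hv 0
    have h1 : v 0 * coeff e' (g (X 0)) + v 1 * coeff e' (g (X 1)) = 0 := congrFun hv 1
    have h2 : v 0 = 0 := by
      have : (coeff e (g (X 0)) * coeff e' (g (X 1)) - coeff e' (g (X 0)) * coeff e (g (X 1))) * v 0 = 0 := by
        linear_combination coeff e' (g (X 1)) * h0 - coeff e (g (X 1)) * h1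
      exact (mul_eq_zero.1 this).resolve_left hdet
    have h3 : v 1 = 0 := by
      have : (coeff e (g (X 0)) * coeff e' (g (X 1)) - coeff e' (g (X 0)) * coeff e (g (X 1))) * v 1 = 0 := by
        linear_combination coeff e (g (X 0)) * h1 - coeff e' (g (X 0)) * h0
      exact (mul_eq_zero.1 this).resolve_left hdet
    ext i
    fin_cases i
    · exact h2
    · exact h3
  have hTN : ∀ v ∈ Lt R g, ∀ i, T v i ∈ (algebraMap R K).range := by
    rintro v ⟨γ, hγ⟩ i
    rw [map_lin', mem_PR] at hγ
    fin_cases i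
    · have := hγ e
      rw [coeff_add, coeff_add, coeff_C_mul, coeff_C_mul, coeff_C, if_neg (Ne.symm he), add_zero] at this
      exact this
    · have := hγ e'
      rw [coeff_add, coeff_add, coeff_C_mul, coeff_C_mul, coeff_C, if_neg (Ne.symm he'), add_zero] at this
      exact this
  obtain ⟨n, hn, hli, hgen⟩ := exists_basis R K (Lt R g) (Lt_span g) T hT hTN
  choose γ hγ using fun i => mem_Lt.1 (hn i)
  obtain ⟨a, ha, haX⟩ := exists_aff n hli γ
  have hu : ∀ i, g (a (X i)) ∈ PR R K := fun i => by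
    rw [haX i]
    exact hγ i
  have key : ∀ p ∈ PR R K, g⁻¹ p ∈ L1 K → (g * a)⁻¹ p ∈ PR R K := by
    intro p hp hp1
    obtain ⟨α, β, δ, hl⟩ := mem_L1.1 hp1
    have hgp : g (g⁻¹ p) = p := g.apply_symm_apply p
    have hv : ![α, β] ∈ Lt R g := by
      refine ⟨δ, ?_⟩
      show g (C α * X 0 + C β * X 1 + C δ) ∈ PR R K
      rw [← hl, hgp]
      exact hp
    obtain ⟨r, hr⟩ := hgen _ hv
    have h0 : α = algebraMap R K (r 0) * n 0 0 + algebraMap R K (r 1) * n 1 0 := by
      have := congrFun hr 0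
      simpa [Algebra.smul_def] using this
    have h1 : β = algebraMap R K (r 0) * n 0 1 + algebraMap R K (r 1) * n 1 1 := by
      have := congrFun hr 1
      simpa [Algebra.smul_def] using this
    let c : K := δ - algebraMap R K (r 0) * γ 0 - algebraMap R K (r 1) * γ 1
    have e1 : a (C (algebraMap R K (r 0)) * X 0 + C (algebraMap R K (r 1)) * X 1 + C c) = g⁻¹ p := by
      rw [map_lin', haX 0, haX 1, hl, h0, h1]
      show _ * _ + _ * _ + C (δ - algebraMap R K (r 0) * γ 0 - algebraMap R K (r 1) * γ 1) = _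
      rw [C_sub, C_sub, C_add, C_add, C_mul, C_mul, C_mul, C_mul, C_mul, C_mul]
      ring
    have e2 : (g * a)⁻¹ p = C (algebraMap R K (r 0)) * X 0 + C (algebraMap R K (r 1)) * X 1 + C c := by
      have h3 : (g * a) (C (algebraMap R K (r 0)) * X 0 + C (algebraMap R K (r 1)) * X 1 + C c) = p := by
        show g (a _) = p
        rw [e1, hgp]
      rw [← h3]
      exact (g * a).symm_apply_apply _
    have e3 : (C c : P K) = p - C (algebraMap R K (r 0)) * g (a (X 0)) - C (algebraMap R K (r 1)) * g (a (X 1)) := by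
      have h3 : g (a (C (algebraMap R K (r 0)) * X 0 + C (algebraMap R K (r 1)) * X 1 + C c)) = p := by
        rw [e1, hgp]
      have hC : ∀ t : K, g (C t) = C t := fun t => by
        have := g.commutes t
        rwa [algebraMap_eq] at this
      rw [map_lin', map_add, map_add, map_mul, map_mul, hC, hC, hC] at h3
      linear_combination h3
    have hc : (C c : P K) ∈ PR R K := by
      rw [e3]
      exact (PR R K).sub_mem ((PR R K).sub_mem hp ((PR R K).mul_mem (C_mem_PR _) (hu 0)))
        ((PR R K).mul_mem (C_mem_PR _) (hu 1))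
    rw [e2]
    exact (PR R K).add_mem ((PR R K).add_mem ((PR R K).mul_mem (C_mem_PR _) (X_mem_PR R 0))
      ((PR R K).mul_mem (C_mem_PR _) (X_mem_PR R 1))) hc
  have hX : ∀ i : Fin 2, (X i : P K) ∈ L1 K := fun i => mem_L1'.2 (totalDegree_X _).le
  have step : ∀ φ ∈ GR R K, g⁻¹ * φ * g ∈ A K → ∀ i, ((g * a)⁻¹ * φ * (g * a)) (X i) ∈ PR R K := by
    intro φ hφ hφA i
    show (g * a)⁻¹ (φ (g (a (X i)))) ∈ PR R K
    refine key _ ((hφ _).1 (hu i)) ?_
    show (g⁻¹ * φ * g) (a (X i)) ∈ L1 K
    exact (hφA _).1 ((ha _).1 (hX i))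
  refine ⟨a, ha, fun φ hφ hφA => ⟨?_, mem_GR (step φ hφ hφA) ?_⟩⟩
  · have e4 : (g * a)⁻¹ * φ * (g * a) = a⁻¹ * (g⁻¹ * φ * g) * a := by group
    rw [e4]
    exact (A K).mul_mem ((A K).mul_mem ((A K).inv_mem ha) hφA) ha
  · intro i
    have e5 : ((g * a)⁻¹ * φ * (g * a))⁻¹ = (g * a)⁻¹ * φ⁻¹ * (g * a) := by group
    rw [e5]
    refine step φ⁻¹ ((GR R K).inv_mem hφ) ?_ i
    have e6 : g⁻¹ * φ⁻¹ * g = (g⁻¹ * φ * g)⁻¹ := by group
    rw [e6]
    exact (A K).inv_mem hφA

end Pool.Agent.H54.PA
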