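import Mathlib
import Pool.Agent.H54.PA.Rg
import Pool.Agent.H54.PA.El1
import Pool.Agent.H54.DD.Alg

/-!
# The linear part of the affine group over `R`

* `exists_lin`: for `φ ∈ AR R K` let `Λ φ` be the matrix with the entry `coeff (single j 1) (φ (X i))` in row `j`, column `i` (it has entries in `R`: `mem_PR`). `(φ * ψ) (X i) = φ (ψ (X i))`, so
  `Λ (φ * ψ) = Λ φ * Λ ψ`: `ψ (X i) = ∑ k, ψ_ki X k + const`, `φ (ψ (X i)) = ∑ k, ψ_ki ∑ j, φ_jk X j + const`. Invertible because `Λ (φ⁻¹)` is the inverse. (`mem_A`, `mem_L1`; `algebraMap R K` is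
  injective.)
* `ext_sol`: if `f : G → Q`, `Q` in the class and `ker f` commutative, then `G` is in the class: `ext_zpowers` (`H54/DD/Alg`), the preimage of a cyclic group is solvable: a
  cyclic group by a commutative group (`solvable_of_ker_le_range` or `Group.IsSolvable` of an extension).
* `AR_mem`: `ker Λ`: `φ (X i) = X i + C (c i)`; they commute (`au_ext`).
-/

set_option autoImplicit false

namespace Pool.Agent.H54.PA

open MvPolynomial Pool.Agent.H98.FJ Pool.Agent.H54.DD

private theorem coeff_lin1 {K : Type} [Field K] (a b c : K) (j : Fin 2) :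
    coeff (Finsupp.single j 1) (C a * X 0 + C b * X 1 + C c : P K) = if j = 0 then a else b := by
  classical
  have n1 : (Finsupp.single 0 1 : Fin 2 →₀ ℕ) ≠ 0 := by
    intro h
    have := DFunLike.congr_fun h 0
    simp at this
  have n2 : (Finsupp.single 1 1 : Fin 2 →₀ ℕ) ≠ 0 := by
    intro h
    have := DFunLike.congr_fun h 1
    simp at this
  have n3 : (Finsupp.single 0 1 : Fin 2 →₀ ℕ) ≠ Finsupp.single 1 1 := by
    intro h
    have := DFunLike.congr_fun h 0
    simp at this
  rw [coeff_add, coeff_add, coeff_C_mul, coeff_C_mul, coeff_X, coeff_X, coeff_C]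
  fin_cases j
  · show a * (if Finsupp.single 0 1 = (Finsupp.single 0 1 : Fin 2 →₀ ℕ) then 1 else 0) +
      b * (if Finsupp.single 1 1 = (Finsupp.single 0 1 : Fin 2 →₀ ℕ) then 1 else 0) +
      (if 0 = (Finsupp.single 0 1 : Fin 2 →₀ ℕ) then c else 0) = if (0 : Fin 2) = 0 then a else b
    rw [if_pos rfl, if_neg n3.symm, if_neg n1.symm, if_pos rfl]
    ring
  · show a * (if Finsupp.single 0 1 = (Finsupp.single 1 1 : Fin 2 →₀ ℕ) then 1 else 0) +
      b * (if Finsupp.single 1 1 = (Finsupp.single 1 1 : Fin 2 →₀ ℕ) then 1 else 0) +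
      (if 0 = (Finsupp.single 1 1 : Fin 2 →₀ ℕ) then c else 0) = if (1 : Fin 2) = 0 then a else b
    rw [if_pos rfl, if_neg n3, if_neg n2.symm, if_neg (by decide)]
    ring

private theorem form_A {K : Type} [Field K] {φ : Au K} (hφ : φ ∈ A K) (i : Fin 2) : ∃ c : K,
    φ (X i) = C (coeff (Finsupp.single 0 1) (φ (X i))) * X 0 + C (coeff (Finsupp.single 1 1) (φ (X i))) * X 1 + C c := by
  have h := mem_A.1 hφ
  have h2 : φ (X i) ∈ L1 K := by
    fin_cases i
    · exact h.1
    · exact h.2
  obtain ⟨a, b, c, h3⟩ := mem_L1.1 h2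
  refine ⟨c, ?_⟩
  rw [h3, coeff_lin1, coeff_lin1, if_pos rfl, if_neg (by decide)]

theorem exists_lin (R K : Type) [CommRing R] [Field K] [Algebra R K] (h : Function.Injective (algebraMap R K)) :
    ∃ Λ : AR R K →* Matrix.GeneralLinearGroup (Fin 2) R, ∀ (φ : AR R K) (i j : Fin 2),
      algebraMap R K ((Λ φ).val j i) = coeff (Finsupp.single j 1) ((φ : Au K) (X i)) := by
  classical
  have h1 : ∀ (φ : AR R K) (i j : Fin 2), ∃ r : R, algebraMap R K r = coeff (Finsupp.single j 1) ((φ : Au K) (X i)) := by
    intro φ i j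
    have h2 : (X i : P K) ∈ PR R K := ⟨X i, map_X _ i⟩
    have h3 := (φ.2.2 (X i)).1 h2
    exact mem_PR.1 h3 _
  choose m hm using h1
  have hC : ∀ (φ : Au K) (t : K), φ (C t) = C t := fun φ t => by
    have := φ.commutes t
    rwa [algebraMap_eq] at this
  let F : AR R K →* Matrix (Fin 2) (Fin 2) R :=
    { toFun := fun φ => Matrix.of fun j i => m φ i j
      map_one' := by
        ext j i
        apply h
        show algebraMap R K (m 1 i j) = _
        rw [hm]
        show coeff (Finsupp.single j 1) (X i : P K) = _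
        rw [coeff_X, Matrix.one_apply]
        by_cases hij : i = j
        · rw [if_pos (by rw [hij]), if_pos hij.symm, map_one]
        · rw [if_neg, if_neg (fun e => hij e.symm), map_zero]
          intro e
          exact hij ((Finsupp.single_left_inj one_ne_zero).1 e)
      map_mul' := by
        intro φ ψ
        ext j i
        apply h
        rw [Matrix.mul_apply, Fin.sum_univ_two, map_add, map_mul, map_mul]
        show algebraMap R K (m (φ * ψ) i j) = algebraMap R K (m φ 0 j) * algebraMap R K (m ψ i 0) +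
          algebraMap R K (m φ 1 j) * algebraMap R K (m ψ i 1)
        rw [hm, hm, hm, hm, hm]
        obtain ⟨c, hc⟩ := form_A ψ.2.1 i
        show coeff (Finsupp.single j 1) ((φ : Au K) ((ψ : Au K) (X i))) = _
        conv_lhs => rw [hc]
        rw [map_add, map_add, map_mul, map_mul, hC, hC, hC, coeff_add, coeff_add, coeff_C_mul, coeff_C_mul, coeff_C, if_neg]
        · ring
        · intro e
          have := DFunLike.congr_fun e j
          simp at this }
  refine ⟨F.toHomUnits, fun φ i j => ?_⟩
  rw [← hm]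
  rfl

theorem ext_sol {C : (G : Type) → [Group G] → Prop} (hC : Inherits C) (hE : Extension C)
    (hS : ∀ (G : Type) [Group G], Group.IsSolvable G → C G) {G Q : Type} [Group G] [Group Q] (f : G →* Q) (hQ : C Q)
    (hf : ∀ x y : G, f x = 1 → f y = 1 → x * y = y * x) : C G := by
  refine ext_zpowers hC hE f hQ fun u => hS _ ?_
  let f' : (Subgroup.zpowers u).comap f →* Subgroup.zpowers u :=
    { toFun := fun x => ⟨f x.1, x.2⟩
      map_one' := Subtype.ext (map_one f)
      map_mul' := fun x y => Subtype.ext (map_mul f x.1 y.1) }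
  have h0 : ∀ x : f'.ker, f ((x : (Subgroup.zpowers u).comap f) : G) = 1 := fun x => congrArg Subtype.val x.2
  have h1 : Group.IsSolvable f'.ker := by
    let i1 : CommGroup f'.ker :=
      { (inferInstance : Group f'.ker) with
        mul_comm := fun x y => Subtype.ext (Subtype.ext (hf _ _ (h0 x) (h0 y))) }
    exact inferInstanceAs (Group.IsSolvable f'.ker)
  have h2 : Group.IsSolvable (Subgroup.zpowers u) := by
    let i2 : CommGroup (Subgroup.zpowers u) := IsCyclic.commGroup
    exact inferInstanceAs (Group.IsSolvable (Subgroup.zpowers u))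
  exact Group.isSolvable_of_ker_le_range f'.ker.subtype f' (by rw [Subgroup.range_subtype])

theorem AR_mem {C : (G : Type) → [Group G] → Prop} (hC : Inherits C) (hE : Extension C)
    (hS : ∀ (G : Type) [Group G], Group.IsSolvable G → C G) (R K : Type) [CommRing R] [Field K] [Algebra R K]
    (h : Function.Injective (algebraMap R K)) (hR : C (Matrix.GeneralLinearGroup (Fin 2) R)) : C (AR R K) := by
  classical
  obtain ⟨Λ, hΛ⟩ := exists_lin R K h
  refine ext_sol hC hE hS Λ hR fun x y hx hy => ?_
  have hf : ∀ z : AR R K, Λ z = 1 → ∀ i : Fin 2, ∃ c : K, (z : Au K) (X i) = X i + MvPolynomial.C c := by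
    intro z hz i
    obtain ⟨c, hc⟩ := form_A z.2.1 i
    refine ⟨c, ?_⟩
    rw [← hΛ, ← hΛ, hz, Units.val_one] at hc
    rw [hc]
    fin_cases i
    · show MvPolynomial.C (algebraMap R K ((1 : Matrix (Fin 2) (Fin 2) R) 0 0)) * X 0 +
        MvPolynomial.C (algebraMap R K ((1 : Matrix (Fin 2) (Fin 2) R) 1 0)) * X 1 + MvPolynomial.C c = X 0 + MvPolynomial.C c
      rw [Matrix.one_apply_eq, Matrix.one_apply_ne (by decide), map_one, map_zero, map_one, map_zero]
      ring
    · show MvPolynomial.C (algebraMap R K ((1 : Matrix (Fin 2) (Fin 2) R) 0 1)) * X 0 +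
        MvPolynomial.C (algebraMap R K ((1 : Matrix (Fin 2) (Fin 2) R) 1 1)) * X 1 + MvPolynomial.C c = X 1 + MvPolynomial.C c
      rw [Matrix.one_apply_eq, Matrix.one_apply_ne (by decide), map_one, map_zero, map_one, map_zero]
      ring
  choose c hc using hf x hx
  choose d hd using hf y hy
  have hCC : ∀ (φ : Au K) (t : K), φ (MvPolynomial.C t) = MvPolynomial.C t := fun φ t => by
    have := φ.commutes t
    rwa [algebraMap_eq] at this
  have key : ∀ i : Fin 2, ((x : Au K) * (y : Au K)) (X i) = ((y : Au K) * (x : Au K)) (X i) := by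
    intro i
    show (x : Au K) ((y : Au K) (X i)) = (y : Au K) ((x : Au K) (X i))
    rw [hc, hd, map_add, map_add, hc, hd, hCC, hCC]
    ring
  exact Subtype.ext (au_ext (key 0) (key 1))

end Pool.Agent.H54.PA
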