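import Mathlib
import Pool.Agent.H54.PA.Ele
import Pool.Agent.H13.PA.Jung

/-!
# Lower neighbours

Write `D h := (h (X 0)).totalDegree`, `d h := (h (X 1)).totalDegree` (both at least one: `deg_pos` in `H13/PA/Jung`).

* `hA_mul`: `a ∈ A`: `g (a (X i))` is a combination of `g (X 0)`, `g (X 1)` and constants (`mem_A`, `mem_L1`), so `max D(g a), d(g a) ≤ max (D g) (d g)`;
  the converse with `a⁻¹`. `hE_mul`: `e (X 1) = C b * X 1 + C c`, `b ≠ 0`, the same argument.
* `lower_A_unique`: `a (X 1) = C α * X 0 + C β * X 1 + C γ`. If `α ≠ 0`, then `g (a (X 1)) = C α * g (X 0) + C β * g (X 1) + C γ` has degree `D g`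
  because `d g < D g` and `0 < D g`; but `max D(g a), d(g a) = D g` by `hA_mul`, against `d(g a) < D(g a)`. So `α = 0`, `β ≠ 0` (`a` is injective), `mem_E`.
* `lower_E_unique`: `e (X 0) = C a * X 0 + q (X 1)`, `e (X 1) = C b * X 1 + C c`, `a, b ≠ 0`. `q (g (X 1)) = g (e (X 0)) - C a * g (X 0)` has degree
  at most `d g` (`d (g e) = d g`), so `natDegree q ≤ 1` (`sub_deg`), so `e (X 0) ∈ L1`: `mem_A`.
-/

set_option autoImplicit false

namespace Pool.Agent.H54.PA

open MvPolynomial

variable {K : Type} [Field K]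

theorem au_C (g : Au K) (t : K) : g (C t) = C t := by
  have h := g.commutes t
  rwa [algebraMap_eq] at h

theorem au_lin (g : Au K) (a b c : K) : g (C a * X 0 + C b * X 1 + C c) = C a * g (X 0) + C b * g (X 1) + C c := by
  rw [map_add, map_add, map_mul, map_mul, au_C, au_C, au_C]

theorem au_aeval (g : Au K) (q : Polynomial K) : g (Polynomial.aeval (X 1 : P K) q) = Polynomial.aeval (g (X 1)) q := by
  have h := Polynomial.aeval_algHom_apply (g : P K →ₐ[K] P K) (X 1) q
  exact h.symm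

private theorem deg_C_mul_le (a : K) (u : P K) : (C a * u).totalDegree ≤ u.totalDegree := by
  refine (totalDegree_mul _ _).trans ?_
  rw [totalDegree_C, zero_add]

private theorem lin_deg (u v : P K) (a b c : K) :
    (C a * u + C b * v + C c).totalDegree ≤ max u.totalDegree v.totalDegree := by
  refine (totalDegree_add _ _).trans (max_le ((totalDegree_add _ _).trans (max_le ?_ ?_)) ?_)
  · exact (deg_C_mul_le a u).trans (le_max_left _ _)
  · exact (deg_C_mul_le b v).trans (le_max_right _ _)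
  · rw [totalDegree_C]
    exact Nat.zero_le _

private theorem hA_le (g : Au K) {a : Au K} (ha : a ∈ A K) :
    max (g (a (X 0))).totalDegree (g (a (X 1))).totalDegree ≤ max (g (X 0)).totalDegree (g (X 1)).totalDegree := by
  obtain ⟨h0, h1⟩ := mem_A.1 ha
  obtain ⟨a0, b0, c0, e0⟩ := mem_L1.1 h0
  obtain ⟨a1, b1, c1, e1⟩ := mem_L1.1 h1
  rw [e0, e1, au_lin, au_lin]
  exact max_le (lin_deg _ _ _ _ _) (lin_deg _ _ _ _ _)

theorem hA_mul (g : Au K) {a : Au K} (ha : a ∈ A K) :
    max (g (a (X 0))).totalDegree (g (a (X 1))).totalDegree = max (g (X 0)).totalDegree (g (X 1)).totalDegree := by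
  refine le_antisymm (hA_le g ha) ?_
  have h := hA_le (g * a) ((A K).inv_mem ha)
  have h0 : ∀ p : P K, (g * a) (a⁻¹ p) = g p := by
    intro p
    rw [AlgEquiv.mul_apply]
    congr 1
    exact a.apply_symm_apply p
  rw [h0, h0] at h
  exact h

theorem hE_mul (g : Au K) {e : Au K} (he : e ∈ E K) : (g (e (X 1))).totalDegree = (g (X 1)).totalDegree := by
  obtain ⟨b, c, hb, h1⟩ := mem_E.1 he
  have hp := Pool.Agent.H13.PA.deg_pos g 1
  rw [h1, map_add, map_mul, au_C, au_C, deg_add_eq, deg_C_mul hb]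
  rw [deg_C_mul hb, totalDegree_C]
  omega

theorem lower_A_unique {g a : Au K} (ha : a ∈ A K) (h1 : (g (X 1)).totalDegree < (g (X 0)).totalDegree)
    (h2 : (g (a (X 1))).totalDegree < (g (a (X 0))).totalDegree) : a ∈ E K := by
  obtain ⟨α, β, γ, e1⟩ := mem_L1.1 (mem_A.1 ha).2
  have hα : α = 0 := by
    by_contra hα
    have h3 : (g (a (X 1))).totalDegree = (g (X 0)).totalDegree := by
      rw [e1, au_lin, add_assoc, deg_add_eq, deg_C_mul hα]
      rw [deg_C_mul hα]
      refine lt_of_le_of_lt (totalDegree_add _ _) (max_lt (lt_of_le_of_lt (deg_C_mul_le β _) h1) ?_)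
      rw [totalDegree_C]
      omega
    have h4 := hA_mul g ha
    rw [max_eq_left h1.le, max_eq_left h2.le] at h4
    omega
  rw [hα, C_0, zero_mul, zero_add] at e1
  refine mem_E.2 ⟨β, γ, ?_, e1⟩
  rintro rfl
  have hp := Pool.Agent.H13.PA.deg_pos a 1
  rw [e1, C_0, zero_mul, zero_add, totalDegree_C] at hp
  omega

theorem lower_E_unique [CharZero K] {g e : Au K} (he : e ∈ E K) (h1 : (g (X 0)).totalDegree ≤ (g (X 1)).totalDegree)
    (h2 : (g (e (X 0))).totalDegree ≤ (g (e (X 1))).totalDegree) : e ∈ A K := by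
  obtain ⟨b, c, hb, hX1⟩ := mem_E.1 he
  obtain ⟨a, q, ha, hX0⟩ := E_X0 he
  have hp := Pool.Agent.H13.PA.deg_pos g 1
  rw [hE_mul g he] at h2
  have h3 : Polynomial.aeval (g (X 1)) q = g (e (X 0)) + C (-a) * g (X 0) := by
    rw [hX0, map_add, map_mul, au_C, au_aeval, C_neg]
    ring
  have h4 : (Polynomial.aeval (g (X 1)) q).totalDegree ≤ (g (X 1)).totalDegree := by
    rw [h3]
    exact (totalDegree_add _ _).trans (max_le h2 ((deg_C_mul_le _ _).trans h1))
  rw [sub_deg hp] at h4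
  have h5 : q.natDegree ≤ 1 := by
    by_contra h6
    have h7 : 2 * (g (X 1)).totalDegree ≤ q.natDegree * (g (X 1)).totalDegree := Nat.mul_le_mul_right _ (by omega)
    omega
  rw [Polynomial.eq_X_add_C_of_natDegree_le_one h5] at hX0
  refine mem_A.2 ⟨mem_L1.2 ⟨a, q.coeff 1, q.coeff 0, ?_⟩, mem_L1.2 ⟨0, b, c, ?_⟩⟩
  · rw [hX0, map_add, map_mul, Polynomial.aeval_C, Polynomial.aeval_C, Polynomial.aeval_X, add_assoc]
    rfl
  · rw [hX1, C_0, zero_mul, zero_add]

end Pool.Agent.H54.PA
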