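import Mathlib
import Pool.Agent.H54.PA.Low

/-!
# Existence of lower neighbours

Write `D h := (h (X 0)).totalDegree`, `d h := (h (X 1)).totalDegree` (both at least one: `deg_pos` in `H13/PA/Jung`).

* `lower_A_exists`: `g ∉ A`, so `max (D g) (d g) > 1` (`mem_A`, `mem_L1'`). If `d g < D g`: `a = 1`. If `D g < d g`: `a` = the swap. If
  `D g = d g`: by `jung` there are `c`, `k ≥ 1` with `deg (g (X 0) - C c * g (X 1) ^ k) < D g` or
  `deg (g (X 1) - C c * g (X 0) ^ k) < d g`. As `D g = d g ≥ 2`, `k = 1` (`k ≥ 2`: the degree is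
  `k D g`). Take `a` with `a (X 1) = X 0 - C c * X 1`, `a (X 0) = X 1` (compositions of `exists_shear` and `exists_swap`), or
  `a (X 1) = X 1 - C c * X 0`, `a (X 0) = X 0`; `D (g a) = D g`.
* `lower_E_exists`: choose `q` for which `deg (g (X 0) + q (g (X 1)))` is minimal (`Nat.find` or well-founded minimum) and the shear `e` with
  `e (X 0) = X 0 + q (X 1)`, `e (X 1) = X 1`. Suppose `d (g e) < D (g e)` (then the sum is `> 2`). `jung` for `g e`: either
  `deg (g e (X 0) - C c * g (X 1) ^ k) < D (g e)`: against the minimality (`q - C c * X ^ k`), or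
  `deg (g (X 1) - C c * (g e (X 0)) ^ k) < d g`: impossible, because `c ≠ 0` and for `k ≥ 1` the degree is `k D (g e) > d g`.
-/

set_option autoImplicit false

namespace Pool.Agent.H54.PA

open MvPolynomial

variable {K : Type} [Field K]

/-- `deg (u - c v ^ k) < deg u` implies `c ≠ 0` and `k deg v ≤ deg u` -/
private theorem red_le {u v : P K} {c : K} {k : ℕ} (h : (u - C c * v ^ k).totalDegree < u.totalDegree) :
    k * v.totalDegree ≤ u.totalDegree := by
  by_contra h1
  push Not at h1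
  have hc : c ≠ 0 := by
    rintro rfl
    rw [C_0, zero_mul, sub_zero] at h
    exact lt_irrefl _ h
  have h2 : (C (-c) * v ^ k).totalDegree = k * v.totalDegree := by
    rw [deg_C_mul (neg_ne_zero.2 hc), deg_pow]
  have h3 : u - C c * v ^ k = C (-c) * v ^ k + u := by
    rw [C_neg]
    ring
  rw [h3, deg_add_eq (by rw [h2]; exact h1), h2] at h
  omega

theorem lower_A_exists [CharZero K] (g : Au K) (h : g ∉ A K) :
    ∃ a ∈ A K, (g (a (X 1))).totalDegree < (g (a (X 0))).totalDegree := by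
  obtain ⟨σ, hσ0, hσ1⟩ := exists_swap (K := K)
  have hX : ∀ i, (X i : P K) ∈ L1 K := fun i => mem_L1'.2 (totalDegree_X i).le
  have hσ : σ ∈ A K := mem_A.2 ⟨by rw [hσ0]; exact hX 1, by rw [hσ1]; exact hX 0⟩
  rcases lt_trichotomy (g (X 1)).totalDegree (g (X 0)).totalDegree with h1 | h1 | h1
  · exact ⟨1, (A K).one_mem, h1⟩
  · have h2 : 2 ≤ (g (X 0)).totalDegree := by
      by_contra h3
      apply h
      exact mem_A.2 ⟨mem_L1'.2 (by omega), mem_L1'.2 (by omega)⟩
    obtain ⟨c, k, hk, hck⟩ := Pool.Agent.H13.PA.jung g (by omega)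
    -- the shear
    obtain ⟨s, hs0, hs1⟩ := exists_shear (K := K) (Polynomial.C (-c) * Polynomial.X)
    have hs0' : s (X 0) = X 0 - C c * X 1 := by
      rw [hs0, map_mul, Polynomial.aeval_C, Polynomial.aeval_X]
      have : (algebraMap K (P K)) (-c) = - C c := by
        rw [map_neg]
        rfl
      rw [this]
      ring
    have hs : s ∈ A K := by
      refine mem_A.2 ⟨?_, by rw [hs1]; exact hX 1⟩
      rw [hs0']
      refine mem_L1.2 ⟨1, -c, 0, ?_⟩
      rw [C_1, C_neg, C_0]
      ring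
    rcases hck with hck | hck
    · have h3 := red_le hck
      have hk1 : k = 1 := by
        by_contra hk1
        have h4 : 2 * (g (X 1)).totalDegree ≤ k * (g (X 1)).totalDegree := Nat.mul_le_mul_right _ (by omega)
        omega
      subst hk1
      refine ⟨s * σ, (A K).mul_mem hs hσ, ?_⟩
      rw [AlgEquiv.mul_apply, AlgEquiv.mul_apply, hσ0, hσ1, hs0', hs1, map_sub, map_mul, au_C, h1]
      rwa [pow_one] at hck
    · have h3 := red_le hck
      have hk1 : k = 1 := by
        by_contra hk1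
        have h4 : 2 * (g (X 0)).totalDegree ≤ k * (g (X 0)).totalDegree := Nat.mul_le_mul_right _ (by omega)
        omega
      subst hk1
      refine ⟨σ * (s * σ), (A K).mul_mem hσ ((A K).mul_mem hs hσ), ?_⟩
      rw [AlgEquiv.mul_apply, AlgEquiv.mul_apply, AlgEquiv.mul_apply, AlgEquiv.mul_apply, hσ0, hσ1, hs0', hs1,
        map_sub, map_mul, au_C, hσ0, hσ1, map_sub, map_mul, au_C, ← h1]
      rwa [pow_one] at hck
  · exact ⟨σ, hσ, by rw [hσ0, hσ1]; exact h1⟩

theorem lower_E_exists [CharZero K] (g : Au K) :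
    ∃ e ∈ E K, (g (e (X 0))).totalDegree ≤ (g (e (X 1))).totalDegree := by
  obtain ⟨f, hf⟩ : ∃ f : Polynomial K → ℕ, ∀ q, f q = (g (X 0) + Polynomial.aeval (g (X 1)) q).totalDegree := ⟨_, fun _ => rfl⟩
  obtain ⟨n, ⟨q, hq⟩, hn⟩ := Nat.lt_wfRel.wf.has_min (Set.range f) ⟨f 0, 0, rfl⟩
  have hmin : ∀ q', f q ≤ f q' := by
    intro q'
    rw [hq]
    by_contra hc
    exact hn (f q') ⟨q', rfl⟩ (not_le.1 hc)
  obtain ⟨e, he0, he1⟩ := exists_shear (K := K) q
  have he : e ∈ E K := mem_E.2 ⟨1, 0, one_ne_zero, by rw [he1, C_1, C_0, one_mul, add_zero]⟩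
  refine ⟨e, he, ?_⟩
  by_contra hlt
  push Not at hlt
  have hp := Pool.Agent.H13.PA.deg_pos g 1
  have h0 : g (e (X 0)) = g (X 0) + Polynomial.aeval (g (X 1)) q := by
    rw [he0, map_add, au_aeval]
  have h1 : g (e (X 1)) = g (X 1) := by rw [he1]
  rw [h1] at hlt
  obtain ⟨c, k, hk, hck⟩ := Pool.Agent.H13.PA.jung (g * e) (by
    rw [AlgEquiv.mul_apply, AlgEquiv.mul_apply, h1]
    omega)
  rw [AlgEquiv.mul_apply, AlgEquiv.mul_apply, h1] at hck
  rcases hck with hck | hck
  · have h2 := hmin (q - Polynomial.C c * Polynomial.X ^ k)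
    rw [hf, hf, ← h0, map_sub, map_mul, map_pow, Polynomial.aeval_C, Polynomial.aeval_X, add_sub, ← h0] at h2
    exact absurd hck (not_lt.2 h2)
  · have h3 := red_le hck
    have h4 : 1 * (g (e (X 0))).totalDegree ≤ k * (g (e (X 0))).totalDegree := Nat.mul_le_mul_right _ hk
    omega

end Pool.Agent.H54.PA
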