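import Mathlib
import Pool.Agent.H54.PA.Defs

/-!
# Number fields: roots of unity, countability

* `mu_fin`: a root of unity is integral and has absolute value one in every complex embedding: `NumberField.Embeddings.finite_of_norm_le`
  (with `A = ℂ`, `B = 1`).
* `countable_au`: `K` is countable (a finite-dimensional space over `ℚ`), so `MvPolynomial (Fin 2) K` is countable, and `φ ↦ (φ (X 0), φ (X 1))` is injective.
-/

set_option autoImplicit false

namespace Pool.Agent.H54.PA

open MvPolynomial

theorem mu_fin (K : Type) [Field K] [NumberField K] : {z : K | ∃ n : ℕ, 0 < n ∧ z ^ n = 1}.Finite := by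
  refine (NumberField.Embeddings.finite_of_norm_le K ℂ 1).subset ?_
  rintro z ⟨n, hn, hz⟩
  refine ⟨IsIntegral.of_pow hn (by rw [hz]; exact isIntegral_one), fun φ => le_of_eq ?_⟩
  refine (pow_eq_one_iff_of_nonneg (norm_nonneg _) hn.ne').1 ?_
  rw [← norm_pow, ← map_pow, hz, map_one, norm_one]

theorem countable_au (K : Type) [Field K] [NumberField K] : Countable (Au K) := by
  have hK : Countable K := (Module.finBasis ℚ K).equivFun.injective.countable
  have hP : Countable (P K) := by
    rw [← Cardinal.mk_le_aleph0_iff]
    refine MvPolynomial.cardinalMk_le_max.trans ?_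
    refine max_le (max_le Cardinal.mk_le_aleph0 ?_) le_rfl
    exact Cardinal.mk_le_aleph0
  refine Function.Injective.countable (f := fun φ : Au K => (φ (X 0), φ (X 1))) ?_
  intro φ ψ h
  have h0 : φ (X 0) = ψ (X 0) := congrArg Prod.fst h
  have h1 : φ (X 1) = ψ (X 1) := congrArg Prod.snd h
  have h2 : (φ : P K →ₐ[K] P K) = (ψ : P K →ₐ[K] P K) := by
    refine MvPolynomial.algHom_ext fun i => ?_
    fin_cases i
    · exact h0
    · exact h1
  exact AlgEquiv.ext fun p => DFunLike.congr_fun h2 p

end Pool.Agent.H54.PA
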