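import Mathlib
import Pool.Agent.H54.PA.Nf

/-!
# Roots of unity in finitely generated fields of characteristic zero

* `alg_fin`: `F / ℚ` finitely generated, `M = algebraicClosure ℚ F`. Let `x : ι → F` be a transcendence basis (`exists_isTranscendenceBasis'`), `F0 = adjoin ℚ (range x)`.
  `F / F0` is algebraic (`IsTranscendenceBasis.isAlgebraic_field`) and essentially of finite type, so finite (`Algebra.finite_of_essFiniteType_of_isAlgebraic`), of degree `D`.
  `x` is algebraically independent over `M` (`AlgebraicIndependent.extendScalars`, in `Mathlib/RingTheory/AlgebraicIndependent/AlgebraicClosure.lean`; there is already a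
  version for `integralClosure` / `algebraicClosure`). A family `e_i` in `M`, linearly independent over `ℚ`, is linearly independent over `F0` in `F`: clear denominators (an element
  of `F0` is a quotient of elements of `Algebra.adjoin ℚ (range x)`), `∑ f_i(x) e_i = 0` with `f_i ∈ MvPolynomial ι ℚ`; then `∑ C e_i * map f_i ∈ MvPolynomial ι M` vanishes at `x`, so it is
  zero, and each of its coefficients `∑ c_i e_i`, `c_i ∈ ℚ`, vanishes, so `f_i = 0`. So every finite independent family has at most `D` members, `M / ℚ` is finite.
  (Other proof: `M` and `F0` are linearly disjoint over `ℚ`.)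
* `mu_ess`: a root of unity of `F` is in `M`, a number field: `mu_fin` (`Nf`).
* `mu_adj`: `IntermediateField.adjoin ℚ S`, `S` finite, is essentially of finite type (`IntermediateField.essFiniteType_iff`).
-/

set_option autoImplicit false

namespace Pool.Agent.H54.PA

theorem alg_fin (F : Type) [Field F] [CharZero F] [Algebra.EssFiniteType ℚ F] :
    FiniteDimensional ℚ (algebraicClosure ℚ F) := by
  obtain ⟨ι, x, hx⟩ := exists_isTranscendenceBasis' ℚ F
  have halg : Algebra.IsAlgebraic (IntermediateField.adjoin ℚ (Set.range x)) F := hx.isAlgebraic_field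
  have hess : Algebra.EssFiniteType (IntermediateField.adjoin ℚ (Set.range x)) F :=
    Algebra.EssFiniteType.of_comp ℚ _ F
  have hfin : Module.Finite (IntermediateField.adjoin ℚ (Set.range x)) F :=
    Algebra.finite_of_essFiniteType_of_isAlgebraic
  have hxM : AlgebraicIndependent (algebraicClosure ℚ F) x := hx.1.algebraicClosure
  let b := Module.Basis.ofVectorSpace ℚ (algebraicClosure ℚ F)
  have hli : LinearIndependent (IntermediateField.adjoin ℚ (Set.range x)) (fun i => (b i : F)) := by
    open scoped IntermediateField.algebraAdjoinAdjoin in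
    rw [← LinearIndependent.iff_fractionRing (R := Algebra.adjoin ℚ (Set.range x))]
    rw [linearIndependent_iff']
    intro s g hg i hi
    have hf : ∀ j, ∃ f : MvPolynomial ι ℚ, (MvPolynomial.aeval x f : F) = (g j : F) := by
      intro j
      have h1 : ∀ z ∈ Algebra.adjoin ℚ (Set.range x), ∃ f : MvPolynomial ι ℚ, (MvPolynomial.aeval x f : F) = z := by
        intro z hz
        rw [Algebra.adjoin_range_eq_range_aeval] at hz
        exact hz
      exact h1 _ (g j).2
    choose f hf using hf
    have h1 : ∑ j ∈ s, MvPolynomial.C (b j) * MvPolynomial.map (algebraMap ℚ (algebraicClosure ℚ F)) (f j) = 0 := by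
      apply hxM
      rw [map_zero, map_sum, ← hg]
      refine Finset.sum_congr rfl fun j _ => ?_
      rw [map_mul, MvPolynomial.aeval_C, MvPolynomial.aeval_map_algebraMap, hf, mul_comm]
      rfl
    have h2 : f i = 0 := by
      ext m
      have h3 := congrArg (MvPolynomial.coeff m) h1
      rw [MvPolynomial.coeff_sum] at h3
      simp only [MvPolynomial.coeff_C_mul, MvPolynomial.coeff_map, MvPolynomial.coeff_zero] at h3
      have h4 : ∑ j ∈ s, (MvPolynomial.coeff m (f j)) • b j = 0 := by
        rw [← h3]
        refine Finset.sum_congr rfl fun j _ => ?_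
        rw [Algebra.smul_def, mul_comm]
      rw [MvPolynomial.coeff_zero]
      exact linearIndependent_iff'.1 b.linearIndependent s _ h4 i hi
    apply Subtype.ext
    have h3 := hf i
    rw [h2, map_zero] at h3
    exact h3.symm
  have hF := hli.finite
  exact Module.Finite.of_basis b

theorem mu_ess (F : Type) [Field F] [CharZero F] [Algebra.EssFiniteType ℚ F] :
    {z : F | ∃ n : ℕ, 0 < n ∧ z ^ n = 1}.Finite := by
  have h1 := alg_fin F
  have h0 : NumberField (algebraicClosure ℚ F) := { to_charZero := inferInstance, to_finiteDimensional := h1 }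
  refine ((mu_fin (algebraicClosure ℚ F)).image (fun z : algebraicClosure ℚ F => (z : F))).subset ?_
  rintro z ⟨n, hn, hz⟩
  have hint : IsIntegral ℚ z := IsIntegral.of_pow hn (by rw [hz]; exact isIntegral_one)
  refine ⟨⟨z, mem_algebraicClosure_iff.2 hint.isAlgebraic⟩, ⟨n, hn, Subtype.ext hz⟩, rfl⟩

theorem mu_adj (L : Type) [Field L] [CharZero L] (S : Finset L) :
    {z : IntermediateField.adjoin ℚ (S : Set L) | ∃ n : ℕ, 0 < n ∧ z ^ n = 1}.Finite := by
  have h1 : Algebra.EssFiniteType ℚ (IntermediateField.adjoin ℚ (S : Set L)) :=
    IntermediateField.essFiniteType_iff.2 ⟨S, rfl⟩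
  exact mu_ess _

end Pool.Agent.H54.PA
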