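import Mathlib
import Pool.Agent.H54.PA.Ele

/-!
# The triangular group is solvable

`φ ∈ E`: `φ (X 1) = C b * X 1 + C c`, `φ (X 0) = C a * X 0 + q (X 1)`, `a, b ≠ 0` (`mem_E`, `E_X0`), and `(φ * ψ) G = φ (ψ G)`.

* `a` and `b` are multiplicative. Commutators have `a = b = 1`; the elements with `a = b = 1` have additive `c`, so their commutators have `a = b = 1`, `c = 0`; the elements
  `X 0 ↦ X 0 + q (X 1)`, `X 1 ↦ X 1` commute. So the third derived subgroup is trivial. In Lean either `isSolvable_def` / `derivedSeries` with three explicit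
  subgroups of `E K` (`Subgroup.commutator_le`), or three homomorphisms and `solvable_of_ker_le_range`.
-/

set_option autoImplicit false

namespace Pool.Agent.H54.PA

open MvPolynomial

section

variable {K : Type} [Field K]

private def D (φ : Au K) (a b c : K) (q : Polynomial K) : Prop :=
  φ (X 0) = C a * X 0 + Polynomial.aeval (X 1 : P K) q ∧ φ (X 1) = C b * X 1 + C c

private theorem aut_C (φ : Au K) (a : K) : φ (C a) = C a := by
  have h := φ.commutes a
  rwa [algebraMap_eq] at h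

private theorem D_mul {φ ψ : Au K} {a b c a' b' c' : K} {q q' : Polynomial K} (h : D φ a b c q) (h' : D ψ a' b' c' q') :
    D (φ * ψ) (a' * a) (b' * b) (b' * c + c')
      (Polynomial.C a' * q + q'.comp (Polynomial.C b * Polynomial.X + Polynomial.C c)) := by
  constructor
  · show φ (ψ (X 0)) = _
    rw [h'.1, map_add, map_mul, aut_C, h.1]
    have h1 : φ (Polynomial.aeval (X 1 : P K) q') = Polynomial.aeval (φ (X 1)) q' :=
      (Polynomial.aeval_algHom_apply (φ : P K →ₐ[K] P K) (X 1) q').symm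
    have h2 : Polynomial.aeval (X 1 : P K) (Polynomial.C b * Polynomial.X + Polynomial.C c) = C b * X 1 + C c := by
      rw [map_add, map_mul, Polynomial.aeval_C, Polynomial.aeval_C, Polynomial.aeval_X, algebraMap_eq]
    rw [h1, h.2, map_add, Polynomial.aeval_comp, h2, map_mul (Polynomial.aeval (X 1 : P K)), Polynomial.aeval_C, algebraMap_eq, C_mul]
    ring
  · show φ (ψ (X 1)) = _
    rw [h'.2, map_add, map_mul, aut_C, aut_C, h.2, C_mul, C_add, C_mul]
    ring

private theorem D_uniq {φ : Au K} {a b c a' b' c' : K} {q q' : Polynomial K} (h : D φ a b c q) (h' : D φ a' b' c' q') :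
    a = a' ∧ b = b' ∧ c = c' ∧ q = q' := by
  have h1 := h.2.symm.trans h'.2
  have h2 := h.1.symm.trans h'.1
  have h3 := lin_inj (K := K) (a := 0) (b := b) (c := c) (a' := 0) (b' := b') (c' := c') (by rw [C_0, zero_mul, zero_add, zero_add]; exact h1)
  have h4 : ∀ (r : K) (s : Polynomial K), (aeval ![0, X 1] : P K →ₐ[K] P K) (C r * X 0 + Polynomial.aeval (X 1 : P K) s) =
      Polynomial.aeval (X 1 : P K) s := by
    intro r s
    rw [map_add, map_mul, aeval_X, ← Polynomial.aeval_algHom_apply, aeval_X]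
    simp
  have h5 : q = q' := by
    apply aeval_X1_inj
    rw [← h4 a q, ← h4 a' q', h2]
  have h6 : a = a' := by
    rw [h5] at h2
    have h7 := add_right_cancel h2
    exact (lin_inj (K := K) (a := a) (b := 0) (c := 0) (a' := a') (b' := 0) (c' := 0) (by rw [C_0, zero_mul, add_zero, add_zero]; rw [add_zero, add_zero]; exact h7)).1
  exact ⟨h6, h3.2.1, h3.2.2, h5⟩

private theorem exD [CharZero K] (φ : E K) : ∃ (a b c : K) (q : Polynomial K), a ≠ 0 ∧ b ≠ 0 ∧ D (φ : Au K) a b c q := by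
  obtain ⟨b, c, hb, h1⟩ := mem_E.1 φ.2
  obtain ⟨a, q, ha, h0⟩ := E_X0 φ.2
  exact ⟨a, b, c, q, ha, hb, h0, h1⟩

end

theorem E_solvable (K : Type) [Field K] [CharZero K] : Group.IsSolvable (E K) := by
  choose a b c q ha hb hD using fun φ : E K => exD φ
  have hm : ∀ φ ψ : E K, a (φ * ψ) = a ψ * a φ ∧ b (φ * ψ) = b ψ * b φ ∧ c (φ * ψ) = b ψ * c φ + c ψ ∧
      q (φ * ψ) = Polynomial.C (a ψ) * q φ + (q ψ).comp (Polynomial.C (b φ) * Polynomial.X + Polynomial.C (c φ)) :=
    fun φ ψ => D_uniq (hD (φ * ψ)) (D_mul (hD φ) (hD ψ))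
  let f1 : E K →* Kˣ × Kˣ := MonoidHom.mk' (fun φ => (Units.mk0 (a φ) (ha φ), Units.mk0 (b φ) (hb φ))) (by
    intro φ ψ
    apply Prod.ext
    · apply Units.ext
      show a (φ * ψ) = a φ * a ψ
      rw [(hm φ ψ).1, mul_comm]
    · apply Units.ext
      show b (φ * ψ) = b φ * b ψ
      rw [(hm φ ψ).2.1, mul_comm])
  have hk : ∀ φ : f1.ker, a φ = 1 ∧ b φ = 1 := by
    intro φ
    have h := MonoidHom.mem_ker.1 φ.2
    constructor
    · have h1 := congrArg (fun u : Kˣ × Kˣ => (u.1 : K)) h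
      exact h1
    · have h1 := congrArg (fun u : Kˣ × Kˣ => (u.2 : K)) h
      exact h1
  let f2 : f1.ker →* Multiplicative K := MonoidHom.mk' (fun φ => Multiplicative.ofAdd (c φ)) (by
    intro φ ψ
    show Multiplicative.ofAdd (c (φ * ψ : E K)) = Multiplicative.ofAdd (c φ + c ψ)
    rw [(hm φ ψ).2.2.1, (hk ψ).2, one_mul])
  have hcom : ∀ x y : f2.ker, x * y = y * x := by
    rintro ⟨⟨φ, hφ⟩, hφ'⟩ ⟨⟨ψ, hψ⟩, hψ'⟩
    have h1 : c φ = 0 := MonoidHom.mem_ker.1 hφ'
    have h2 : c ψ = 0 := MonoidHom.mem_ker.1 hψ'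
    have k1 := hk ⟨φ, hφ⟩
    have k2 := hk ⟨ψ, hψ⟩
    simp only at k1 k2
    apply Subtype.ext
    apply Subtype.ext
    apply Subtype.ext
    show ((φ * ψ : E K) : Au K) = ((ψ * φ : E K) : Au K)
    have d1 := hD (φ * ψ)
    have d2 := hD (ψ * φ)
    have e1 := hm φ ψ
    have e2 := hm ψ φ
    rw [e1.1, e1.2.1, e1.2.2.1, e1.2.2.2, k1.1, k1.2, k2.1, k2.2, h1, h2] at d1
    rw [e2.1, e2.2.1, e2.2.2.1, e2.2.2.2, k1.1, k1.2, k2.1, k2.2, h1, h2] at d2
    apply au_ext
    · rw [d1.1, d2.1]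
      simp [add_comm]
    · rw [d1.2, d2.2]
  have s2 : Group.IsSolvable f2.ker := Group.isSolvable_of_comm hcom
  have s1 : Group.IsSolvable f1.ker :=
    Group.isSolvable_of_ker_le_range f2.ker.subtype f2 (by rw [Subgroup.range_subtype])
  exact Group.isSolvable_of_ker_le_range f1.ker.subtype f1 (by rw [Subgroup.range_subtype])

end Pool.Agent.H54.PA
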