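import Mathlib

/-!
# A graph with a height function and unique lower neighbours is a tree

* acyclic: in a cycle take a vertex of maximal height; its two neighbours in the cycle are different and both lower (compare
  `Pool/Agent/H54/TT/Hgt.lean`, `acyclic_of_height`).
* connected: strong induction on the height: every vertex is reachable from `r`.
-/

set_option autoImplicit false

namespace Pool.Agent.H54.PA

theorem tree_of_height {V : Type*} (G : SimpleGraph V) (ht : V → ℕ) (r : V)
    (h1 : ∀ a b, G.Adj a b → ht a ≠ ht b)
    (h2 : ∀ a b c, G.Adj a b → G.Adj a c → ht b < ht a → ht c < ht a → b = c)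
    (h3 : ∀ a, a ≠ r → ∃ b, G.Adj a b ∧ ht b < ht a) : G.IsTree := by
  classical
  have hreach : ∀ n : ℕ, ∀ a, ht a = n → G.Reachable a r := by
    intro n
    induction n using Nat.strong_induction_on with
    | _ n ih =>
      intro a ha
      by_cases har : a = r
      · rw [har]
      · obtain ⟨b, hb, hlt⟩ := h3 a har
        exact hb.reachable.trans (ih (ht b) (ha ▸ hlt) b rfl)
  have hconn : G.Connected := by
    have : Nonempty V := ⟨r⟩
    exact SimpleGraph.Connected.mk fun a b =>
      (hreach _ a rfl).trans (hreach _ b rfl).symm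
  refine ⟨hconn, ?_⟩
  intro v c hc
  obtain ⟨x, hx, hmax⟩ := c.support.toFinset.exists_max_image ht
    ⟨v, by simp⟩
  have hx' : x ∈ c.support := by simpa using hx
  have hc' := hc.rotate hx'
  set d := c.rotate x hx'
  have hsup : ∀ y, y ∈ d.support → ht y ≤ ht x := by
    intro y hy
    refine hmax y ?_
    rw [List.mem_toFinset]
    exact (SimpleGraph.Walk.mem_support_rotate_iff c x hx').1 hy
  have hn : ¬ d.Nil := hc'.not_nil
  have e1 : G.Adj x d.snd := d.adj_snd hn
  have e2 : G.Adj x d.penultimate := (d.adj_penultimate hn).symm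
  have s1 : ht d.snd ≤ ht x := hsup _ (d.getVert_mem_support 1)
  have s2 : ht d.penultimate ≤ ht x := hsup _ (d.getVert_mem_support _)
  have n1 := h1 _ _ e1
  have n2 := h1 _ _ e2
  exact hc'.snd_ne_penultimate (h2 x _ _ e1 e2 (by omega) (by omega))

end Pool.Agent.H54.PA
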