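import Mathlib
import Pool.Agent.H54.PA.Lo2
import Pool.Agent.H54.PA.Toh

/-!
# The tree

`Tr K` (`Defs`) is a tree: `tree_of_height` with the heights `2 * max deg (g (X 0)), deg (g (X 1))` of `g A` and `2 * deg (g (X 1)) + 1` of `g E`
(well defined by `hA_mul`, `hE_mul`; `Quotient.lift` with `QuotientGroup.leftRel_apply`: `g⁻¹ * g' ∈ A`), `r = A`.

* different heights: parity.
* `g A` and `g E` are adjacent. `g E` is lower than `g A` iff `deg g (X 1) < deg g (X 0)`; `g A` is lower than `g E` iff `deg g (X 0) ≤ deg g (X 1)`.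
* Two lower neighbours of a vertex `x A`: they are `g E` and `g a E` with `x A = g A`, `a ∈ A`: `lower_A_unique` (the heights of `g A` and `g a A` are
  `2 deg g (X 0)` and `2 deg g (a (X 0))`) gives `a ∈ E`. The same for `g E`: `g A` and `g e A`, `e ∈ E`: `lower_E_unique`.
* Existence: `lower_A_exists`, `lower_E_exists`: `g a E` is adjacent to `g a A = g A`.
-/

set_option autoImplicit false

namespace Pool.Agent.H54.PA

open MvPolynomial

variable {K : Type} [Field K]

theorem adj_iff {x y : Vt K} : (Tr K).Adj x y ↔ ∃ g : Au K,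
    (x = Sum.inl (g : Au K ⧸ A K) ∧ y = Sum.inr (g : Au K ⧸ E K)) ∨
    (y = Sum.inl (g : Au K ⧸ A K) ∧ x = Sum.inr (g : Au K ⧸ E K)) := Iff.rfl

/-- there is a height function -/
theorem exists_ht (K : Type) [Field K] : ∃ ht : Vt K → ℕ, ∀ g : Au K,
    ht (Sum.inl (g : Au K ⧸ A K)) = 2 * max (g (X 0)).totalDegree (g (X 1)).totalDegree ∧
    ht (Sum.inr (g : Au K ⧸ E K)) = 2 * (g (X 1)).totalDegree + 1 := by
  refine ⟨Sum.elim
    (Quotient.lift (fun g : Au K => 2 * max (g (X 0)).totalDegree (g (X 1)).totalDegree) ?_)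
    (Quotient.lift (fun g : Au K => 2 * (g (X 1)).totalDegree + 1) ?_), fun g => ⟨rfl, rfl⟩⟩
  · intro g g' h
    have h1 : g⁻¹ * g' ∈ A K := QuotientGroup.leftRel_apply.1 h
    have h2 := hA_mul g h1
    have h3 : ∀ p : P K, g ((g⁻¹ * g') p) = g' p := by
      intro p
      rw [← AlgEquiv.mul_apply, mul_inv_cancel_left]
    rw [h3, h3] at h2
    show 2 * _ = 2 * _
    rw [h2]
  · intro g g' h
    have h1 : g⁻¹ * g' ∈ E K := QuotientGroup.leftRel_apply.1 h
    have h2 := hE_mul g h1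
    have h3 : ∀ p : P K, g ((g⁻¹ * g') p) = g' p := by
      intro p
      rw [← AlgEquiv.mul_apply, mul_inv_cancel_left]
    rw [h3] at h2
    show 2 * _ + 1 = 2 * _ + 1
    rw [h2]

theorem isTree (K : Type) [Field K] [CharZero K] : (Tr K).IsTree := by
  obtain ⟨ht, hht⟩ := exists_ht K
  refine tree_of_height (Tr K) ht (Sum.inl ((1 : Au K) : Au K ⧸ A K)) ?_ ?_ ?_
  · rintro a b ⟨g, ⟨rfl, rfl⟩ | ⟨rfl, rfl⟩⟩
    · rw [(hht g).1, (hht g).2]
      omega
    · rw [(hht g).1, (hht g).2]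
      omega
  · rintro a b c ⟨g, ⟨rfl, rfl⟩ | ⟨rfl, rfl⟩⟩ ⟨g', ⟨h1, rfl⟩ | ⟨rfl, h1⟩⟩ hb hc
    · have h2 : g⁻¹ * g' ∈ A K := QuotientGroup.eq.1 (Sum.inl_injective h1)
      have h3 : ∀ p : P K, g ((g⁻¹ * g') p) = g' p := by
        intro p
        rw [← AlgEquiv.mul_apply, mul_inv_cancel_left]
      rw [h1, (hht g').1, (hht g').2] at hc
      rw [(hht g).1, (hht g).2] at hb
      have h4 : g⁻¹ * g' ∈ E K := by
        refine lower_A_unique (g := g) h2 (by omega) ?_
        rw [h3, h3]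
        omega
      exact congrArg Sum.inr (QuotientGroup.eq.2 h4)
    · cases h1
    · cases h1
    · have h2 : g⁻¹ * g' ∈ E K := QuotientGroup.eq.1 (Sum.inr_injective h1)
      have h3 : ∀ p : P K, g ((g⁻¹ * g') p) = g' p := by
        intro p
        rw [← AlgEquiv.mul_apply, mul_inv_cancel_left]
      rw [h1, (hht g').1, (hht g').2] at hc
      rw [(hht g).1, (hht g).2] at hb
      have h4 : g⁻¹ * g' ∈ A K := by
        refine lower_E_unique (g := g) h2 (by omega) ?_
        rw [h3, h3]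
        omega
      exact congrArg Sum.inl (QuotientGroup.eq.2 h4)
  · rintro (a | a) har
    · obtain ⟨g, rfl⟩ := QuotientGroup.mk_surjective a
      have hg : g ∉ A K := by
        intro hg
        apply har
        refine congrArg Sum.inl (QuotientGroup.eq.2 ?_)
        rw [mul_one]
        exact (A K).inv_mem hg
      obtain ⟨x, hx, hlt⟩ := lower_A_exists g hg
      have h1 : (Sum.inl (g : Au K ⧸ A K) : Vt K) = Sum.inl ((g * x : Au K) : Au K ⧸ A K) := by
        refine congrArg Sum.inl (QuotientGroup.eq.2 ?_)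
        rwa [inv_mul_cancel_left]
      refine ⟨Sum.inr ((g * x : Au K) : Au K ⧸ E K), ⟨g * x, Or.inl ⟨h1, rfl⟩⟩, ?_⟩
      rw [h1, (hht (g * x)).1, (hht (g * x)).2, AlgEquiv.mul_apply, AlgEquiv.mul_apply]
      omega
    · obtain ⟨g, rfl⟩ := QuotientGroup.mk_surjective a
      obtain ⟨x, hx, hle⟩ := lower_E_exists g
      have h1 : (Sum.inr (g : Au K ⧸ E K) : Vt K) = Sum.inr ((g * x : Au K) : Au K ⧸ E K) := by
        refine congrArg Sum.inr (QuotientGroup.eq.2 ?_)
        rwa [inv_mul_cancel_left]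
      refine ⟨Sum.inl ((g * x : Au K) : Au K ⧸ A K), ⟨g * x, Or.inr ⟨rfl, h1⟩⟩, ?_⟩
      rw [h1, (hht (g * x)).1, (hht (g * x)).2, AlgEquiv.mul_apply, AlgEquiv.mul_apply]
      omega

end Pool.Agent.H54.PA
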