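import Mathlib
import Pool.Agent.H54.PA.Defs

/-!
# Algebraic extensions: directed union over the finite subextensions

`L / k` algebraic. For an intermediate field `F` let `R_F ⊂ L[x, y]` be the image of `F[x, y]` (`MvPolynomial.map (algebraMap F L)`, injective).

* `GF F`: the automorphisms `φ` with `p ∈ R_F ↔ φ p ∈ R_F` for all `p`.
* `mem_GF`: it is enough that `φ (X i)` and `φ⁻¹ (X i)` are in `R_F`: `φ (map G) = aeval (φ (X i)) G`, `R_F` is a subring which contains the constants of `F`
  (`MvPolynomial.induction_on` on `G`).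
* `GF_mono`: from `mem_GF` (`R_F ⊂ R_F'`).
* `GF_exh`: the finitely many coefficients of the four polynomials `φ (X i)`, `φ⁻¹ (X i)` generate a finite extension `F`
  (`IntermediateField.adjoin` of a finite set of algebraic elements, `IntermediateField.finiteDimensional_adjoin`), `MvPolynomial.mem_range_map_iff_coeffs_subset` or
  `mem_map_range`.
-/

set_option autoImplicit false

namespace Pool.Agent.H54.PA

open MvPolynomial Pool.Agent.H98.FJ

variable {k L : Type} [Field k] [Field L] [Algebra k L]

/-- the polynomials with coefficients in `F` -/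
noncomputable def RF (F : IntermediateField k L) : Subring (P L) :=
  (MvPolynomial.map (σ := Fin 2) (algebraMap F L)).range

/-- the automorphisms defined over `F` -/
noncomputable def GF (F : IntermediateField k L) : Subgroup (Au L) where
  carrier := {φ | ∀ p, p ∈ RF F ↔ φ p ∈ RF F}
  mul_mem' := by
    intro φ ψ hφ hψ p
    exact (hψ p).trans (hφ (ψ p))
  one_mem' := fun p => Iff.rfl
  inv_mem' := by
    intro φ hφ p
    have h := hφ (φ⁻¹ p)
    have h2 : φ (φ⁻¹ p) = p := φ.apply_symm_apply p
    rw [h2] at h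
    exact h.symm

theorem mem_RF {F : IntermediateField k L} {p : P L} :
    p ∈ RF F ↔ ∃ q : P F, MvPolynomial.map (algebraMap F L) q = p := Iff.rfl

theorem C_mem_RF (F : IntermediateField k L) (c : F) : (C (c : L) : P L) ∈ RF F :=
  ⟨C c, MvPolynomial.map_C _ _⟩

/-- an endomorphism which sends the variables to `R_F` preserves `R_F` -/
theorem hom_mem_RF {F : IntermediateField k L} {φ : P L →ₐ[L] P L} (h : ∀ i, φ (X i) ∈ RF F) (q : P F) :
    φ (MvPolynomial.map (algebraMap F L) q) ∈ RF F := by
  induction q using MvPolynomial.induction_on with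
  | C a =>
    rw [MvPolynomial.map_C, show (C ((algebraMap F L) a) : P L) = algebraMap L (P L) ((algebraMap F L) a) from rfl,
      AlgHom.commutes]
    exact C_mem_RF F a
  | add p q hp hq =>
    rw [map_add, map_add]
    exact (RF F).add_mem hp hq
  | mul_X p i hp =>
    rw [map_mul, map_mul, MvPolynomial.map_X]
    exact (RF F).mul_mem hp (h i)

theorem aut_mem_RF {F : IntermediateField k L} {φ : Au L} (h : ∀ i, φ (X i) ∈ RF F) {p : P L} (hp : p ∈ RF F) :
    φ p ∈ RF F := by
  obtain ⟨q, rfl⟩ := hp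
  exact hom_mem_RF (φ := (φ : P L →ₐ[L] P L)) h q

theorem mem_GF {F : IntermediateField k L} {φ : Au L} (h : ∀ i, φ (X i) ∈ RF F) (h' : ∀ i, φ⁻¹ (X i) ∈ RF F) :
    φ ∈ GF F := by
  intro p
  refine ⟨fun hp => aut_mem_RF h hp, fun hp => ?_⟩
  have h2 := aut_mem_RF h' hp
  have h3 : φ⁻¹ (φ p) = p := φ.symm_apply_apply p
  rwa [h3] at h2

theorem X_mem_RF (F : IntermediateField k L) (i : Fin 2) : (X i : P L) ∈ RF F :=
  ⟨X i, MvPolynomial.map_X _ _⟩

theorem RF_mono {F F' : IntermediateField k L} (h : F ≤ F') : RF F ≤ RF F' := by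
  rintro _ ⟨q, rfl⟩
  refine ⟨MvPolynomial.map (IntermediateField.inclusion h).toRingHom q, ?_⟩
  rw [MvPolynomial.map_map]
  rfl

theorem inv_mem_RF {F : IntermediateField k L} {φ : Au L} (h : φ ∈ GF F) (i : Fin 2) : φ⁻¹ (X i) ∈ RF F :=
  ((GF F).inv_mem h (X i)).1 (X_mem_RF F i)

theorem GF_mono {F F' : IntermediateField k L} (h : F ≤ F') : GF F ≤ GF F' := by
  intro φ hφ
  exact mem_GF (fun i => RF_mono h ((hφ (X i)).1 (X_mem_RF F i))) (fun i => RF_mono h (inv_mem_RF hφ i))

theorem coef_RF {F : IntermediateField k L} {p : P L} (h : ∀ e, coeff e p ∈ F) : p ∈ RF F := by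
  have h1 : p ∈ Set.range (MvPolynomial.map (σ := Fin 2) (algebraMap F L)) := by
    rw [MvPolynomial.mem_range_map_iff_coeffs_subset]
    intro c hc
    obtain ⟨e, he, rfl⟩ := MvPolynomial.mem_coeffs_iff.1 hc
    exact ⟨⟨_, h e⟩, rfl⟩
  exact h1

theorem GF_exh [Algebra.IsAlgebraic k L] (φ : Au L) :
    ∃ F : IntermediateField k L, FiniteDimensional k F ∧ φ ∈ GF F := by
  classical
  let S : Finset L := Finset.univ.biUnion fun i : Fin 2 =>
    (φ (X i)).support.image (fun e => coeff e (φ (X i))) ∪ (φ⁻¹ (X i)).support.image (fun e => coeff e (φ⁻¹ (X i)))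
  refine ⟨IntermediateField.adjoin k (S : Set L), ?_, mem_GF ?_ ?_⟩
  · exact IntermediateField.finiteDimensional_adjoin fun x _ => (Algebra.IsAlgebraic.isAlgebraic x).isIntegral
  · intro i
    refine coef_RF fun e => ?_
    by_cases he : coeff e (φ (X i)) = 0
    · rw [he]
      exact zero_mem _
    · refine IntermediateField.subset_adjoin k _ ?_
      rw [Finset.mem_coe, Finset.mem_biUnion]
      refine ⟨i, Finset.mem_univ _, Finset.mem_union_left _ (Finset.mem_image.2 ⟨e, ?_, rfl⟩)⟩
      exact mem_support_iff.2 he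
  · intro i
    refine coef_RF fun e => ?_
    by_cases he : coeff e (φ⁻¹ (X i)) = 0
    · rw [he]
      exact zero_mem _
    · refine IntermediateField.subset_adjoin k _ ?_
      rw [Finset.mem_coe, Finset.mem_biUnion]
      refine ⟨i, Finset.mem_univ _, Finset.mem_union_right _ (Finset.mem_image.2 ⟨e, ?_, rfl⟩)⟩
      exact mem_support_iff.2 he

end Pool.Agent.H54.PA
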