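import Mathlib
import Pool.Agent.H54.PA.Un1

/-!
# Restriction to the polynomials over `F`

* `GF_inj`: restriction `GF F → Au F`: an injective homomorphism (`R_F ≅ F[x, y]`; `φ` is determined by `φ (X i)`).
  For `φ ∈ GF F` and `G : P F` there is exactly one `G' : P F` with `map G' = φ (map G)` (`map_injective`); `G ↦ G'` is an `F`-algebra
  homomorphism with inverse the one of `φ⁻¹`. Convenient: `AlgEquiv.ofBijective` or `AlgEquiv.ofAlgHom (aeval (fun i => G_i)) (aeval (fun i => H_i))`, where
  `map G_i = φ (X i)`, `map H_i = φ⁻¹ (X i)`; the equations can be checked after applying `map`.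
-/

set_option autoImplicit false

namespace Pool.Agent.H54.PA

open MvPolynomial

variable {k L : Type} [Field k] [Field L] [Algebra k L]

theorem map_inj (F : IntermediateField k L) :
    Function.Injective (MvPolynomial.map (σ := Fin 2) (algebraMap F L)) :=
  MvPolynomial.map_injective _ (algebraMap F L).injective

/-- the polynomial over `F` with image `φ p` -/
theorem ex_down (F : IntermediateField k L) (φ : GF F) (q : P F) :
    ∃ r : P F, MvPolynomial.map (algebraMap F L) r = (φ : Au L) (MvPolynomial.map (algebraMap F L) q) :=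
  (φ.2 _).1 ⟨q, rfl⟩

noncomputable def dn (F : IntermediateField k L) (φ : GF F) (q : P F) : P F := (ex_down F φ q).choose

theorem map_dn (F : IntermediateField k L) (φ : GF F) (q : P F) :
    MvPolynomial.map (algebraMap F L) (dn F φ q) = (φ : Au L) (MvPolynomial.map (algebraMap F L) q) :=
  (ex_down F φ q).choose_spec

theorem dn_inv (F : IntermediateField k L) (φ : GF F) (q : P F) : dn F φ⁻¹ (dn F φ q) = q := by
  apply map_inj F
  rw [map_dn, map_dn]
  exact (φ : Au L).symm_apply_apply _

theorem dn_inv' (F : IntermediateField k L) (φ : GF F) (q : P F) : dn F φ (dn F φ⁻¹ q) = q := by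
  apply map_inj F
  rw [map_dn, map_dn]
  exact (φ : Au L).apply_symm_apply _

noncomputable def dnA (F : IntermediateField k L) (φ : GF F) : Au F where
  toFun := dn F φ
  invFun := dn F φ⁻¹
  left_inv := dn_inv F φ
  right_inv := dn_inv' F φ
  map_mul' := by
    intro p q
    apply map_inj F
    rw [map_dn, map_mul, map_mul, map_mul, map_dn, map_dn]
  map_add' := by
    intro p q
    apply map_inj F
    rw [map_dn, map_add, map_add, map_add, map_dn, map_dn]
  commutes' := by
    intro c
    apply map_inj F
    rw [map_dn, show (algebraMap F (P F)) c = C c from rfl, MvPolynomial.map_C]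
    exact (φ : Au L).commutes _

theorem GF_inj (F : IntermediateField k L) : ∃ ρ : GF F →* Au F, Function.Injective ρ := by
  refine ⟨{ toFun := dnA F, map_one' := ?_, map_mul' := ?_ }, ?_⟩
  · apply AlgEquiv.ext
    intro q
    apply map_inj F
    exact map_dn F 1 q
  · intro φ ψ
    apply AlgEquiv.ext
    intro q
    apply map_inj F
    show MvPolynomial.map (algebraMap F L) (dn F (φ * ψ) q) = MvPolynomial.map (algebraMap F L) (dn F φ (dn F ψ q))
    rw [map_dn, map_dn, map_dn]
    rfl
  · intro φ ψ h
    apply Subtype.ext
    have h1 : ∀ q : P F, dn F φ q = dn F ψ q := fun q => AlgEquiv.congr_fun (show dnA F φ = dnA F ψ from h) q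
    have h2 : ∀ i : Fin 2, (φ : Au L) (X i) = (ψ : Au L) (X i) := by
      intro i
      have h3 := map_dn F φ (X i)
      rw [h1, map_dn, MvPolynomial.map_X] at h3
      exact h3.symm
    apply AlgEquiv.ext
    intro p
    have h4 : ((φ : Au L) : P L →ₐ[L] P L) = ((ψ : Au L) : P L →ₐ[L] P L) := MvPolynomial.algHom_ext h2
    exact DFunLike.congr_fun h4 p

end Pool.Agent.H54.PA
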