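import Mathlib
import Pool.Agent.H54.PA.Un2

/-!
# Directed union over the finitely generated subfields
-/

set_option autoImplicit false

namespace Pool.Agent.H54.PA

open MvPolynomial Pool.Agent.H98.FJ

variable {k L : Type} [Field k] [Field L] [Algebra k L]

theorem mem_RF_of_coeff {F : IntermediateField k L} {p : P L} (h : ∀ e, coeff e p ∈ F) : p ∈ RF F := by
  have h1 : p ∈ Set.range (MvPolynomial.map (σ := Fin 2) (algebraMap F L)) := by
    rw [MvPolynomial.mem_range_map_iff_coeffs_subset]
    intro c hc
    obtain ⟨e, he, rfl⟩ := MvPolynomial.mem_coeffs_iff.1 hc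
    exact ⟨⟨_, h e⟩, rfl⟩
  exact h1

theorem exh (φ : Au L) : ∃ S : Finset L, φ ∈ GF (IntermediateField.adjoin k (S : Set L)) := by
  classical
  let S : Finset L := Finset.univ.biUnion fun i : Fin 2 =>
    (φ (X i)).support.image (fun e => coeff e (φ (X i))) ∪ (φ⁻¹ (X i)).support.image (fun e => coeff e (φ⁻¹ (X i)))
  refine ⟨S, mem_GF ?_ ?_⟩
  · intro i
    refine mem_RF_of_coeff fun e => ?_
    by_cases he : coeff e (φ (X i)) = 0
    · rw [he]
      exact zero_mem _
    · refine IntermediateField.subset_adjoin k _ ?_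
      rw [Finset.mem_coe, Finset.mem_biUnion]
      refine ⟨i, Finset.mem_univ _, Finset.mem_union_left _ (Finset.mem_image.2 ⟨e, ?_, rfl⟩)⟩
      exact mem_support_iff.2 he
  · intro i
    refine mem_RF_of_coeff fun e => ?_
    by_cases he : coeff e (φ⁻¹ (X i)) = 0
    · rw [he]
      exact zero_mem _
    · refine IntermediateField.subset_adjoin k _ ?_
      rw [Finset.mem_coe, Finset.mem_biUnion]
      refine ⟨i, Finset.mem_univ _, Finset.mem_union_right _ (Finset.mem_image.2 ⟨e, ?_, rfl⟩)⟩
      exact mem_support_iff.2 he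

variable (k) in
theorem fields_mem {C : (G : Type) → [Group G] → Prop} (hC : Inherits C)
    (h : ∀ S : Finset L, C (Au (IntermediateField.adjoin k (S : Set L)))) : C (Au L) := by
  classical
  refine hC.union (ι := Finset L) (fun S => GF (IntermediateField.adjoin k (S : Set L))) ?_ exh ?_
  · intro S T hST
    exact GF_mono (IntermediateField.adjoin.mono k _ _ (by exact_mod_cast hST))
  · intro S
    obtain ⟨ρ, hρ⟩ := GF_inj (IntermediateField.adjoin k (S : Set L))
    exact hC.of_injective ρ hρ (h S)

end Pool.Agent.H54.PA
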