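import Mathlib
import Pool.Agent.H54.PA.Tre
import Pool.Agent.H54.PA.Bnd
import Pool.Agent.H54.PA.Mu
import Pool.Agent.H54.PA.Ctb
import Pool.Agent.H54.PA.Cl
import Pool.Agent.H54.PA.Un
import Pool.Agent.H54.PA.Sol
import Pool.Agent.H54.PA.Aff
import Pool.Agent.H54.PA.Aff2

/-!
# Polynomial automorphisms of the plane
-/

set_option autoImplicit false

namespace Pool.Agent.H54.PA

open MvPolynomial Pool.Agent.H98.FJ

variable {C : (G : Type) → [Group G] → Prop}

/-- a countable field of characteristic zero with finitely many roots of unity -/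
theorem step (hC : Inherits C) (hT : AcylTrees C) (K : Type) [Field K] [CharZero K] [Countable K]
    (hμ : {z : K | ∃ n : ℕ, 0 < n ∧ z ^ n = 1}.Finite) (hA : C (A K)) (hE : C (E K)) : C (Au K) := by
  have := countable_au' K
  have h := acyl (isTree K) hμ
  exact hT (Au K) (Vt K) (Tr K) (isTree K) (fun g v w hvw => smul_adj g hvw)
    (fun g v w hvw h1 => no_inv g hvw h1) h (fun v => stab_mem hC hA hE v)

theorem fin_of {F : Type} [Field F] (i j : Algebra ℚ F) (h : @FiniteDimensional ℚ F _ _ i.toModule) :
    @FiniteDimensional ℚ F _ _ j.toModule := by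
  have h2 : i = j := Subsingleton.elim _ _
  rw [← h2]
  exact h

theorem algebraic (hC : Inherits C) (hT : AcylTrees C)
    (hGL : ∀ n : ℕ, C (Matrix.GeneralLinearGroup (Fin n) ℚ)) (L : Type) [Field L] [CharZero L]
    [Algebra.IsAlgebraic ℚ L] : C (Au L) := by
  refine fields_mem ℚ hC ?_
  intro S
  have hF : FiniteDimensional ℚ (IntermediateField.adjoin ℚ (S : Set L)) :=
    IntermediateField.finiteDimensional_adjoin fun x _ => Algebra.IsIntegral.isIntegral x
  have h1 : @FiniteDimensional ℚ (IntermediateField.adjoin ℚ (S : Set L)) _ _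
      (DivisionRing.toRatAlgebra : Algebra ℚ (IntermediateField.adjoin ℚ (S : Set L))).toModule :=
    fin_of (IntermediateField.algebra' _) DivisionRing.toRatAlgebra hF
  have : NumberField (IntermediateField.adjoin ℚ (S : Set L)) :=
    { to_charZero := inferInstance, to_finiteDimensional := h1 }
  have := countable_adj L S
  exact step hC hT _ (mu_adj L S) (A_mem hC hGL _) (E_mem hC hGL _)

/-- the automorphism group of the affine plane over the algebraic closure of the rational numbers -/
theorem main_a (hC : Inherits C) (hT : AcylTrees C) (hGL : ∀ n : ℕ, C (Matrix.GeneralLinearGroup (Fin n) ℚ)) :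
    C (MvPolynomial (Fin 2) (AlgebraicClosure ℚ) ≃ₐ[AlgebraicClosure ℚ] MvPolynomial (Fin 2) (AlgebraicClosure ℚ)) := by
  have h : Algebra.IsAlgebraic ℚ (AlgebraicClosure ℚ) := by
    have h2 : (AlgebraicClosure.instAlgebra ℚ : Algebra ℚ (AlgebraicClosure ℚ)) =
      DivisionRing.toRatAlgebra := Subsingleton.elim _ _
    rw [← h2]
    exact AlgebraicClosure.isAlgebraic ℚ
  exact algebraic hC hT hGL (AlgebraicClosure ℚ)

/-- reduction to the affine group, for all fields of characteristic zero -/
theorem main_b (hC : Inherits C) (hT : AcylTrees C) (hS : ∀ (G : Type) [Group G], Group.IsSolvable G → C G)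
    (K : Type) [Field K] [CharZero K] :
    C (MvPolynomial (Fin 2) K ≃ₐ[K] MvPolynomial (Fin 2) K) ↔ C ((Fin 2 → K) ≃ᵃ[K] (Fin 2 → K)) := by
  constructor
  · intro h
    obtain ⟨Ψ, hΨ⟩ := aff_sub K
    exact hC.of_injective Ψ hΨ h
  · intro h
    refine fields_mem ℚ hC ?_
    intro S
    have := countable_adj K S
    refine step hC hT _ (mu_adj K S) ?_ (hS _ (E_solvable _))
    obtain ⟨Φ, hΦ⟩ := aff_inj (IntermediateField.adjoin ℚ (S : Set K)) K
    exact hC.of_injective Φ hΦ h

end Pool.Agent.H54.PA
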