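import Mathlib
import Pool.Agent.H54.PA.Tre
import Pool.Agent.H54.PA.Bnd
import Pool.Agent.H54.PA.Ctb

/-!
# Groups of automorphisms over a countable field with finitely many roots of unity

`ρ : G → Au F` injective; `G` acts on `Vt F` through `ρ` (`MulAction.compHom`). `AcylTrees` with `Tr F` (`isTree`), `smul_adj`, `no_inv`, and `acyl`: the set
`{x : G | ρ x • v = v ∧ ρ x • w = w}` is mapped injectively into the corresponding set of `Au F` (`Set.Finite.of_injOn`, `Set.ncard_le_ncard_of_injOn`). The stabiliser of `g A` is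
`(cj (A F) g).comap ρ` (`fix_inl`, `mem_cj`), the one of `g E` is `(cj (E F) g).comap ρ`. `G` is countable because `ρ` is injective (`countable_au'`).
-/

set_option autoImplicit false

namespace Pool.Agent.H54.PA

open MvPolynomial Pool.Agent.H98.FJ

theorem step2 {C : (G : Type) → [Group G] → Prop} (hC : Inherits C) (hT : AcylTrees C) (F : Type) [Field F]
    [CharZero F] [Countable F] (hμ : {z : F | ∃ n : ℕ, 0 < n ∧ z ^ n = 1}.Finite) (G : Type) [Group G]
    (ρ : G →* Au F) (hρ : Function.Injective ρ) (hA : ∀ g : Au F, C ((cj (A F) g).comap ρ))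
    (hE : ∀ g : Au F, C ((cj (E F) g).comap ρ)) : C G := by
  have hcA : Countable (Au F) := countable_au' F
  have hcG : Countable G := hρ.countable
  let act : MulAction G (Vt F) := MulAction.compHom (Vt F) ρ
  obtain ⟨k, N, hkN⟩ := acyl (isTree F) hμ
  refine hT G (Vt F) (Tr F) (isTree F) (fun g v w hvw => smul_adj (ρ g) hvw)
    (fun g v w hvw h1 => no_inv (ρ g) hvw h1) ⟨k, N, fun v w hvw => ?_⟩ (fun v => ?_)
  · obtain ⟨h1, h2⟩ := hkN v w hvw
    have hm : ∀ g ∈ {g : G | g • v = v ∧ g • w = w}, ρ g ∈ {g : Au F | g • v = v ∧ g • w = w} := fun g hg => hg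
    exact ⟨Set.Finite.of_injOn hm hρ.injOn h1, (Set.ncard_le_ncard_of_injOn _ hm hρ.injOn h1).trans h2⟩
  · rcases v with v | v
    · obtain ⟨g, rfl⟩ := QuotientGroup.mk_surjective v
      have h : MulAction.stabilizer G (Sum.inl (g : Au F ⧸ A F) : Vt F) = (cj (A F) g).comap ρ := by
        ext u
        exact fix_inl (u := ρ u) (g := g)
      rw [h]
      exact hA g
    · obtain ⟨g, rfl⟩ := QuotientGroup.mk_surjective v
      have h : MulAction.stabilizer G (Sum.inr (g : Au F ⧸ E F) : Vt F) = (cj (E F) g).comap ρ := by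
        ext u
        exact fix_inr (u := ρ u) (g := g)
      rw [h]
      exact hE g

end Pool.Agent.H54.PA
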