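import Mathlib
import Pool.Agent.H54.PA.Un2

/-!
# Restriction to the polynomials over `F`, with its property

As `GF_inj` in `Un2.lean` (same homomorphism `dnA`), but with the relation `map (ρ φ p) = φ (map p)`.
-/

set_option autoImplicit false

namespace Pool.Agent.H54.PA

open MvPolynomial

variable {k L : Type} [Field k] [Field L] [Algebra k L]

theorem GF_res (F : IntermediateField k L) : ∃ ρ : GF F →* Au F,
    ∀ (φ : GF F) (p : P F), MvPolynomial.map (algebraMap F L) (ρ φ p) = (φ : Au L) (MvPolynomial.map (algebraMap F L) p) := by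
  refine ⟨{ toFun := dnA F, map_one' := ?_, map_mul' := ?_ }, fun φ p => map_dn F φ p⟩
  · apply AlgEquiv.ext
    intro q
    apply map_inj F
    exact map_dn F 1 q
  · intro φ ψ
    apply AlgEquiv.ext
    intro q
    apply map_inj F
    show MvPolynomial.map (algebraMap F L) (dn F (φ * ψ) q) = MvPolynomial.map (algebraMap F L) (dn F φ (dn F ψ q))
    rw [map_dn, map_dn, map_dn]
    rfl

end Pool.Agent.H54.PA
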