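import Mathlib
import Pool.Agent.H54.PA.Main
import Pool.Agent.H54.PA.Bc
import Pool.Agent.H54.PA.Un3
import Pool.Agent.H54.PA.Lat
import Pool.Agent.H54.PA.Lin
import Pool.Agent.H54.PA.Gla
import Pool.Agent.H54.PA.Glq
import Pool.Agent.H54.PA.Stp

/-!
# Automorphisms of the plane over principal ideal domains
-/

set_option autoImplicit false

namespace Pool.Agent.H54.PA

open MvPolynomial Pool.Agent.H98.FJ Pool.Agent.H54.CX

variable {C : (G : Type) → [Group G] → Prop}

/-- a stabiliser -/
theorem stab_mem2 (hC : Inherits C) {R K : Type} [CommRing R] [IsDomain R] [IsPrincipalIdealRing R] [Field K]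
    [Algebra R K] [IsFractionRing R K] (hA : C (AR R K)) (g : Au K) {G : Type} [Group G] (ι : G →* Au K)
    (hι : Function.Injective ι) (h1 : ∀ x, ι x ∈ GR R K) (h2 : ∀ x, g⁻¹ * ι x * g ∈ A K) : C G := by
  obtain ⟨a, ha, h⟩ := lattice (R := R) g
  refine hC.of_injective (H := AR R K)
    { toFun := fun x => ⟨(g * a)⁻¹ * ι x * (g * a), h (ι x) (h1 x) (h2 x)⟩
      map_one' := by
        apply Subtype.ext
        show (g * a)⁻¹ * ι 1 * (g * a) = 1
        rw [map_one, mul_one, inv_mul_cancel]
      map_mul' := fun x y => by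
        apply Subtype.ext
        show (g * a)⁻¹ * ι (x * y) * (g * a) = ((g * a)⁻¹ * ι x * (g * a)) * ((g * a)⁻¹ * ι y * (g * a))
        rw [map_mul]
        group } ?_ hA
  intro x y hxy
  have h3 : (g * a)⁻¹ * ι x * (g * a) = (g * a)⁻¹ * ι y * (g * a) := congrArg Subtype.val hxy
  exact hι (mul_left_cancel (mul_right_cancel h3))

theorem GR_mem (hC : Inherits C) (hE : Extension C) (hT : AcylTrees C)
    (hS : ∀ (G : Type) [Group G], Group.IsSolvable G → C G) {R K : Type} [CommRing R] [IsDomain R]
    [IsPrincipalIdealRing R] [Field K] [CharZero K] [Algebra R K] [IsFractionRing R K]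
    (hR : C (Matrix.GeneralLinearGroup (Fin 2) R)) : C (GR R K) := by
  classical
  have hA : C (AR R K) := AR_mem hC hE hS R K (IsFractionRing.injective R K) hR
  refine hC.union (ι := Finset K)
    (fun S => (GF (IntermediateField.adjoin ℚ (S : Set K))).comap (GR R K).subtype) ?_ ?_ ?_
  · intro S T hST x hx
    exact GF_mono (IntermediateField.adjoin.mono ℚ _ _ (by exact_mod_cast hST)) hx
  · intro x
    obtain ⟨S, hS'⟩ := exh (k := ℚ) (x : Au K)
    exact ⟨S, hS'⟩
  · intro S
    have := countable_adj K S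
    obtain ⟨ρ, hρ⟩ := GF_res (IntermediateField.adjoin ℚ (S : Set K))
    let F := IntermediateField.adjoin ℚ (S : Set K)
    let G : Type := ((GF (IntermediateField.adjoin ℚ (S : Set K))).comap (GR R K).subtype)
    let ι : G →* Au K := (GR R K).subtype.comp (Subgroup.subtype _)
    have hι : Function.Injective ι := fun x y h => Subtype.ext (Subtype.ext h)
    let ι' : G →* GF F :=
      { toFun := fun x => ⟨ι x, x.2⟩
        map_one' := rfl
        map_mul' := fun _ _ => rfl }
    have hr : ∀ (x : G) (p : P F), MvPolynomial.map (algebraMap F K) (ρ (ι' x) p) =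
        ι x (MvPolynomial.map (algebraMap F K) p) := fun x p => hρ (ι' x) p
    have hinj : Function.Injective (ρ.comp ι') := by
      intro x y hxy
      apply hι
      refine bc_eq (ψ := ρ (ι' x)) (hr x) ?_
      intro p
      have h1 : ρ (ι' x) = ρ (ι' y) := hxy
      rw [h1]
      exact hr y p
    obtain ⟨β, hβ⟩ := exists_bc F K
    have hβρ : ∀ x : G, β (ρ (ι' x)) = ι x := fun x => bc_eq (ψ := ρ (ι' x)) (hβ _) (hr x)
    refine step2 hC hT F (mu_adj K S) G (ρ.comp ι') hinj ?_ ?_
    · intro g
      refine stab_mem2 hC hA (β g) (ι.comp (Subgroup.subtype _)) (fun x y h => Subtype.ext (hι h)) (fun x => x.1.1.2) ?_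
      intro x
      have h1 : g⁻¹ * ρ (ι' x.1) * g ∈ A F := x.2
      have h2 : β (g⁻¹ * ρ (ι' x.1) * g) ∈ A K := bc_A (hβ _) h1
      rw [map_mul, map_mul, map_inv, hβρ] at h2
      exact h2
    · intro g
      refine hC.of_injective (H := E F)
        { toFun := fun x => ⟨g⁻¹ * ρ (ι' x.1) * g, x.2⟩
          map_one' := by
            apply Subtype.ext
            show g⁻¹ * ρ (ι' 1) * g = 1
            rw [map_one, map_one, mul_one, inv_mul_cancel]
          map_mul' := fun x y => by
            apply Subtype.ext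
            show g⁻¹ * ρ (ι' (x.1 * y.1)) * g = (g⁻¹ * ρ (ι' x.1) * g) * (g⁻¹ * ρ (ι' y.1) * g)
            rw [map_mul, map_mul]
            group } ?_ (hS _ (E_solvable F))
      intro x y hxy
      have h3 : g⁻¹ * ρ (ι' x.1) * g = g⁻¹ * ρ (ι' y.1) * g := congrArg Subtype.val hxy
      exact Subtype.ext (hinj (mul_left_cancel (mul_right_cancel h3)))

/-- principal ideal domains of characteristic zero -/
theorem pid (hC : Inherits C) (hE : Extension C) (hT : AcylTrees C)
    (hS : ∀ (G : Type) [Group G], Group.IsSolvable G → C G) (R : Type) [CommRing R] [IsDomain R]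
    [IsPrincipalIdealRing R] [CharZero R] :
    C (MvPolynomial (Fin 2) R ≃ₐ[R] MvPolynomial (Fin 2) R) ↔ C (Matrix.GeneralLinearGroup (Fin 2) R) := by
  constructor
  · intro h
    obtain ⟨Ψ, hΨ⟩ := gl_au R
    exact hC.of_injective Ψ hΨ h
  · intro h
    have : CharZero (FractionRing R) := charZero_of_injective_algebraMap (IsFractionRing.injective R (FractionRing R))
    obtain ⟨β, hβ⟩ := bc_inj R (FractionRing R) (IsFractionRing.injective R (FractionRing R))
    exact hC.of_injective β hβ (GR_mem hC hE hT hS h)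

theorem isAlg : Algebra.IsAlgebraic ℚ (AlgebraicClosure ℚ) := by
  have h2 : (AlgebraicClosure.instAlgebra ℚ : Algebra ℚ (AlgebraicClosure ℚ)) =
    DivisionRing.toRatAlgebra := Subsingleton.elim _ _
  rw [← h2]
  exact AlgebraicClosure.isAlgebraic ℚ

/-- automorphisms of the affine space of dimension three which fix a coordinate -/
theorem nagata (hC : Inherits C) (hE : Extension C) (hT : AcylTrees C)
    (hS : ∀ (G : Type) [Group G], Group.IsSolvable G → C G) (h2 : Cat2 C) (K : Type) [Field K] [CharZero K]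
    (hK : C (Matrix.GeneralLinearGroup (Fin 2) K)) :
    C (MvPolynomial (Fin 2) (Polynomial K) ≃ₐ[Polynomial K] MvPolynomial (Fin 2) (Polynomial K)) :=
  (pid hC hE hT hS (Polynomial K)).2 (gl_poly hC hE h2 K hK)

theorem gl_qbar (hC : Inherits C) (hGL : ∀ n : ℕ, C (Matrix.GeneralLinearGroup (Fin n) ℚ)) :
    C (Matrix.GeneralLinearGroup (Fin 2) (AlgebraicClosure ℚ)) := by
  have := isAlg
  exact gl_alg hC hGL (AlgebraicClosure ℚ)

end Pool.Agent.H54.PA
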